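import Pool.Agent.Helper36_XQ.Fin34
import Pool.Agent.Helper29_XQ.Arc
import Pool.Agent.Helper29_XQ.Avg
import Pool.Agent.Helper54_XQ.Cor
import Pool.Agent.Helper34_XQ.Cnv
import Pool.Agent.Helper32_XQ.Cr3
import Pool.Agent.Helper32_XQ.Cr4
import Pool.Agent.Helper18_XQ.Cut4
import Pool.Agent.Helper1_XQ.Eav
import Pool.Agent.Helper84_XQ.El3
import Pool.Agent.Helper87_XQ.Hc4
import Pool.Agent.Helper84_XQ.Win4
import Pool.Agent.Helper50_XQ.Klb
import Pool.Agent.Helper37_XQ.Lc3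
import Pool.Agent.Helper37_XQ.Lc4
import Pool.Agent.Helper34_XQ.Lcc
import Pool.Agent.Helper97_XQ.Lo3
import Pool.Agent.Helper87_XQ.Lo4
import Pool.Agent.Helper25_XQ.Upb4
import Pool.Agent.Helper1_XQ.Mid
import Pool.Agent.Helper34_XQ.Nr3
import Pool.Agent.Helper2_XQ.Nr4
import Pool.Agent.Helper32_XQ.Pb3
import Pool.Agent.Helper15_XQ.Pb4
import Pool.Agent.Helper84_XQ.Pol4
import Pool.Agent.Helper17_XQ.Rev
import Pool.Agent.Helper7_XQ.Mn4
import Pool.Agent.Helper17_XQ.Rot
import Pool.Agent.Helper66_XQ.Trf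
import Pool.Agent.Helper97_XQ.Up3
import Pool.Agent.Helper2_XQ.Up4
import Pool.Agent.Helper18_XQ.Upp4
import Pool.Agent.Helper60_AEU.All

/-!
Squad XQ (MP_5b0138_an), part A: `Germ3Stmt` and `Germ4Stmt` (helper36, with helpers 1, 2, 7, 15, 17,
18, 25, 29, 32, 34, 37, 50, 54, 66, 84, 87, 97).
-/

set_option autoImplicit false

namespace Pool.Agent.XQ.K4

theorem upb_all : UpbStatement := H25.upb (H18.upp H17.rot_ms H17.rev)

theorem low_all : LowStatement := H25.low H18.cut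

theorem mid_all : MidStatement := H1.mid H50.klb

theorem cvv_all : CvvStatement :=
  H54.cvv H60K.lab_all (H60K.H15.kes H60K.H38.kerAll H60K.H51.ktb H60K.H38.ktp AEU.H7.ktl
    H60K.H44.uni) H50.klb

theorem cva_all : CvaStatement := H54.cva H60K.lab_all H60K.H38.kerAll H50.klb

theorem cea_all : CeaStatement := H54.cea H60K.lab_all H60K.H38.kerAll H50.klb

theorem pb3_all : Pb3Statement :=
  H32.pb3 (H32.cr3 cvv_all cva_all H66.trf) mid_all H84.in1 H84.in2

theorem pb4_all : Pb4Statement :=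
  H15.pb4 (H32.cr4 cea_all H66.trf mid_all) H84.in1 H84.in2

theorem nr3_all : Nr3Statement := H34.nr3 H84.pol H87.hc4

theorem lcc_all : LccStatement := H34.lcc H84.pol

theorem mn4_all : Mn4Statement := H7.mn4 upb_all H29.avg low_all H34.cnv H29.arc

/-- the segment between two corners -/
theorem germ3_all : Germ3Stmt :=
  germ3 upb_all mn4_all H1.eav (H97.up3 H84.pol nr3_all H84.el3)
    (H97.lo3 H84.pol nr3_all H84.el3) (H37.lc3 lcc_all) pb3_all

/-- the triangle with an edge -/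
theorem germ4_all : Germ4Stmt :=
  germ4 upb_all mn4_all H1.eav (H2.up4 H84.pol H2.nr4) (H87.lo4 H84.pol H2.nr4)
    (H37.lc4 lcc_all) pb4_all

end Pool.Agent.XQ.K4
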