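import Pool.Agent.Helper36_XQ.Stmt5

/-!
Squad XQ (MP_5b0138_an), part E4, module GVC: virtual loops, common part (helper36).
-/

set_option autoImplicit false

namespace Pool.Agent.XQ.K4.H36

open MeasureTheory Complex Filter Topology ProbabilityTheory Pool.Agent.H16Iso Pool.Agent.H62T
  Pool.Agent.H16F Pool.Agent.H38KL Pool.Agent.AEU Pool.Agent.XQ.K4
open scoped ENNReal NNReal

theorem nrm_e (a : ℝ) : ‖exp (a * I)‖ = 1 := Complex.norm_exp_ofReal_mul_I a

theorem nrm_uE (η1 η2 δ1 δ2 : ℝ) (s : Fin 4) : ‖uE η1 η2 δ1 δ2 s‖ = 1 := by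
  fin_cases s
  · simp [uE]
  · have := nrm_e (-η2)
    push_cast at this
    simp [uE, neg_mul] at this ⊢
    exact this
  · show ‖exp ((δ1 : ℝ) * I)‖ = 1
    exact nrm_e _
  · show ‖exp ((δ2 : ℝ) * I)‖ = 1
    exact nrm_e _

/-- points of a thin ellipse -/
theorem ell {a η κ : ℝ} {v : ℂ} (ha : 0 ≤ a) (hη : 0 ≤ η) (hκ : 0 ≤ κ)
    (h : ‖v‖ + ‖(a : ℂ) - v‖ < a + η) (hk : 2 * η * (a + η) ≤ κ ^ 2) :
    |v.im| ≤ κ ∧ -(η / 2) ≤ v.re ∧ v.re ≤ a + η / 2 := by
  have h1 : v.re ≤ ‖v‖ := Complex.re_le_norm v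
  have h1' : -v.re ≤ ‖v‖ := by
    have := Complex.re_le_norm (-v)
    rwa [norm_neg, Complex.neg_re] at this
  have h2 : a - v.re ≤ ‖(a : ℂ) - v‖ := by
    have := Complex.re_le_norm ((a : ℂ) - v)
    rwa [Complex.sub_re, Complex.ofReal_re] at this
  have h2' : v.re - a ≤ ‖(a : ℂ) - v‖ := by
    have := Complex.re_le_norm (v - (a : ℂ))
    rwa [norm_sub_rev, Complex.sub_re, Complex.ofReal_re] at this
  refine ⟨?_, by linarith, by linarith⟩
  have h3 : ‖v‖ ^ 2 = v.re ^ 2 + v.im ^ 2 := nsq v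
  have h4 : ‖v‖ - v.re < η := by linarith
  have h5 : 0 ≤ ‖v‖ := norm_nonneg v
  have h6 : ‖v‖ < a + η := by linarith [norm_nonneg ((a : ℂ) - v)]
  have h7 : v.im ^ 2 ≤ κ ^ 2 := by
    have e : v.im ^ 2 = (‖v‖ - v.re) * (‖v‖ + v.re) := by linarith only [h3]
    rw [e]
    have e1 : (‖v‖ - v.re) * (‖v‖ + v.re) ≤ η * (2 * (a + η)) := by
      apply mul_le_mul h4.le (by linarith) (by linarith) hη
    linarith only [hk, e1]
  exact abs_le_of_sq_le_sq h7 hκ

/-- distance to a point of the segment -/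
theorem seg {a η κ b L c K : ℝ} {v : ℂ} (hb : b ≤ L) (hc : 0 < c) (hK : 0 ≤ K) (haL : a ≤ L)
    (hη : 0 ≤ η) (h1 : |v.im| ≤ κ) (h3 : v.re ≤ a + η / 2) (h4 : c * b - K ≤ c * v.re) :
    ∃ s : ℝ, b ≤ s ∧ s ≤ L ∧ ‖v - s‖ ≤ κ + K / c + η / 2 := by
  have hn : ∀ s : ℝ, ‖v - s‖ ≤ |v.re - s| + |v.im| := by
    intro s
    have := Complex.norm_le_abs_re_add_abs_im (v - s)
    simpa using this
  have hKc : 0 ≤ K / c := by positivity
  have h5 : b - K / c ≤ v.re := by
    have : c * (b - K / c) = c * b - K := by field_simp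
    have h6 : c * (b - K / c) ≤ c * v.re := by rw [this]; exact h4
    exact le_of_mul_le_mul_left h6 hc
  rcases lt_or_ge v.re b with h | h
  · refine ⟨b, le_rfl, hb, (hn b).trans ?_⟩
    rw [abs_of_nonpos (by linarith)]
    linarith
  · rcases lt_or_ge L v.re with h' | h'
    · refine ⟨L, hb, le_rfl, (hn L).trans ?_⟩
      rw [abs_of_nonneg (by linarith)]
      linarith
    · refine ⟨v.re, h, h', (hn v.re).trans ?_⟩
      rw [sub_self, abs_zero]
      linarith

theorem ip_exp (a b : ℝ) (v : ℂ) :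
    ip (exp (a * I)) (exp (b * I) * v) = Real.cos (a - b) * v.re + Real.sin (a - b) * v.im := by
  unfold ip
  rw [Complex.exp_mul_I, Complex.exp_mul_I]
  simp only [Complex.mul_re, Complex.mul_im, Complex.add_re, Complex.add_im, Complex.cos_ofReal_re,
    Complex.sin_ofReal_re, Complex.cos_ofReal_im, Complex.sin_ofReal_im, Complex.I_re,
    Complex.I_im, Real.cos_sub, Real.sin_sub]
  ring

theorem norm_exp_mul (b : ℝ) (v : ℂ) : ‖exp (b * I) * v‖ = ‖v‖ := by
  rw [norm_mul, nrm_e, one_mul]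

/-- module GVC -/
theorem gvc (vpl : VplStatement) (pte : PteStatement) : GvcStatement := by
  intro δ1 δ2 ρ ε hl hε
  obtain ⟨p1, p2, p3, p4, p5, -, -, -, -, -, -, -, -, p6⟩ := pte δ1 δ2 ρ hl
  set γ := gE δ1 δ2 with hγ
  set L := LE δ1 δ2 ρ with hL
  set ξ := xiE δ1 δ2 ρ with hξ
  set a2 := sq δ1 δ2 ρ with ha2
  set a3 := sr δ1 δ2 ρ with ha3
  have hξe : ξ = (a2 + (L - a3)) / 2 := rfl
  have hξ2 : a2 < ξ := by rw [hξe]; linarith
  have hξ3 : a3 < L - ξ := by rw [hξe]; linarith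
  set c2 := Real.sin δ2 with hc2
  set c3 := -Real.sin δ1 with hc3
  have c2p : 0 < c2 := Real.sin_pos_of_pos_of_lt_pi hl.b3 (by linarith [hl.b4, Real.pi_pos])
  have c3p : 0 < c3 := by
    rw [hc3, ← Real.sin_neg]
    exact Real.sin_pos_of_pos_of_lt_pi (by linarith [hl.b2]) (by linarith [hl.b1, Real.pi_pos])
  have c2l : c2 ≤ 1 := Real.sin_le_one _
  have c3l : c3 ≤ 1 := by rw [hc3]; linarith [Real.neg_one_le_sin δ1]
  have k1 : 0 < Real.cos δ1 := Real.cos_pos_of_mem_Ioo ⟨hl.b1, by linarith [hl.b2, Real.pi_pos]⟩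
  have k2 : 0 < Real.cos δ2 := Real.cos_pos_of_mem_Ioo ⟨by linarith [hl.b3, Real.pi_pos], hl.b4⟩
  have k1l := Real.cos_le_one δ1
  have k2l := Real.cos_le_one δ2
  have hρ := hl.r
  have h2e : ρ * Real.cos δ1 = c2 * a2 := by
    rw [ha2]; unfold sq; rw [← hc2]; field_simp
  have h3e : ρ * Real.cos δ2 = c3 * a3 := by
    rw [ha3]; unfold sr; rw [← hc3]; field_simp
  set h2 := ip (exp (δ1 * I)) ρ with hh2
  set h3 := ip (exp (δ2 * I)) ρ with hh3
  have h2v : h2 = c2 * a2 := by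
    rw [hh2, ← h2e]
    have := ip_exp δ1 0 (ρ : ℂ)
    simp only [Complex.ofReal_zero, zero_mul, Complex.exp_zero, one_mul, sub_zero,
      Complex.ofReal_re, Complex.ofReal_im, mul_zero, add_zero] at this
    rw [this]; ring
  have h3v : h3 = c3 * a3 := by
    rw [hh3, ← h3e]
    have := ip_exp δ2 0 (ρ : ℂ)
    simp only [Complex.ofReal_zero, zero_mul, Complex.exp_zero, one_mul, sub_zero,
      Complex.ofReal_re, Complex.ofReal_im, mul_zero, add_zero] at this
    rw [this]; ring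
  have h2p : 0 < h2 := by rw [h2v]; positivity
  have h3p : 0 < h3 := by rw [h3v]; positivity
  -- trigonometric relations
  have t1 : Real.cos (δ1 - -γ) = c2 := by
    rw [hγ, hc2]; unfold gE
    rw [show δ1 - -(δ2 - δ1 - Real.pi / 2) = δ2 - Real.pi / 2 by ring, Real.cos_sub_pi_div_two]
  have t2 : Real.sin (δ1 - -γ) = -Real.cos δ2 := by
    rw [hγ]; unfold gE
    rw [show δ1 - -(δ2 - δ1 - Real.pi / 2) = δ2 - Real.pi / 2 by ring, Real.sin_sub_pi_div_two]
  have t3 : Real.cos (δ2 - γ) = c3 := by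
    rw [hγ, hc3]; unfold gE
    rw [show δ2 - (δ2 - δ1 - Real.pi / 2) = δ1 + Real.pi / 2 by ring, Real.cos_add_pi_div_two]
  have t4 : Real.sin (δ2 - γ) = Real.cos δ1 := by
    rw [hγ]; unfold gE
    rw [show δ2 - (δ2 - δ1 - Real.pi / 2) = δ1 + Real.pi / 2 by ring, Real.sin_add_pi_div_two]
  have eneg : exp (-((γ : ℂ) * I)) = exp (((-γ : ℝ) : ℂ) * I) := by
    push_cast
    rw [neg_mul]
  set c := min c2 c3 with hc
  have cp : 0 < c := lt_min c2p c3p
  have cl2 : c ≤ c2 := min_le_left _ _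
  have cl3 : c ≤ c3 := min_le_right _ _
  have cl : c ≤ 1 := cl2.trans c2l
  set κ := ε * c / 8 with hκ
  have κp : 0 < κ := by positivity
  have κε : κ ≤ ε / 8 := by rw [hκ]; nlinarith only [hε, cl]
  have Lp : 0 < L := by linarith only [p3, p4, p5]
  set M := min (min (L / 6) (κ ^ 2 / (24 * L))) (min (min (ε * c / 16) (h2 / 2)) (min (min (h3 / 2)
    ((L - ξ) / 4)) (min (ξ / 4) (c2 * (ξ - a2) / 4)))) with hM
  have M1 : M ≤ L / 6 := (min_le_left _ _).trans (min_le_left _ _)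
  have M2 : M ≤ κ ^ 2 / (24 * L) := (min_le_left _ _).trans (min_le_right _ _)
  have M3 : M ≤ ε * c / 16 :=
    (min_le_right _ _).trans ((min_le_left _ _).trans (min_le_left _ _))
  have M4 : M ≤ h2 / 2 := (min_le_right _ _).trans ((min_le_left _ _).trans (min_le_right _ _))
  have M5 : M ≤ h3 / 2 := (min_le_right _ _).trans
    ((min_le_right _ _).trans ((min_le_left _ _).trans (min_le_left _ _)))
  have M6 : M ≤ (L - ξ) / 4 := (min_le_right _ _).trans
    ((min_le_right _ _).trans ((min_le_left _ _).trans (min_le_right _ _)))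
  have M7 : M ≤ ξ / 4 := (min_le_right _ _).trans
    ((min_le_right _ _).trans ((min_le_right _ _).trans (min_le_left _ _)))
  have M8 : M ≤ c2 * (ξ - a2) / 4 := (min_le_right _ _).trans
    ((min_le_right _ _).trans ((min_le_right _ _).trans (min_le_right _ _)))
  have hξa : 0 < ξ - a2 := by linarith only [hξ2]
  have hξp : 0 < ξ := by linarith
  have hLξ : 0 < L - ξ := by linarith
  have Mp : 0 < M := by
    refine lt_min (lt_min (by positivity) (by positivity)) (lt_min (lt_min (by positivity)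
      (by positivity)) (lt_min (lt_min (by positivity) (by positivity)) (lt_min (by positivity)
      (by positivity))))
  clear_value M
  have hsq : 2 * (6 * M) * (L + 6 * M) ≤ κ ^ 2 := by
    have h1 : M * (24 * L) ≤ κ ^ 2 := by
      rw [le_div_iff₀ (by positivity)] at M2
      exact M2
    nlinarith only [h1, M1, Mp]
  refine ⟨M, Mp, ?_⟩
  intro δ ζ hδ hδM hζ hζM η1 η2 n _ x A l0 hn hl0 hl0n hz0 hCnv hShv hx0 hx1 hLv
  obtain ⟨v1, v2, v3⟩ := vpl (uE η1 η2 δ1 δ2) (hE δ1 δ2 ρ) n x A (nrm_uE η1 η2 δ1 δ2) hn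
  have v3 := v3 hCnv
  obtain ⟨v2, -⟩ := v2 δ hShv
  set z : ℕ → ℂ := zV (uE η1 η2 δ1 δ2) (hE δ1 δ2 ρ) x with hz
  obtain ⟨r0, -, -⟩ := p6 η1 η2 (x 0)
  obtain ⟨-, r1, -⟩ := p6 η1 η2 (x 1)
  set w0 := mi δ1 δ2 ρ (x 0) with hw0
  set w1 := mi δ1 δ2 ρ (x 1) with hw1
  have z1 : z 1 = exp (γ * I) * (L - w1) := by
    rw [hz]; unfold zV
    rw [if_pos rfl]
    exact r1
  have zn : z n = exp (-(γ * I)) * w0 := by
    rw [hz]; unfold zV
    rw [if_neg (by omega), if_pos rfl]
    exact r0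
  have wa0 : |w0.re - ξ| < δ := hx0.1
  have wb0 : -ζ < w0.im := hx0.2.1
  have wc0 : w0.im < ζ := hx0.2.2
  have wa1 : |w1.re - ξ| < δ := hx1.1
  have wb1 : -ζ < w1.im := hx1.2.1
  have wc1 : w1.im < ζ := hx1.2.2
  rw [abs_lt] at wa0 wa1
  -- far and near sides
  have far2 : ∀ l : ℕ, 1 ≤ l → l < n → 2 ∉ A (Fin.ofNat n l) →
      h2 < ip (exp (δ1 * I)) (z l) ∧ h2 < ip (exp (δ1 * I)) (z (l + 1)) := by
    intro l hl1 hln h
    obtain ⟨e1, e2⟩ := v3 l 2 hl1 hln h
    have u2 : uc4 (uE η1 η2 δ1 δ2) 2 = -exp (δ1 * I) := by simp [uc4, uE]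
    have hc2' : hc4 (hE δ1 δ2 ρ) 2 = -h2 := by simp [hc4, hE, hh2]
    have ipn : ∀ w : ℂ, ip (-exp (δ1 * I)) w = -ip (exp (δ1 * I)) w := by
      intro w
      unfold ip
      simp only [Complex.neg_re, Complex.neg_im]
      ring
    rw [u2, hc2', ipn] at e1 e2
    exact ⟨by linarith only [e1], by linarith only [e2]⟩
  have far3 : ∀ l : ℕ, 1 ≤ l → l < n → 3 ∉ A (Fin.ofNat n l) →
      h3 < ip (exp (δ2 * I)) (z l) ∧ h3 < ip (exp (δ2 * I)) (z (l + 1)) := by
    intro l hl1 hln h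
    obtain ⟨e1, e2⟩ := v3 l 3 hl1 hln h
    have u2 : uc4 (uE η1 η2 δ1 δ2) 3 = -exp (δ2 * I) := by simp [uc4, uE]
    have hc2' : hc4 (hE δ1 δ2 ρ) 3 = -h3 := by simp [hc4, hE, hh3]
    have ipn : ∀ w : ℂ, ip (-exp (δ2 * I)) w = -ip (exp (δ2 * I)) w := by
      intro w
      unfold ip
      simp only [Complex.neg_re, Complex.neg_im]
      ring
    rw [u2, hc2', ipn] at e1 e2
    exact ⟨by linarith only [e1], by linarith only [e2]⟩
  have ipl : ∀ (a : ℝ) (w : ℂ), ip (exp (a * I)) w ≤ ‖w‖ := by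
    intro a w
    have h1 : ip (exp (a * I)) w = ((starRingEnd ℂ) (exp (a * I)) * w).re := by
      unfold ip
      simp only [Complex.mul_re, Complex.conj_re, Complex.conj_im]
      ring
    rw [h1]
    refine (Complex.re_le_norm _).trans ?_
    rw [norm_mul, RCLike.norm_conj, nrm_e, one_mul]
  have nz1 : L - ξ - δ ≤ ‖z 1‖ := by
    rw [z1, norm_exp_mul]
    refine le_trans ?_ (Complex.re_le_norm _)
    simp only [Complex.sub_re, Complex.ofReal_re]
    linarith only [wa1]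
  have nzn : ξ - δ ≤ ‖z n‖ := by
    rw [zn, eneg, norm_exp_mul]
    refine le_trans ?_ (Complex.re_le_norm _)
    linarith only [wa0]
  -- l0 ≥ 2
  have hl02 : 2 ≤ l0 := by
    by_contra hcon
    have : l0 = 1 := by omega
    rw [this] at hz0
    linarith only [M6, hδ, hδM, hz0, nz1]
  have near2 : ∀ w : ℂ, ‖w‖ < 2 * M → ¬ h2 < ip (exp (δ1 * I)) w := by
    intro w hw h
    have := ipl δ1 w
    linarith only [M4, hw, h, this]
  have near3 : ∀ w : ℂ, ‖w‖ < 2 * M → ¬ h3 < ip (exp (δ2 * I)) w := by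
    intro w hw h
    have := ipl δ2 w
    linarith only [M5, hw, h, this]
  have h3v0 : 3 ∈ A (Fin.ofNat n (l0 - 1)) := by
    by_contra hcon
    have := (far3 (l0 - 1) (by omega) (by omega) hcon).2
    rw [show l0 - 1 + 1 = l0 by omega] at this
    exact near3 _ (by linarith only [hδ, hδM, hz0]) this
  have hex3 : ∃ k : ℕ, 0 < k ∧ k < n ∧ 3 ∈ A (Fin.ofNat n k) :=
    ⟨l0 - 1, by omega, by omega, h3v0⟩
  classical
  obtain ⟨k, hkF, hkl⟩ : ∃ k : ℕ, Fs A k ∧ k < l0 := by
    refine ⟨Nat.find hex3, ⟨(Nat.find_spec hex3).1, (Nat.find_spec hex3).2.1,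
      (Nat.find_spec hex3).2.2, fun l hl1 hl2 hc' => ?_⟩, ?_⟩
    · exact Nat.find_min hex3 hl2 ⟨hl1, hl2.trans (Nat.find_spec hex3).2.1, hc'⟩
    · have := Nat.find_min' hex3 ⟨by omega, by omega, h3v0⟩
      omega
  -- the last visit of 2
  have hz1' : ‖z (l0 + 1)‖ < 2 * M := by
    have h1 := v2 l0 (by omega) hl0n
    have h2' : ‖z (l0 + 1)‖ ≤ ‖z l0‖ + ‖z l0 - z (l0 + 1)‖ := by
      have := norm_sub_norm_le (z (l0 + 1)) (z l0)
      rw [norm_sub_rev] at this
      linarith only [this]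
    linarith only [hδM, hz0, h1, h2']
  have hl0' : l0 + 1 < n := by
    by_contra hcon
    have : l0 + 1 = n := by omega
    rw [this] at hz1'
    linarith only [M7, hδ, hδM, nzn, hz1']
  have h2v0 : 2 ∈ A (Fin.ofNat n (l0 + 1)) := by
    by_contra hcon
    exact near2 _ hz1' (far2 (l0 + 1) (by omega) hl0' hcon).1
  obtain ⟨m, hmL, hml⟩ : ∃ m : ℕ, Ls A m ∧ l0 < m := by
    have hne : ((Finset.range n).filter (fun l => 2 ∈ A (Fin.ofNat n l))).Nonempty :=
      ⟨l0 + 1, Finset.mem_filter.2 ⟨Finset.mem_range.2 hl0', h2v0⟩⟩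
    have hmem := Finset.max'_mem _ hne
    have hmax := Finset.le_max' ((Finset.range n).filter (fun l => 2 ∈ A (Fin.ofNat n l)))
    set m := Finset.max' _ hne
    have h1 : m < n := Finset.mem_range.1 (Finset.mem_filter.1 hmem).1
    have h2' : 2 ∈ A (Fin.ofNat n m) := (Finset.mem_filter.1 hmem).2
    have h3' : l0 + 1 ≤ m :=
      hmax (l0 + 1) (Finset.mem_filter.2 ⟨Finset.mem_range.2 hl0', h2v0⟩)
    refine ⟨m, ⟨by omega, h1, h2', fun l hl1 hl2 hc' => ?_⟩, by omega⟩
    have := hmax l (Finset.mem_filter.2 ⟨Finset.mem_range.2 hl2, hc'⟩)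
    omega
  have hLvn : ‖x 0 - x 1‖ ≥ 0 := norm_nonneg _
  -- lengths of chains
  have chain : ∀ i1 i2 : ℕ, 1 < i1 → i1 < i2 → i2 < n →
      ‖z 1 - z i1‖ + ‖z i1 - z i2‖ + ‖z i2 - z n‖ < L + M := by
    intro i1 i2 q1 q2 q3
    have h := v1 3 ![1, i1, i2, n] (by
      intro a b hab
      fin_cases a <;> fin_cases b <;> simp at hab ⊢ <;> omega) (by simp) (by
      simp [Fin.last])
    simp only [Fin.sum_univ_three] at h
    have h' : ‖x 0 - x 1‖ + (‖z 1 - z i1‖ + ‖z i1 - z i2‖ + ‖z i2 - z n‖)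
        ≤ Lv (uE η1 η2 δ1 δ2) (hE δ1 δ2 ρ) x A := h
    linarith only [hLv, hLvn, h']
  have hκe : κ + (κ + M) / c + 6 * M / 2 < ε := by
    have e1 : (κ + M) / c ≤ ε / 8 + ε / 16 := by
      rw [div_le_iff₀ cp]
      have : κ = ε * c / 8 := hκ
      nlinarith only [this, M3]
    have e2 : ε * c / 16 ≤ ε / 16 := by nlinarith only [hε, cl]
    linarith only [hκ, κε, M3, hδ, hδM, e1]
  have hkn : k < n := hkF.2.1
  refine ⟨k, m, hkF, hmL, hkl, hml, ?_, ?_⟩
  · intro l hl1 hl2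
    rcases eq_or_lt_of_le (show 1 ≤ l from hl1) with h | h
    · refine ⟨L - ξ, by linarith only [hξe, hξ2], by linarith only [M7, hδ, hδM], ?_⟩
      rw [← h, z1]
      have e : exp (γ * I) * (L - w1) - exp (γ * I) * ((L - ξ : ℝ) : ℂ)
          = exp (γ * I) * (ξ - w1) := by push_cast; ring
      rw [e, norm_exp_mul]
      have h1 := Complex.norm_le_abs_re_add_abs_im ((ξ : ℂ) - w1)
      simp only [Complex.sub_re, Complex.sub_im, Complex.ofReal_re, Complex.ofReal_im,
        zero_sub, abs_neg] at h1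
      have h2' : |ξ - w1.re| < δ := by rw [abs_lt]; constructor <;> linarith only [wa1]
      have h3' : |w1.im| < ζ := by rw [abs_lt]; constructor <;> linarith only [wb1, wc1]
      have e2 : ε * c / 16 ≤ ε / 16 := by nlinarith only [hε, cl]
      linarith only [hκ, κε, M3, hδ, hδM, hζM, h1, h2', h3']
    · -- far side of line 3
      have hfar : h3 < ip (exp (δ2 * I)) (z l) := by
        have h1 := (far3 (l - 1) (by omega) (by omega)
          (hkF.2.2.2 (l - 1) (by omega) (by omega))).2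
        rwa [show l - 1 + 1 = l by omega] at h1
      have hc1 := chain l l0 h (by omega) hl0n
      set v : ℂ := exp (-(γ * I)) * z l with hv
      have hzl : z l = exp (γ * I) * v := by
        rw [hv, ← mul_assoc, ← Complex.exp_add]
        simp
      have e1 : ‖v‖ = ‖z l‖ := by rw [hzl, norm_exp_mul]
      have e2 : ‖((L - ξ : ℝ) : ℂ) - v‖ ≤ ‖z 1 - z l‖ + (δ + ζ) := by
        have h1 : z 1 - z l = exp (γ * I) * ((L - w1) - v) := by rw [z1, hzl]; ring
        rw [h1, norm_exp_mul]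
        have h2' : ((L - ξ : ℝ) : ℂ) - v = ((L - w1) - v) + (w1 - ξ) := by push_cast; ring
        rw [h2']
        refine (norm_add_le _ _).trans ?_
        have h3' := Complex.norm_le_abs_re_add_abs_im (w1 - (ξ : ℂ))
        simp only [Complex.sub_re, Complex.sub_im, Complex.ofReal_re, Complex.ofReal_im,
          sub_zero] at h3'
        have h4' : |w1.re - ξ| < δ := by rw [abs_lt]; constructor <;> linarith only [wa1]
        have h5' : |w1.im| < ζ := by rw [abs_lt]; constructor <;> linarith only [wb1, wc1]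
        linarith only [h3', h4', h5']
      have e3 : ‖z l‖ ≤ ‖z l - z l0‖ + ‖z l0‖ := by
        have := norm_sub_norm_le (z l) (z l0)
        linarith only [this]
      have e4 : ξ - δ ≤ ‖z l0 - z n‖ + ‖z l0‖ := by
        have := norm_sub_norm_le (z n) (z l0)
        rw [norm_sub_rev] at this
        linarith only [nzn, this]
      have e5 : ‖v‖ + ‖((L - ξ : ℝ) : ℂ) - v‖ < (L - ξ) + 6 * M := by
        rw [e1]
        linarith only [hδM, hζM, hz0, hc1, e2, e3, e4]
      obtain ⟨g1, g2, g3⟩ := ell hLξ.le (by positivity) κp.le e5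
        (by nlinarith only [hsq, Mp, hξp])
      have g4 : c3 * a3 - κ ≤ c3 * v.re := by
        rw [hzl, ip_exp, t3, t4, h3v] at hfar
        have : Real.cos δ1 * v.im ≤ κ := by
          have h1 : v.im ≤ κ := (le_abs_self _).trans g1
          nlinarith only [h1, k1, k1l, κp]
        linarith only [hfar, this]
      obtain ⟨s, s1, s2, s3⟩ := seg (L := L) (by linarith only [hξe, hξ2, M7, hδ, hδM]) c3p κp.le (by linarith only [M7, hδ, hδM])
        (by positivity : (0 : ℝ) ≤ 6 * M) g1 g3 g4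
      refine ⟨s, s1, s2, ?_⟩
      have h1 : z l - exp (γ * I) * s = exp (γ * I) * (v - s) := by rw [hzl]; ring
      rw [h1, norm_exp_mul]
      have h2' : κ / c3 ≤ (κ + M) / c := by
        apply div_le_div₀ (by positivity) (by linarith only [hδ, hδM]) cp cl3
      linarith only [hκe, s3, h2']
  · intro l hl1 hl2
    have hfar : h2 - M ≤ ip (exp (δ1 * I)) (z l) := by
      rcases eq_or_lt_of_le hl1 with h | h
      · -- l = m
        rw [← h]
        have hd := v2 m (by omega) hmL.2.1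
        have hnext : h2 ≤ ip (exp (δ1 * I)) (z (m + 1)) := by
          rcases lt_or_ge (m + 1) n with h' | h'
          · exact (far2 (m + 1) (by omega) h' (hmL.2.2.2 (m + 1) (by omega) h')).1.le
          · have : m + 1 = n := by have := hmL.2.1; omega
            rw [this, zn, eneg, ip_exp, t1, t2, h2v]
            have h1 : Real.cos δ2 * w0.im ≤ M := by
              nlinarith only [wc0, hζM, k2, k2l, Mp]
            have h9 : 0 ≤ c2 * (w0.re - (ξ - δ)) := mul_nonneg c2p.le (by linarith only [wa0])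
            nlinarith only [h1, h9, M8, c2p, c2l, hδM, hδ, Mp]
        have h1 : ip (exp (δ1 * I)) (z (m + 1)) - ip (exp (δ1 * I)) (z m)
            ≤ ‖z m - z (m + 1)‖ := by
          have := ipl δ1 (z (m + 1) - z m)
          rw [norm_sub_rev] at this
          have e : ip (exp (δ1 * I)) (z (m + 1) - z m)
              = ip (exp (δ1 * I)) (z (m + 1)) - ip (exp (δ1 * I)) (z m) := by
            unfold ip
            simp only [Complex.sub_re, Complex.sub_im]
            ring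
          rwa [e] at this
        linarith only [hδM, hd, hnext, h1]
      · have h1 := (far2 l (by omega) hl2 (hmL.2.2.2 l h hl2)).1
        linarith only [hδ, hδM, h1]
    have hc1 := chain l0 l (by omega) (by omega) hl2
    set v : ℂ := exp (γ * I) * z l with hv
    have hzl : z l = exp (-(γ * I)) * v := by
      rw [hv, ← mul_assoc, ← Complex.exp_add]
      simp
    have e1 : ‖v‖ = ‖z l‖ := by rw [hv, norm_exp_mul]
    have e2 : ‖(ξ : ℂ) - v‖ ≤ ‖z l - z n‖ + (δ + ζ) := by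
      have h1 : z n - z l = exp (-(γ * I)) * (w0 - v) := by rw [zn, hzl]; ring
      rw [norm_sub_rev, norm_sub_rev (z l), h1, eneg, norm_exp_mul]
      have h2' : v - ξ = -(w0 - v) + (w0 - ξ) := by ring
      rw [h2']
      refine (norm_add_le _ _).trans ?_
      rw [norm_neg]
      have h3' := Complex.norm_le_abs_re_add_abs_im (w0 - (ξ : ℂ))
      simp only [Complex.sub_re, Complex.sub_im, Complex.ofReal_re, Complex.ofReal_im,
        sub_zero] at h3'
      have h4' : |w0.re - ξ| < δ := by rw [abs_lt]; constructor <;> linarith only [wa0]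
      have h5' : |w0.im| < ζ := by rw [abs_lt]; constructor <;> linarith only [wb0, wc0]
      linarith only [h3', h4', h5']
    have e3 : ‖z l‖ ≤ ‖z l0 - z l‖ + ‖z l0‖ := by
      have := norm_sub_norm_le (z l) (z l0)
      rw [norm_sub_rev] at this
      linarith only [this]
    have e4 : L - ξ - δ ≤ ‖z 1 - z l0‖ + ‖z l0‖ := by
      have := norm_sub_norm_le (z 1) (z l0)
      linarith only [nz1, this]
    have e5 : ‖v‖ + ‖(ξ : ℂ) - v‖ < ξ + 6 * M := by
      rw [e1]
      linarith only [hδM, hζM, hz0, hc1, e2, e3, e4]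
    obtain ⟨g1, g2, g3⟩ := ell hξp.le (by positivity) κp.le e5
      (by nlinarith only [hsq, Mp, hLξ])
    have g4 : c2 * a2 - (κ + M) ≤ c2 * v.re := by
      rw [hzl, eneg, ip_exp, t1, t2, h2v] at hfar
      have : -(Real.cos δ2 * v.im) ≤ κ := by
        have h1 : -v.im ≤ κ := (neg_le_abs _).trans g1
        nlinarith only [h1, k2, k2l, κp]
      linarith only [hfar, this]
    obtain ⟨s, s1, s2, s3⟩ := seg (L := L) (by linarith only [hξ2, M6, hδ, hδM]) c2p (by positivity) (by linarith only [M6, hδ, hδM])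
      (by positivity : (0 : ℝ) ≤ 6 * M) g1 g3 g4
    refine ⟨s, s1, s2, ?_⟩
    have h1 : z l - exp (-(γ * I)) * s = exp (-(γ * I)) * (v - s) := by rw [hzl]; ring
    rw [h1, eneg, norm_exp_mul]
    have h2' : (κ + M) / c2 ≤ (κ + M) / c := by
      apply div_le_div₀ (by positivity) le_rfl cp cl2
    linarith only [hκe, s3, h2']

end Pool.Agent.XQ.K4.H36
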