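import Pool.Agent.Helper36_XQ.Rcr

/-!
Squad XQ (MP_5b0138_an), part E4, module REF4: the two reflections, assembly (helper36).
-/

set_option autoImplicit false

namespace Pool.Agent.XQ.K4.H36

open MeasureTheory Complex Filter Topology ProbabilityTheory Pool.Agent.H16Iso Pool.Agent.H62T
  Pool.Agent.H16F Pool.Agent.H38KL Pool.Agent.AEU Pool.Agent.XQ.K4
open scoped ENNReal NNReal

theorem Mg_add_le {n : ℕ} (w : (Fin n → Finset (Fin 4)) → (Fin n → ℂ) → ℝ≥0∞)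
    (hw : ∀ A, Measurable (w A))
    {S S1 S2 : (Fin n → ℂ) → (Fin n → Finset (Fin 4)) → Prop}
    (hS1 : ∀ A, MeasurableSet {x | S1 x A})
    (h1 : ∀ x A, S1 x A → S x A) (h2 : ∀ x A, S2 x A → S x A)
    (h3 : ∀ x A, S1 x A → ¬ S2 x A) :
    Mg w S1 + Mg w S2 ≤ Mg w S := by
  classical
  unfold Mg
  rw [← Finset.sum_add_distrib]
  refine Finset.sum_le_sum fun A _ => ?_
  rw [← lintegral_add_left]
  · refine lintegral_mono fun x => ?_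
    show (if S1 x A then w A x else 0) + (if S2 x A then w A x else 0)
      ≤ if S x A then w A x else 0
    by_cases c1 : S1 x A
    · rw [if_pos c1, if_neg (h3 x A c1), if_pos (h1 x A c1), add_zero]
    · rw [if_neg c1, zero_add]
      by_cases c2 : S2 x A
      · rw [if_pos c2, if_pos (h2 x A c2)]
      · rw [if_neg c2]
        exact zero_le
  · exact Measurable.ite (hS1 A) (hw A) measurable_const

theorem abs_le_of {A B e : ℝ≥0∞} (hA : A ≠ ⊤) (hB : B ≠ ⊤) (h1 : A ≤ B + e) (h2 : B ≤ A + e) :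
    ENNReal.ofReal |A.toReal - B.toReal| ≤ e := by
  by_cases he : e = ⊤
  · rw [he]
    exact le_top
  · have a1 : A.toReal ≤ B.toReal + e.toReal := by
      rw [← ENNReal.toReal_add hB he]
      exact ENNReal.toReal_mono (ENNReal.add_ne_top.2 ⟨hB, he⟩) h1
    have a2 : B.toReal ≤ A.toReal + e.toReal := by
      rw [← ENNReal.toReal_add hA he]
      exact ENNReal.toReal_mono (ENNReal.add_ne_top.2 ⟨hA, he⟩) h2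
    refine ENNReal.ofReal_le_of_le_toReal ?_
    rw [abs_le]
    constructor <;> linarith

theorem chi_in {C : Set ℂ} {x : ℂ} (h : x ∈ C) : chi C x = 1 := by
  unfold chi
  rw [Set.indicator_of_mem h]

theorem chi_out {C : Set ℂ} {x : ℂ} (h : x ∉ C) : chi C x = 0 := by
  unfold chi
  rw [Set.indicator_of_notMem h]

theorem ref4 (rcr : RcrStatement) (tcm : TcmStatement) (tgm : TgmStatement) : Ref4Statement := by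
  classical
  intro u h n inst τ O E C W R hu hn hτ hOn hO hE hOE hC hW hWR hWi hfin
  obtain ⟨f1, f2, e1⟩ := tcm u h n τ O E C hu (by omega) hτ hC hfin
  have hpos : 0 < τ 0 := hτ 0
  have hlt : τ 0 < ∑ j, τ j := by
    have h01 : (0 : Fin n) ≠ ⟨1, by omega⟩ := by
      intro hc
      have := congrArg Fin.val hc
      simp at this
    have h2 : τ 0 + τ ⟨1, by omega⟩ ≤ ∑ j, τ j := by
      have := Finset.sum_le_sum_of_subset_of_nonneg (f := τ)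
        (Finset.subset_univ ({0, ⟨1, by omega⟩} : Finset (Fin n))) (fun i _ _ => (hτ i).le)
      rwa [Finset.sum_pair h01] at this
    linarith [hτ ⟨1, by omega⟩]
  obtain ⟨g1, g2, e2⟩ := tgm u h O E C W R (τ 0) (∑ j, τ j) hu hpos hlt hC hW hWR
  have mW1 : MeasurableSet {p : ℂ × ℂ | p.1 ∈ W} := hW.preimage measurable_fst
  have mW2 : MeasurableSet {p : ℂ × ℂ | p.2 ∈ W} := hW.preimage measurable_snd
  have mC1 : MeasurableSet {p : ℂ × ℂ | p.1 ∈ C} := hC.preimage measurable_fst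
  have mC2 : MeasurableSet {p : ℂ × ℂ | p.2 ∈ C} := hC.preimage measurable_snd
  have mWW : MeasurableSet {p : ℂ × ℂ | p.1 ∈ W ∧ p.2 ∈ W} := mW1.inter mW2
  have mU : MeasurableSet {p : ℂ × ℂ | p.1 ∉ C ∧ p.2 ∈ C} := mC1.compl.inter mC2
  have mD : MeasurableSet {p : ℂ × ℂ | p.1 ∈ C ∧ p.2 ∉ C} := mC1.inter mC2.compl
  have mSu : MeasurableSet {p : ℂ × ℂ | (p.1 ∈ W ∧ p.2 ∈ W) ∧ p.1 ∉ C ∧ p.2 ∈ C} := mWW.inter mU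
  have mSd : MeasurableSet {p : ℂ × ℂ | (p.1 ∈ W ∧ p.2 ∈ W) ∧ p.1 ∈ C ∧ p.2 ∉ C} := mWW.inter mD
  have mRu : MeasurableSet {p : ℂ × ℂ | (p.1 ∉ C ∧ p.2 ∈ C) ∧ ¬ (p.1 ∈ W ∧ p.2 ∈ W)} :=
    mU.inter mWW.compl
  obtain ⟨i1, i2⟩ := rcr u h n τ O E (fun x y => (x ∈ W ∧ y ∈ W) ∧ x ∉ C ∧ y ∈ C) hu hn hτ hOn hO hE
    mSu (fun x y hxy => ⟨hWi x hxy.1.1, hWi y hxy.1.2⟩)
  obtain ⟨i3, i4⟩ := rcr u h n τ O E (fun x y => (x ∈ W ∧ y ∈ W) ∧ x ∈ C ∧ y ∉ C) hu hn hτ hOn hO hE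
    mSd (fun x y hxy => ⟨hWi x hxy.1.1, hWi y hxy.1.2⟩)
  set T : (Fin n → Finset (Fin 4)) → Prop := fun A => F4 O A ∧ ∀ j, Disjoint (A j) E with hT
  have wm : ∀ A : Fin n → Finset (Fin 4), Measurable fun x => ENNReal.ofReal (wt u h τ x A) :=
    fun A => (wt_meas u h τ A).ennreal_ofReal
  -- split according to the window
  have k1 : Ms u h τ (fun x A => T A ∧ x 0 ∉ C ∧ x 1 ∈ C)
      ≤ Ms u h τ (fun x A => T A ∧ (x 0 ∈ W ∧ x 1 ∈ W) ∧ x 0 ∉ C ∧ x 1 ∈ C)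
        + Ms u h τ (fun x A => T A ∧ (x 0 ∉ C ∧ x 1 ∈ C) ∧ ¬ (x 0 ∈ W ∧ x 1 ∈ W)) := by
    rw [Ms_eq, Ms_eq, Ms_eq]
    refine Mg_le_add _ wm (fun A => meas_PS T (fun x y => (x ∈ W ∧ y ∈ W) ∧ x ∉ C ∧ y ∈ C) mSu A)
      fun x A hx => ?_
    by_cases c : x 0 ∈ W ∧ x 1 ∈ W
    · exact Or.inl ⟨hx.1, c, hx.2⟩
    · exact Or.inr ⟨hx.1, hx.2, c⟩
  have k2 : Ms u h τ (fun x A => T A ∧ x 0 ∈ C ∧ x 1 ∉ C)
      ≤ Ms u h τ (fun x A => T A ∧ (x 0 ∈ W ∧ x 1 ∈ W) ∧ x 0 ∈ C ∧ x 1 ∉ C)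
        + Ms u h τ (fun x A => T A ∧ (x 0 ∈ C ∧ x 1 ∉ C) ∧ ¬ (x 0 ∈ W ∧ x 1 ∈ W)) := by
    rw [Ms_eq, Ms_eq, Ms_eq]
    refine Mg_le_add _ wm (fun A => meas_PS T (fun x y => (x ∈ W ∧ y ∈ W) ∧ x ∈ C ∧ y ∉ C) mSd A)
      fun x A hx => ?_
    by_cases c : x 0 ∈ W ∧ x 1 ∈ W
    · exact Or.inl ⟨hx.1, c, hx.2⟩
    · exact Or.inr ⟨hx.1, hx.2, c⟩
  have k3 : Ms u h τ (fun x A => T A ∧ (x 0 ∈ W ∧ x 1 ∈ W) ∧ x 0 ∉ C ∧ x 1 ∈ C)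
      ≤ Ms u h τ (fun x A => T A ∧ x 0 ∉ C ∧ x 1 ∈ C) := by
    rw [Ms_eq, Ms_eq]
    exact Mg_mono _ fun x A hx => ⟨hx.1, hx.2.2⟩
  have k4 : Ms u h τ (fun x A => T A ∧ (x 0 ∈ W ∧ x 1 ∈ W) ∧ x 0 ∈ C ∧ x 1 ∉ C)
      ≤ Ms u h τ (fun x A => T A ∧ x 0 ∈ C ∧ x 1 ∉ C) := by
    rw [Ms_eq, Ms_eq]
    exact Mg_mono _ fun x A hx => ⟨hx.1, hx.2.2⟩
  -- error terms
  have r1 : Ms u h τ (fun x A => T A ∧ (x 0 ∉ C ∧ x 1 ∈ C) ∧ ¬ (x 0 ∈ W ∧ x 1 ∈ W))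
      + Ms u h τ (fun x A => T A ∧ (x 0 ∈ C ∧ x 1 ∉ C) ∧ ¬ (x 0 ∈ W ∧ x 1 ∈ W))
      ≤ Ms u h τ (fun x A => F4 O A ∧ (∀ j, Disjoint (A j) E) ∧ chi C (x 0) ≠ chi C (x 1) ∧
          ¬ (x 0 ∈ W ∧ x 1 ∈ W)) := by
    rw [Ms_eq, Ms_eq, Ms_eq]
    refine Mg_add_le _ wm (fun A => meas_PS T
      (fun x y => (x ∉ C ∧ y ∈ C) ∧ ¬ (x ∈ W ∧ y ∈ W)) mRu A) ?_ ?_ ?_
    · rintro x A ⟨⟨t1, t2⟩, ⟨c1, c2⟩, c3⟩
      refine ⟨t1, t2, ?_, c3⟩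
      rw [chi_out c1, chi_in c2]
      norm_num
    · rintro x A ⟨⟨t1, t2⟩, ⟨c1, c2⟩, c3⟩
      refine ⟨t1, t2, ?_, c3⟩
      rw [chi_in c1, chi_out c2]
      norm_num
    · rintro x A ⟨-, ⟨c1, -⟩, -⟩ ⟨-, ⟨c2, -⟩, -⟩
      exact c1 c2
  have r2 : Ms u h τ (fun x A => B1 O E A ∧ (x 0 ∈ W ∧ x 1 ∈ W) ∧ x 0 ∉ C ∧ x 1 ∈ C)
      + Ms u h τ (fun x A => B1 O E A ∧ (x 0 ∈ W ∧ x 1 ∈ W) ∧ x 0 ∈ C ∧ x 1 ∉ C)
      ≤ Ms u h τ (fun x A => B1 O E A ∧ x 0 ∈ W ∧ x 1 ∈ W) := by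
    rw [Ms_eq, Ms_eq, Ms_eq]
    refine Mg_add_le _ wm (fun A => meas_PS (B1 O E)
      (fun x y => (x ∈ W ∧ y ∈ W) ∧ x ∉ C ∧ y ∈ C) mSu A) (fun x A hx => ⟨hx.1, hx.2.1⟩)
      (fun x A hx => ⟨hx.1, hx.2.1⟩) ?_
    rintro x A ⟨-, -, c1, -⟩ ⟨-, -, c2, -⟩
    exact c1 c2
  have r3 : Mvr u h τ (fun x A => B2 O E A ∧ (x 0 ∈ W ∧ x 1 ∈ W) ∧ x 0 ∉ C ∧ x 1 ∈ C)
      + Mvr u h τ (fun x A => B2 O E A ∧ (x 0 ∈ W ∧ x 1 ∈ W) ∧ x 0 ∈ C ∧ x 1 ∉ C)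
      ≤ Mvr u h τ (fun x A => B2 O E A ∧ x 0 ∈ W ∧ x 1 ∈ W) := by
    rw [Mvr_eq, Mvr_eq, Mvr_eq]
    refine Mg_add_le _ (wv_meas u h τ) (fun A => meas_PS (B2 O E)
      (fun x y => (x ∈ W ∧ y ∈ W) ∧ x ∉ C ∧ y ∈ C) mSu A) (fun x A hx => ⟨hx.1, hx.2.1⟩)
      (fun x A hx => ⟨hx.1, hx.2.1⟩) ?_
    rintro x A ⟨-, -, c1, -⟩ ⟨-, -, c2, -⟩
    exact c1 c2
  set Ru := Ms u h τ (fun x A => T A ∧ (x 0 ∉ C ∧ x 1 ∈ C) ∧ ¬ (x 0 ∈ W ∧ x 1 ∈ W))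
  set Rd := Ms u h τ (fun x A => T A ∧ (x 0 ∈ C ∧ x 1 ∉ C) ∧ ¬ (x 0 ∈ W ∧ x 1 ∈ W))
  set B1u := Ms u h τ (fun x A => B1 O E A ∧ (x 0 ∈ W ∧ x 1 ∈ W) ∧ x 0 ∉ C ∧ x 1 ∈ C)
  set B1d := Ms u h τ (fun x A => B1 O E A ∧ (x 0 ∈ W ∧ x 1 ∈ W) ∧ x 0 ∈ C ∧ x 1 ∉ C)
  set B2u := Mvr u h τ (fun x A => B2 O E A ∧ (x 0 ∈ W ∧ x 1 ∈ W) ∧ x 0 ∉ C ∧ x 1 ∈ C)
  set B2d := Mvr u h τ (fun x A => B2 O E A ∧ (x 0 ∈ W ∧ x 1 ∈ W) ∧ x 0 ∈ C ∧ x 1 ∉ C)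
  set Uu := Ms u h τ (fun x A => T A ∧ x 0 ∉ C ∧ x 1 ∈ C) with hUu
  set Ud := Ms u h τ (fun x A => T A ∧ x 0 ∈ C ∧ x 1 ∉ C) with hUd
  set Au := Ms u h τ (fun x A => T A ∧ (x 0 ∈ W ∧ x 1 ∈ W) ∧ x 0 ∉ C ∧ x 1 ∈ C)
  set Ad := Ms u h τ (fun x A => T A ∧ (x 0 ∈ W ∧ x 1 ∈ W) ∧ x 0 ∈ C ∧ x 1 ∉ C)
  set Ku := LKr u h O E (τ 0) (∑ j, τ j) (fun x y => (x ∈ W ∧ y ∈ W) ∧ x ∉ C ∧ y ∈ C)
  set Kd := LKr u h O E (τ 0) (∑ j, τ j) (fun x y => (x ∈ W ∧ y ∈ W) ∧ x ∈ C ∧ y ∉ C)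
  have m1 : ENNReal.ofReal |Uu.toReal - Ku.toReal| ≤ Ru + B1u + B2u := by
    refine abs_le_of f1 g1 ?_ ?_
    · calc Uu ≤ Au + Ru := k1
        _ ≤ (Ku + B2u) + Ru := add_le_add i1 le_rfl
        _ ≤ Ku + (Ru + B1u + B2u) := by
          have : (Ku + B2u) + Ru + B1u = Ku + (Ru + B1u + B2u) := by ring
          rw [← this]
          exact le_self_add
    · calc Ku ≤ Au + B1u + B2u := i2
        _ ≤ Uu + B1u + B2u := add_le_add (add_le_add k3 le_rfl) le_rfl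
        _ ≤ Uu + (Ru + B1u + B2u) := by
          have : Uu + B1u + B2u + Ru = Uu + (Ru + B1u + B2u) := by ring
          rw [← this]
          exact le_self_add
  have m2 : ENNReal.ofReal |Ud.toReal - Kd.toReal| ≤ Rd + B1d + B2d := by
    refine abs_le_of f2 g2 ?_ ?_
    · calc Ud ≤ Ad + Rd := k2
        _ ≤ (Kd + B2d) + Rd := add_le_add i3 le_rfl
        _ ≤ Kd + (Rd + B1d + B2d) := by
          have : (Kd + B2d) + Rd + B1d = Kd + (Rd + B1d + B2d) := by ring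
          rw [← this]
          exact le_self_add
    · calc Kd ≤ Ad + B1d + B2d := i4
        _ ≤ Ud + B1d + B2d := add_le_add (add_le_add k4 le_rfl) le_rfl
        _ ≤ Ud + (Rd + B1d + B2d) := by
          have : Ud + B1d + B2d + Rd = Ud + (Rd + B1d + B2d) := by ring
          rw [← this]
          exact le_self_add
  have m3 : |TC4 u h τ O E C - TTG u h O E C W (τ 0) (∑ j, τ j)|
      ≤ |Uu.toReal - Ku.toReal| + |Ud.toReal - Kd.toReal| := by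
    rw [e1, e2]
    have : Uu.toReal - Ud.toReal - (Ku.toReal - Kd.toReal)
        = (Uu.toReal - Ku.toReal) + -(Ud.toReal - Kd.toReal) := by ring
    rw [this]
    refine (abs_add_le _ _).trans ?_
    rw [abs_neg]
  calc ENNReal.ofReal |TC4 u h τ O E C - TTG u h O E C W (τ 0) (∑ j, τ j)|
      ≤ ENNReal.ofReal (|Uu.toReal - Ku.toReal| + |Ud.toReal - Kd.toReal|) :=
        ENNReal.ofReal_le_ofReal m3
    _ = ENNReal.ofReal |Uu.toReal - Ku.toReal| + ENNReal.ofReal |Ud.toReal - Kd.toReal| :=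
        ENNReal.ofReal_add (abs_nonneg _) (abs_nonneg _)
    _ ≤ (Ru + B1u + B2u) + (Rd + B1d + B2d) := add_le_add m1 m2
    _ = (Ru + Rd) + (B1u + B1d) + (B2u + B2d) := by ring
    _ ≤ _ := add_le_add (add_le_add r1 r2) r3

end Pool.Agent.XQ.K4.H36
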