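import Pool.Agent.Helper36_XQ.Stmt5

/-!
Squad XQ (MP_5b0138_an), part E4, module TEL: telescoping (helper36).
-/

set_option autoImplicit false

namespace Pool.Agent.XQ.K4.H36

open MeasureTheory Complex Filter Topology ProbabilityTheory Pool.Agent.H16Iso Pool.Agent.H62T
  Pool.Agent.H16F Pool.Agent.H38KL Pool.Agent.AEU Pool.Agent.XQ.K4
open scoped ENNReal NNReal

section

variable {n : ℕ} [NeZero n]

theorem on_add (l i : ℕ) : Fin.ofNat n l + Fin.ofNat n i = Fin.ofNat n (l + i) := by
  apply Fin.ext
  rw [Fin.val_add]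
  show (l % n + i % n) % n = (l + i) % n
  rw [← Nat.add_mod]

theorem on_per (l : ℕ) : Fin.ofNat n (l + n) = Fin.ofNat n l := by
  apply Fin.ext
  show (l + n) % n = l % n
  exact Nat.add_mod_right l n

theorem on_val (i : Fin n) : Fin.ofNat n i.val = i := by
  apply Fin.ext
  show i.val % n = i.val
  exact Nat.mod_eq_of_lt i.isLt

/-- `F4` with natural indices -/
theorem F4_nat (O : Finset (Fin 4)) (B : Fin n → Finset (Fin 4)) (i : ℕ) :
    F4 O (rot (Fin.ofNat n i) B) ↔ ∃ a b : ℕ, i < a ∧ a < b ∧ b < i + n ∧
      3 ∈ B (Fin.ofNat n a) ∧ 2 ∈ B (Fin.ofNat n b) ∧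
      ∀ s ∈ O, ∃ l : ℕ, a < l ∧ l < b ∧ s ∈ B (Fin.ofNat n l) := by
  unfold F4 rot
  constructor
  · rintro ⟨a, b, h0, h1, h2, h3, h4, h5⟩
    rw [on_add] at h3 h4
    refine ⟨a + i, b + i, by omega, by omega, by omega, h3, h4, fun s hs => ?_⟩
    obtain ⟨l, l1, l2, l3⟩ := h5 s hs
    rw [on_add] at l3
    exact ⟨l + i, by omega, by omega, l3⟩
  · rintro ⟨a, b, h0, h1, h2, h3, h4, h5⟩
    refine ⟨a - i, b - i, by omega, by omega, by omega, ?_, ?_, fun s hs => ?_⟩
    · rw [on_add, Nat.sub_add_cancel h0.le]
      exact h3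
    · rw [on_add, Nat.sub_add_cancel (by omega)]
      exact h4
    · obtain ⟨l, l1, l2, l3⟩ := h5 s hs
      refine ⟨l - i, by omega, by omega, ?_⟩
      rw [on_add, Nat.sub_add_cancel (by omega)]
      exact l3

theorem wrap (B : Fin n → Finset (Fin 4)) {s : Fin 4} {l : ℕ} (hl : n ≤ l)
    (h : s ∈ B (Fin.ofNat n l)) : s ∈ B (Fin.ofNat n (l - n)) := by
  have : Fin.ofNat n l = Fin.ofNat n (l - n) := by
    conv_lhs => rw [← Nat.sub_add_cancel hl]
    exact on_per _
  rwa [this] at h

end

theorem tel : TelStatement := by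
  classical
  intro n _ O C x A hOn hO hAda
  obtain ⟨o, ho⟩ := hOn
  have ho' : o = 0 ∨ o = 1 := by
    have := hO ho
    simpa using this
  constructor
  · rintro ⟨j0, a, b, hab, hbn, ⟨⟨l0, hl0, h3l0⟩, hG3⟩, ⟨hGO1, hGO2⟩, ⟨m0, hm0, hm0n, h2m0⟩, hG2⟩
    set B : Fin n → Finset (Fin 4) := rot j0 A with hB
    -- labels and positions
    have p3 : ∀ l : ℕ, l < n → 3 ∈ B (Fin.ofNat n l) → l < a := by
      intro l hl h
      by_contra hc
      push Not at hc
      rcases lt_or_ge l b with h1 | h1
      · have := hGO2 l hc h1 h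
        simp at this
      · have := hG2 l h1 hl h
        simp at this
    have p2 : ∀ l : ℕ, l < n → 2 ∈ B (Fin.ofNat n l) → b ≤ l := by
      intro l hl h
      by_contra hc
      push Not at hc
      rcases lt_or_ge l a with h1 | h1
      · have := hG3 l h1 h
        simp at this
      · have := hGO2 l h1 hc h
        simp at this
    have pO : ∀ s ∈ O, ∀ l : ℕ, l < n → s ∈ B (Fin.ofNat n l) → a ≤ l ∧ l < b := by
      intro s hs l hl h
      have hs' : s = 0 ∨ s = 1 := by
        have := hO hs
        simpa using this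
      constructor
      · by_contra hc
        push Not at hc
        have := hG3 l hc h
        rcases hs' with rfl | rfl <;> simp at this
      · by_contra hc
        push Not at hc
        have := hG2 l hc hl h
        rcases hs' with rfl | rfl <;> simp at this
    -- last visit of 3, first visit of 2
    obtain ⟨l3, hl3a, hl3, hl3max⟩ : ∃ l3 : ℕ, l3 < a ∧ 3 ∈ B (Fin.ofNat n l3) ∧
        ∀ l : ℕ, l < a → 3 ∈ B (Fin.ofNat n l) → l ≤ l3 := by
      have hne : ((Finset.range a).filter (fun l => 3 ∈ B (Fin.ofNat n l))).Nonempty :=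
        ⟨l0, Finset.mem_filter.2 ⟨Finset.mem_range.2 hl0, h3l0⟩⟩
      refine ⟨Finset.max' _ hne, ?_, ?_, ?_⟩
      · have := Finset.max'_mem _ hne
        exact Finset.mem_range.1 (Finset.mem_filter.1 this).1
      · have := Finset.max'_mem _ hne
        exact (Finset.mem_filter.1 this).2
      · intro l hl h
        exact Finset.le_max' _ l (Finset.mem_filter.2 ⟨Finset.mem_range.2 hl, h⟩)
    obtain ⟨f2, hf2b, hf2n, hf2, hf2min⟩ : ∃ f2 : ℕ, b ≤ f2 ∧ f2 < n ∧ 2 ∈ B (Fin.ofNat n f2) ∧
        ∀ l : ℕ, l < n → 2 ∈ B (Fin.ofNat n l) → f2 ≤ l := by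
      have hex : ∃ l : ℕ, l < n ∧ 2 ∈ B (Fin.ofNat n l) := ⟨m0, hm0n, h2m0⟩
      refine ⟨Nat.find hex, ?_, (Nat.find_spec hex).1, (Nat.find_spec hex).2, ?_⟩
      · exact p2 _ (Nat.find_spec hex).1 (Nat.find_spec hex).2
      · intro l hl h
        exact Nat.find_min' hex ⟨hl, h⟩
    have hlf : l3 < f2 := by omega
    -- characterisation
    have key : ∀ i : ℕ, i < n → (F4 O (rot (Fin.ofNat n i) B) ↔ i < l3 ∨ f2 < i) := by
      intro i hi
      rw [F4_nat]
      constructor
      · rintro ⟨p, r, h0, h1, h2, h3, h4, h5⟩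
        by_contra hc
        push Not at hc
        obtain ⟨q, q1, q2, q3⟩ := h5 o ho
        have hpn : n ≤ p := by
          by_contra hpn
          push Not at hpn
          have := hl3max p (p3 p hpn h3) h3
          omega
        have h4' := wrap B (by omega : n ≤ r) h4
        have q3' := wrap B (by omega : n ≤ q) q3
        have e2 := pO o ho (q - n) (by omega) q3'
        have e3 := hf2min (r - n) (by omega) h4'
        omega
      · rintro (hc | hc)
        · refine ⟨l3, f2, hc, by omega, by omega, hl3, hf2, fun s hs => ?_⟩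
          obtain ⟨l, l1, l2, l3'⟩ := hGO1 s hs
          exact ⟨l, by omega, by omega, l3'⟩
        · refine ⟨l3 + n, f2 + n, by omega, by omega, by omega, ?_, ?_, fun s hs => ?_⟩
          · rw [on_per]
            exact hl3
          · rw [on_per]
            exact hf2
          · obtain ⟨l, l1, l2, l3'⟩ := hGO1 s hs
            refine ⟨l + n, by omega, by omega, ?_⟩
            rw [on_per]
            exact l3'
    -- the sum
    set g : ℕ → ℝ := fun i => chi C (x (Fin.ofNat n i + j0)) with hg
    have hgn : g n = g 0 := by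
      simp only [hg]
      have := on_per (n := n) 0
      rw [zero_add] at this
      rw [this]
    have e1 : ∑ j, (chi C (x (j + 1)) - chi C (x j)) * (if F4 O (rot j A) then 1 else 0)
        = ∑ i : Fin n, (g (i.val + 1) - g i.val) * (if i.val < l3 ∨ f2 < i.val then 1 else 0) := by
      symm
      refine Fintype.sum_equiv (Equiv.addRight j0) _ _ fun i => ?_
      simp only [Equiv.coe_addRight, hg]
      have h1 : Fin.ofNat n (i.val + 1) + j0 = i + j0 + 1 := by
        rw [← on_add, on_val, add_right_comm]
        rfl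
      have h2 : Fin.ofNat n i.val + j0 = i + j0 := by rw [on_val]
      have h3 : rot (i + j0) A = rot (Fin.ofNat n i.val) B := by
        funext k
        simp only [rot, hB, on_val, add_assoc]
      have h4 : (i.val < l3 ∨ f2 < i.val) ↔ F4 O (rot (i + j0) A) := by
        rw [h3]
        exact (key i.val i.isLt).symm
      rw [h1, h2]
      by_cases hc : i.val < l3 ∨ f2 < i.val
      · rw [if_pos hc, if_pos (h4.1 hc)]
      · rw [if_neg hc, if_neg (fun h => hc (h4.2 h))]
    rw [e1]
    have e2 : ∑ i : Fin n, (g (i.val + 1) - g i.val) * (if i.val < l3 ∨ f2 < i.val then 1 else 0)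
        = ∑ i ∈ Finset.range n, (g (i + 1) - g i) * (if i < l3 ∨ f2 < i then 1 else 0) :=
      Fin.sum_univ_eq_sum_range
        (fun i => (g (i + 1) - g i) * (if i < l3 ∨ f2 < i then (1 : ℝ) else 0)) n
    rw [e2]
    have e3 : ∀ m : ℕ, m ≤ l3 →
        ∑ i ∈ Finset.range m, (g (i + 1) - g i) * (if i < l3 ∨ f2 < i then (1 : ℝ) else 0)
          = g m - g 0 := by
      intro m
      induction m with
      | zero => intro _; simp
      | succ m ih =>
        intro hm
        rw [Finset.sum_range_succ, ih (by omega), if_pos (Or.inl (by omega))]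
        ring
    have e4 : ∀ m : ℕ, l3 + m ≤ f2 + 1 →
        ∑ i ∈ Finset.range (l3 + m), (g (i + 1) - g i) * (if i < l3 ∨ f2 < i then (1 : ℝ) else 0)
          = g l3 - g 0 := by
      intro m
      induction m with
      | zero =>
        intro _
        rw [add_zero]
        exact e3 l3 le_rfl
      | succ m ih =>
        intro hm
        rw [← add_assoc, Finset.sum_range_succ, ih (by omega), if_neg (by omega)]
        ring
    have e5 : ∀ m : ℕ,
        ∑ i ∈ Finset.range (f2 + 1 + m), (g (i + 1) - g i)
          * (if i < l3 ∨ f2 < i then (1 : ℝ) else 0)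
          = g l3 - g 0 + (g (f2 + 1 + m) - g (f2 + 1)) := by
      intro m
      induction m with
      | zero =>
        have := e4 (f2 + 1 - l3) (by omega)
        rw [show l3 + (f2 + 1 - l3) = f2 + 1 by omega] at this
        rw [add_zero, this]
        ring
      | succ m ih =>
        rw [← add_assoc, Finset.sum_range_succ, ih, if_pos (Or.inr (by omega))]
        ring
    have e6 := e5 (n - (f2 + 1))
    rw [show f2 + 1 + (n - (f2 + 1)) = n by omega] at e6
    rw [e6, hgn]
    have h3 : g l3 = 1 := by
      simp only [hg]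
      have := (hAda.2 (Fin.ofNat n l3 + j0) hl3).1
      unfold chi
      rw [Set.indicator_of_mem this]
    have h2 : g (f2 + 1) = 0 := by
      simp only [hg]
      have h := (hAda.1 (Fin.ofNat n f2 + j0) hf2).2
      have e : Fin.ofNat n f2 + j0 + 1 = Fin.ofNat n (f2 + 1) + j0 := by
        rw [← on_add, add_right_comm]
        rfl
      rw [e] at h
      unfold chi
      rw [Set.indicator_of_notMem h]
    rw [h3, h2]
    ring
  · rintro ⟨j0, a, b, hab, hbn, ⟨-, hG2⟩, ⟨-, hGO2⟩, -, hG3⟩ j hF
    set B : Fin n → Finset (Fin 4) := rot j0 A with hB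
    have hj : rot j A = rot (Fin.ofNat n (j - j0).val) B := by
      funext k
      simp only [rot, hB, on_val]
      congr 1
      rw [add_assoc, sub_add_cancel]
    rw [hj, F4_nat] at hF
    obtain ⟨p, r, h0, h1, h2, h3, h4, h5⟩ := hF
    obtain ⟨q, q1, q2, q3⟩ := h5 o ho
    have hi := (j - j0).isLt
    have p3 : ∀ l : ℕ, l < n → 3 ∈ B (Fin.ofNat n l) → b ≤ l := by
      intro l hl h
      by_contra hc
      push Not at hc
      rcases lt_or_ge l a with h1 | h1
      · have := hG2 l h1 h
        simp at this
      · have := hGO2 l h1 hc h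
        simp at this
    have p2 : ∀ l : ℕ, l < n → 2 ∈ B (Fin.ofNat n l) → l < a := by
      intro l hl h
      by_contra hc
      push Not at hc
      rcases lt_or_ge l b with h1 | h1
      · have := hGO2 l hc h1 h
        simp at this
      · have := hG3 l h1 hl h
        simp at this
    have pO : ∀ l : ℕ, l < n → o ∈ B (Fin.ofNat n l) → a ≤ l ∧ l < b := by
      intro l hl h
      constructor
      · by_contra hc
        push Not at hc
        have := hG2 l hc h
        rcases ho' with rfl | rfl <;> simp at this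
      · by_contra hc
        push Not at hc
        have := hG3 l hc hl h
        rcases ho' with rfl | rfl <;> simp at this
    rcases lt_or_ge p n with hp | hp
    · have hb := p3 p hp h3
      have hq : n ≤ q := by
        by_contra hc
        push Not at hc
        have := pO q hc q3
        omega
      have e1 := pO (q - n) (by omega) (wrap B hq q3)
      have e2 := p2 (r - n) (by omega) (wrap B (by omega) h4)
      omega
    · have e1 := p3 (p - n) (by omega) (wrap B hp h3)
      have e2 := pO (q - n) (by omega) (wrap B (by omega) q3)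
      omega

end Pool.Agent.XQ.K4.H36
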