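import Pool.Agent.Helper36_XQ.Blv4
import Pool.Agent.Helper7_AEU.Ldb

/-!
Squad XQ (MP_5b0138_an), part A: Gaussian bound for masses of configurations, four labels (copied
from `Pool.Agent.Helper60_AEU.Ldm`, helper60).
-/

namespace Pool.Agent.XQ.K4

open MeasureTheory Complex Filter Topology ProbabilityTheory Pool.Agent.H16Iso Pool.Agent.H62T
  Pool.Agent.H16F Pool.Agent.H38KL
open scoped ENNReal NNReal

lemma nsq (z : ℂ) : ‖z‖ ^ 2 = z.re ^ 2 + z.im ^ 2 := by
  rw [← Complex.normSq_eq_norm_sq, Complex.normSq_apply]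
  ring

lemma norm_sub_rf {u : Fin 4 → ℂ} {h : Fin 4 → ℝ} {s : Fin 4} (hu : ‖u s‖ = 1) (x y : ℂ) :
    ‖x - rf u h s y‖ ^ 2 = ‖x - y‖ ^ 2 + 4 * (ip (u s) y - h s) * (ip (u s) x - h s) := by
  have h1 : (u s).re ^ 2 + (u s).im ^ 2 = 1 := by
    rw [← nsq, hu]; norm_num
  rw [nsq, nsq]
  unfold rf
  simp only [sub_re, sub_im, mul_re, mul_im, ofReal_re, ofReal_im]
  have h2 : ip (u s) y = (u s).re * y.re + (u s).im * y.im := rfl
  have h3 : ip (u s) x = (u s).re * x.re + (u s).im * x.im := rfl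
  set q := ip (u s) y - h s with hq
  have h4 : ip (u s) x - h s = (u s).re * (x.re - y.re) + (u s).im * (x.im - y.im) + q := by
    rw [hq, h2, h3]; ring
  rw [h4]
  have h5 : (u s).re ^ 2 = 1 - (u s).im ^ 2 := by linarith
  ring_nf
  rw [h5]
  ring

lemma le_dd {u : Fin 4 → ℂ} {h : Fin 4 → ℝ} {s : Fin 4} (hu : ‖u s‖ = 1) (x y : ℂ) :
    ‖x - y‖ ≤ dd u h s x y := by
  unfold dd
  split_ifs with hc
  · have h1 := norm_sub_rf (h := h) hu x y
    have h2 : 0 ≤ 4 * (ip (u s) y - h s) * (ip (u s) x - h s) := by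
      have := mul_nonneg (sub_nonneg.2 hc.1.le) (sub_nonneg.2 hc.2.le)
      nlinarith
    nlinarith [norm_nonneg (x - y), norm_nonneg (x - rf u h s y)]
  · exact le_rfl

lemma le_bl {u : Fin 4 → ℂ} {h : Fin 4 → ℝ} (hu : ∀ s, ‖u s‖ = 1) (A : Finset (Fin 4)) (x y : ℂ) :
    ‖x - y‖ ≤ bl u h A x y := by
  unfold bl
  refine le_trans ?_ (Finset.le_sup' _ (Finset.mem_univ (0 : Fin 4)))
  split_ifs
  · exact le_dd (hu 0) x y
  · exact le_rfl

lemma measurable_rf (u : Fin 4 → ℂ) (h : Fin 4 → ℝ) (s : Fin 4) : Measurable (rf u h s) := by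
  unfold rf ip
  fun_prop

lemma measurable_rf_comp (u : Fin 4 → ℂ) (h : Fin 4 → ℝ) (s : Fin 4) {α : Type*}
    [MeasurableSpace α] {g : α → ℂ} (hg : Measurable g) :
    Measurable (fun a => rf u h s (g a)) := by
  have h3 := (measurable_rf u h s).comp hg
  simpa only [Function.comp_def] using h3

/-! ### reflections as isometries -/

lemma rf_rf {u : Fin 4 → ℂ} {h : Fin 4 → ℝ} {s : Fin 4} (hu : ‖u s‖ = 1) (y : ℂ) :
    rf u h s (rf u h s y) = y := by
  have h1 : (u s).re ^ 2 + (u s).im ^ 2 = 1 := by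
    rw [← nsq, hu]; norm_num
  have h2 : ip (u s) (rf u h s y) - h s = -(ip (u s) y - h s) := by
    unfold rf
    have h3 : ip (u s) y = (u s).re * y.re + (u s).im * y.im := rfl
    set q := ip (u s) y - h s with hq
    unfold ip
    simp only [sub_re, sub_im, mul_re, mul_im, ofReal_re, ofReal_im]
    have h4 : h s = (u s).re * y.re + (u s).im * y.im - q := by rw [hq, h3]; ring
    rw [h4]
    linear_combination (-2 * q) * h1
  have h5 : rf u h s (rf u h s y)
      = rf u h s y - ((2 * (ip (u s) (rf u h s y) - h s) : ℝ) : ℂ) * u s := rfl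
  rw [h5, h2]
  unfold rf
  push_cast
  ring

lemma rf_isometry {u : Fin 4 → ℂ} {h : Fin 4 → ℝ} {s : Fin 4} (hu : ‖u s‖ = 1) :
    Isometry (rf u h s) := by
  refine Isometry.of_dist_eq fun x y => ?_
  rw [dist_eq_norm, dist_eq_norm]
  have h1 : (u s).re ^ 2 + (u s).im ^ 2 = 1 := by
    rw [← nsq, hu]; norm_num
  have h2 : ‖rf u h s x - rf u h s y‖ ^ 2 = ‖x - y‖ ^ 2 := by
    rw [nsq, nsq]
    unfold rf ip
    simp only [sub_re, sub_im, mul_re, mul_im, ofReal_re, ofReal_im]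
    set a := (u s).re
    set b := (u s).im
    have e : b ^ 2 = 1 - a ^ 2 := by linarith
    ring_nf
    have e3 : b ^ 3 = b * (1 - a ^ 2) := by rw [← e]; ring
    have e4 : b ^ 4 = (1 - a ^ 2) ^ 2 := by rw [← e]; ring
    rw [e4, e3, e]
    ring
  exact (pow_left_inj₀ (norm_nonneg _) (norm_nonneg _) two_ne_zero).1 h2

/-- the reflection as an isometry -/
noncomputable def rfE (u : Fin 4 → ℂ) (h : Fin 4 → ℝ) (s : Fin 4) (hu : ‖u s‖ = 1) : ℂ ≃ᵢ ℂ where
  toFun := rf u h s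
  invFun := rf u h s
  left_inv := rf_rf hu
  right_inv := rf_rf hu
  isometry_toFun := rf_isometry hu

lemma rfE_apply (u : Fin 4 → ℂ) (h : Fin 4 → ℝ) (s : Fin 4) (hu : ‖u s‖ = 1) (x : ℂ) :
    rfE u h s hu x = rf u h s x := rfl

/-! ### measurability of the lengths -/

lemma measurable_ip (a : ℂ) : Measurable (ip a) := by
  unfold ip
  fun_prop

lemma measurable_dd (u : Fin 4 → ℂ) (h : Fin 4 → ℝ) (s : Fin 4) :
    Measurable (fun p : ℂ × ℂ => dd u h s p.1 p.2) := by
  unfold dd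
  have h1 : Measurable (fun p : ℂ × ℂ => ip (u s) p.1) := by
    unfold ip
    fun_prop
  have h2 : Measurable (fun p : ℂ × ℂ => ip (u s) p.2) := by
    unfold ip
    fun_prop
  have h3 : MeasurableSet {p : ℂ × ℂ | ip (u s) p.1 < h s ∧ ip (u s) p.2 < h s} :=
    (measurableSet_lt h1 measurable_const).inter (measurableSet_lt h2 measurable_const)
  refine Measurable.ite h3 ?_ (by fun_prop)
  have h4 : Measurable (fun p : ℂ × ℂ => rf u h s p.2) := measurable_rf_comp u h s (by fun_prop)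
  exact (measurable_fst.sub h4).norm

lemma measurable_bl (u : Fin 4 → ℂ) (h : Fin 4 → ℝ) (A : Finset (Fin 4)) :
    Measurable (fun p : ℂ × ℂ => bl u h A p.1 p.2) := by
  unfold bl
  have h1 : ∀ s : Fin 4, Measurable (fun p : ℂ × ℂ => if s ∈ A then dd u h s p.1 p.2
      else ‖p.1 - p.2‖) := by
    intro s
    by_cases hs : s ∈ A
    · simp only [hs, if_true]
      exact measurable_dd u h s
    · simp only [hs, if_false]
      fun_prop
  have h2 := Finset.measurable_sup' (s := (Finset.univ : Finset (Fin 4))) Finset.univ_nonempty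
    (f := fun s (p : ℂ × ℂ) => if s ∈ A then dd u h s p.1 p.2 else ‖p.1 - p.2‖)
    (fun s _ => h1 s)
  have h3 : (fun p : ℂ × ℂ => Finset.univ.sup' Finset.univ_nonempty
      (fun s : Fin 4 => if s ∈ A then dd u h s p.1 p.2 else ‖p.1 - p.2‖))
      = Finset.univ.sup' Finset.univ_nonempty
        (fun s (p : ℂ × ℂ) => if s ∈ A then dd u h s p.1 p.2 else ‖p.1 - p.2‖) := by
    ext p
    rw [Finset.sup'_apply]
  rw [h3]
  exact h2

lemma measurable_bl_comp (u : Fin 4 → ℂ) (h : Fin 4 → ℝ) (A : Finset (Fin 4)) {β : Type*}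
    [MeasurableSpace β] {g k : β → ℂ} (hg : Measurable g) (hk : Measurable k) :
    Measurable (fun a => bl u h A (g a) (k a)) := by
  have h3 := (measurable_bl u h A).comp (hg.prodMk hk)
  simpa only [Function.comp_def] using h3

lemma bl_nonneg (u : Fin 4 → ℂ) (h : Fin 4 → ℝ) (A : Finset (Fin 4)) (x y : ℂ) :
    0 ≤ bl u h A x y := by
  unfold bl
  refine le_trans ?_ (Finset.le_sup' _ (Finset.mem_univ (0 : Fin 4)))
  unfold dd
  split_ifs <;> exact norm_nonneg _

lemma bl_empty (u : Fin 4 → ℂ) (h : Fin 4 → ℝ) (x y : ℂ) : bl u h ∅ x y = ‖x - y‖ := by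
  unfold bl
  simp

lemma meas_Cns {n : ℕ} [NeZero n] (u : Fin 4 → ℂ) (h : Fin 4 → ℝ) (A : Fin n → Finset (Fin 4)) :
    MeasurableSet {x : Fin n → ℂ | Cns u h x A} := by
  have hm : ∀ (j : Fin n) (s : Fin 4), MeasurableSet {x : Fin n → ℂ | ip (u s) (x j) < h s} := by
    intro j s
    have := (measurable_ip (u s)).comp (measurable_pi_apply (X := fun _ : Fin n => ℂ) j)
    exact measurableSet_lt this measurable_const
  unfold Cns
  rw [Set.ofPred_forall]
  refine MeasurableSet.iInter fun j => ?_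
  rw [Set.ofPred_forall]
  refine MeasurableSet.iInter fun s => ?_
  by_cases h' : s ∉ A j
  · simp only [h', not_false_iff, true_imp_iff]
    exact (hm j s).inter (hm (j + 1) s)
  · simp [h']

/-- sums of equal bounds over labels -/
lemma sum_le_card {n : ℕ} (F : (Fin n → Finset (Fin 4)) → ℝ≥0∞) {C t : ℝ} {p : ℕ} {m : ℝ}
    (ht : 0 < t)
    (hF : ∀ A, F A ≤ ENNReal.ofReal (C * (1 + t) ^ p / t * Real.exp (-(m / (4 * t))))) :
    ∑ A, F A ≤ ENNReal.ofReal ((Fintype.card (Fin n → Finset (Fin 4)) * |C|) * (1 + t) ^ p / t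
      * Real.exp (-(m / (4 * t)))) := by
  refine (Finset.sum_le_sum fun A _ => hF A).trans ?_
  rw [Finset.sum_const, Finset.card_univ, nsmul_eq_mul]
  have h1 : ENNReal.ofReal (C * (1 + t) ^ p / t * Real.exp (-(m / (4 * t))))
      ≤ ENNReal.ofReal (|C| * (1 + t) ^ p / t * Real.exp (-(m / (4 * t)))) := by
    refine ENNReal.ofReal_le_ofReal ?_
    have := le_abs_self C
    gcongr
  refine (mul_le_mul_right h1 _).trans (le_of_eq ?_)
  rw [← ENNReal.ofReal_natCast, ← ENNReal.ofReal_mul (by positivity)]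
  congr 1
  ring

/-- Gaussian bound for the mass of a set of configurations -/
theorem ldm (u : Fin 4 → ℂ) (h : Fin 4 → ℝ) (hu : ∀ s, ‖u s‖ = 1) (n : ℕ) [NeZero n]
    (S : (Fin n → ℂ) → (Fin n → Finset (Fin 4)) → Prop) (δ l R ε : ℝ)
    (hS : ∀ A, MeasurableSet {x | S x A}) (hδ : 0 < δ) (hl : 0 < l) (hR : 0 < R) (hε : 0 < ε)
    (hlen : ∀ x A, S x A → Cns u h x A → Sho u h δ x A → l ≤ Ln u h x A)
    (hloc : ∀ x A, S x A → Cns u h x A → ‖x 0‖ ≤ R * (1 + Ln u h x A)) :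
      ∃ (C : ℝ) (p : ℕ), ∀ τ : Fin n → ℝ, (∀ j, 0 < τ j) →
        (∀ j, τ j * l ^ 2 ≤ δ ^ 2 * ∑ i, τ i) →
        Ms u h τ S ≤ ENNReal.ofReal (C * (1 + ∑ i, τ i) ^ p / (∑ i, τ i)
          * Real.exp (-((1 - ε) * l ^ 2 / (4 * ∑ i, τ i)))) := by
  classical
  have hLDB := Pool.Agent.AEU.H7.ldb
  obtain ⟨C, p, hC⟩ := hLDB n (fun _ => IsometryEquiv.refl ℂ) δ l R ε hδ hl hR hε
  refine ⟨Fintype.card (Fin n → Finset (Fin 4)) * |C|, p, fun τ hτ hmesh => ?_⟩
  have ht : 0 < ∑ i, τ i := Finset.sum_pos (fun i _ => hτ i) ⟨0, Finset.mem_univ _⟩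
  unfold Ms
  refine sum_le_card _ ht fun A => ?_
  have hT : MeasurableSet {x : Fin n → ℂ | S x A ∧ Cns u h x A} :=
    (hS A).inter (meas_Cns u h A)
  have h1 := hC τ (fun j => bl u h (A j)) {x : Fin n → ℂ | S x A ∧ Cns u h x A} hτ hmesh hT
    (fun j => measurable_bl u h (A j)) (fun j x y => le_bl hu (A j) x y)
    (fun x hx hsh => hlen x A hx.1 hx.2 hsh) (fun x hx => hloc x A hx.1 hx.2)
  refine le_trans ?_ h1
  rw [← lintegral_indicator hT]
  refine lintegral_mono fun x => ?_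
  by_cases hx : S x A
  · simp only [hx, if_true]
    by_cases hc : Cns u h x A
    · rw [Set.indicator_of_mem (by exact ⟨hx, hc⟩)]
      refine ENNReal.ofReal_le_ofReal ?_
      unfold wt
      refine Finset.prod_le_prod (fun j _ => ((lab u h hu).2 _ _ _ (hτ j)).1 (A j))
        (fun j _ => ?_)
      exact ((lab u h hu).2 _ _ _ (hτ j)).2.2.2.2.1 (A j)
    · have h0 : wt u h τ x A = 0 := by
        by_contra hne
        apply hc
        intro j s hs
        have hk : kA u h (A j) (τ j) (x j) (x (j + 1)) ≠ 0 := by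
          intro h0
          apply hne
          unfold wt
          exact Finset.prod_eq_zero (Finset.mem_univ j) h0
        exact ((lab u h hu).2 _ _ _ (hτ j)).2.2.2.2.2 (A j) s hs hk
      rw [h0]
      simp
  · simp [hx]

end Pool.Agent.XQ.K4
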