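import Pool.Agent.Helper36_XQ.FinE
import Pool.Agent.Helper36_XQ.Ref4
import Pool.Agent.Helper36_XQ.Tel
import Pool.Agent.Helper36_XQ.Gvc
import Pool.Agent.Helper60_XQ.Asa
import Pool.Agent.Helper60_XQ.Asm
import Pool.Agent.Helper31_XQ.Blc4
import Pool.Agent.Helper93_XQ.Ce2
import Pool.Agent.Helper93_XQ.Cyc
import Pool.Agent.Helper27_XQ.Ga
import Pool.Agent.Helper16_XQ.Gac
import Pool.Agent.Helper16_XQ.FluxE
import Pool.Agent.Helper16_XQ.FinE
import Pool.Agent.Helper53_XQ.GB1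
import Pool.Agent.Helper53_XQ.GEO
import Pool.Agent.Helper79_XQ.Gc1
import Pool.Agent.Helper79_XQ.Gc2
import Pool.Agent.Helper9_XQ.Ldv
import Pool.Agent.Helper3_XQ.Le2
import Pool.Agent.Helper3_XQ.Ne2
import Pool.Agent.Helper51_XQ.Pte
import Pool.Agent.Helper51_XQ.Vch
import Pool.Agent.Helper63_XQ.R2s
import Pool.Agent.Helper63_XQ.Rfk
import Pool.Agent.Helper46_XQ.Rco
import Pool.Agent.Helper46_XQ.Rrv
import Pool.Agent.Helper7_XQ.Rma
import Pool.Agent.Helper7_XQ.Vpl
import Pool.Agent.Helper76_XQ.Tcm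
import Pool.Agent.Helper76_XQ.Tgm
import Pool.Agent.Helper43_XQ.Tre
import Pool.Agent.Helper43_XQ.Ttx

/-!
Squad XQ (MP_5b0138_an), part E4: `GermE1Stmt` and `GermE2Stmt` (helper36).
-/

set_option autoImplicit false

namespace Pool.Agent.XQ.K4

open Pool.Agent.AEU

theorem rcr_all : RcrStatement := H36.rcr (H63.r2s H63.rfk H46.rrv H46.rco) H7.rma H46.rco

theorem ref4_all : Ref4Statement := H36.ref4 rcr_all H76.tcm H76.tgm

theorem asm_all : AsmStatement :=
  H60.asm (H60.asa (H31.blc4 H36.tel) ref4_all H9.ldv) H60K.H44.hye H60K.H29.lps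

theorem ttx_all : TtxStatement := H43.ttx H51.pte

theorem gac_all : GacStatement := H16.gac H84.pol H51.pte H93.cyc

theorem ga2_all : Ga2Statement := H27.ga2 H84.pol (H3.ne2 H93.ce2 H43.tre H51.pte) gac_all

theorem ga1_all : Ga1Statement := H27.ga1 H84.pol H43.tre gac_all

theorem gb1_all : Gb1Statement := H53.gb1 H51.vch H51.pte

theorem geo_of (gvc : GvcStatement) : GeoStatement :=
  H53.geo ga2_all (H79.gc2 H93.ce2 H51.vch H7.vpl gvc H51.pte) ga1_all gb1_all
    (H79.gc1 H51.vch H7.vpl gvc H51.pte) H3.le2 H51.pte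

theorem germE2_of (gvc : GvcStatement) : GermE2Stmt :=
  germE2 (geo_of gvc) asm_all ttx_all H51.pte E.fluxE2 E.finE

theorem germE1_of (gvc : GvcStatement) : GermE1Stmt :=
  germE1 (geo_of gvc) asm_all ttx_all H51.pte E.fluxE1 E.finE

theorem gvc_all : GvcStatement := H36.gvc H7.vpl H51.pte

/-- GE2 -/
theorem germE2_all : GermE2Stmt := germE2_of gvc_all

/-- GE1 -/
theorem germE1_all : GermE1Stmt := germE1_of gvc_all

end Pool.Agent.XQ.K4
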