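import Pool.Agent.Helper60_AEU.Stmt

/-!
Squad XQ (MP_5b0138_an), part A, modules G3 and G4: heat kernels with four labels.  This file repeats
the definitions of `Pool.Agent.Helper60_AEU.Defs` for the labels `Fin 4`.

Four half-planes `ip (u s) x < h s`, `s : Fin 4`, with unit normals. A loop *visits* `s` when it
leaves the open half-plane number `s`.
-/

namespace Pool.Agent.XQ.K4

open MeasureTheory Complex Filter Topology ProbabilityTheory Pool.Agent.H16Iso Pool.Agent.H62T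
  Pool.Agent.H16F Pool.Agent.H38KL
open scoped ENNReal NNReal

/-! ### Kernels with labels -/

/-- intersection of the half-planes with labels in `B` -/
def Dm (u : Fin 4 → ℂ) (h : Fin 4 → ℝ) (B : Finset (Fin 4)) : Set ℂ :=
  {x | ∀ s ∈ B, ip (u s) x < h s}

/-- heat kernel of paths which visit no label in `B` -/
noncomputable def pB (u : Fin 4 → ℂ) (h : Fin 4 → ℝ) (B : Finset (Fin 4)) (t : ℝ) (x y : ℂ) : ℝ :=
  pD (Dm u h B) t x y

/-- heat kernel of paths which visit exactly the labels in `A` -/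
noncomputable def kA (u : Fin 4 → ℂ) (h : Fin 4 → ℝ) (A : Finset (Fin 4)) (t : ℝ) (x y : ℂ) : ℝ :=
  ∑ B ∈ A.powerset, (-1 : ℝ) ^ B.card * pB u h (Aᶜ ∪ B) t x y

/-- heat kernel of paths which visit all labels in `M` and none in `E` -/
noncomputable def kME (u : Fin 4 → ℂ) (h : Fin 4 → ℝ) (M E : Finset (Fin 4)) (t : ℝ) (x y : ℂ) : ℝ :=
  ∑ B ∈ M.powerset, (-1 : ℝ) ^ B.card * pB u h (E ∪ B) t x y

/-- reflection in the line number `s` -/
noncomputable def rf (u : Fin 4 → ℂ) (h : Fin 4 → ℝ) (s : Fin 4) (y : ℂ) : ℂ :=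
  y - ((2 * (ip (u s) y - h s) : ℝ) : ℂ) * u s

open Classical in
/-- length of the shortest path from `x` to `y` which visits `s` -/
noncomputable def dd (u : Fin 4 → ℂ) (h : Fin 4 → ℝ) (s : Fin 4) (x y : ℂ) : ℝ :=
  if ip (u s) x < h s ∧ ip (u s) y < h s then ‖x - rf u h s y‖ else ‖x - y‖

/-- length attributed to a block from `x` to `y` with label `A` -/
noncomputable def bl (u : Fin 4 → ℂ) (h : Fin 4 → ℝ) (A : Finset (Fin 4)) (x y : ℂ) : ℝ :=
  Finset.univ.sup' Finset.univ_nonempty (fun s : Fin 4 => if s ∈ A then dd u h s x y else ‖x - y‖)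

/-- mass of the loops of duration `t` which visit all labels in `M` and none in `E` -/
noncomputable def VM (u : Fin 4 → ℂ) (h : Fin 4 → ℝ) (M E : Finset (Fin 4)) (t : ℝ) : ℝ :=
  ∫ x, kME u h M E t x x

/-! ### Blocks -/

/-- density of the loops cut into `n` blocks -/
noncomputable def wt {n : ℕ} [NeZero n] (u : Fin 4 → ℂ) (h : Fin 4 → ℝ) (τ : Fin n → ℝ)
    (x : Fin n → ℂ) (A : Fin n → Finset (Fin 4)) : ℝ :=
  ∏ j, kA u h (A j) (τ j) (x j) (x (j + 1))

open Classical in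
/-- mass of a set of configurations -/
noncomputable def Ms {n : ℕ} [NeZero n] (u : Fin 4 → ℂ) (h : Fin 4 → ℝ) (τ : Fin n → ℝ)
    (S : (Fin n → ℂ) → (Fin n → Finset (Fin 4)) → Prop) : ℝ≥0∞ :=
  ∑ A, ∫⁻ x, if S x A then ENNReal.ofReal (wt u h τ x A) else 0

/-- all labels in `M` are visited and none in `E` -/
def Vis {n : ℕ} (M E : Finset (Fin 4)) (A : Fin n → Finset (Fin 4)) : Prop :=
  (∀ s ∈ M, ∃ j, s ∈ A j) ∧ ∀ j, Disjoint (A j) E

/-- configurations of positive density -/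
def Cns {n : ℕ} [NeZero n] (u : Fin 4 → ℂ) (h : Fin 4 → ℝ) (x : Fin n → ℂ)
    (A : Fin n → Finset (Fin 4)) : Prop :=
  ∀ (j : Fin n) (s : Fin 4), s ∉ A j → ip (u s) (x j) < h s ∧ ip (u s) (x (j + 1)) < h s

/-- total length of a configuration -/
noncomputable def Ln {n : ℕ} [NeZero n] (u : Fin 4 → ℂ) (h : Fin 4 → ℝ) (x : Fin n → ℂ)
    (A : Fin n → Finset (Fin 4)) : ℝ := ∑ j, bl u h (A j) (x j) (x (j + 1))

/-- all blocks are short -/
def Sho {n : ℕ} [NeZero n] (u : Fin 4 → ℂ) (h : Fin 4 → ℝ) (δ : ℝ) (x : Fin n → ℂ)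
    (A : Fin n → Finset (Fin 4)) : Prop := ∀ j, bl u h (A j) (x j) (x (j + 1)) < δ

end Pool.Agent.XQ.K4
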