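import Pool.Agent.Helper36_XQ.Stmt4

/-!
Squad XQ (MP_5b0138_an), part A: `Germ3Stmt` and `Germ4Stmt` from the modules of
`Helper36_XQ.Stmt4` (helper36).
-/

set_option autoImplicit false

namespace Pool.Agent.XQ.K4

open MeasureTheory Complex Filter Topology ProbabilityTheory Pool.Agent.H16Iso Pool.Agent.H62T
  Pool.Agent.H16F Pool.Agent.H38KL Pool.Agent.AEU
open scoped ENNReal NNReal

theorem UpG_mono {u : Fin 4 → ℂ} {h : Fin 4 → ℝ} {Mt Et : Finset (Fin 4)}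
    {M E : Fin 3 → Finset (Fin 4)} {S : Fin 3 → Set ℂ} {δ l δ' l' : ℝ} (hδ : δ' ≤ δ) (hl : l' ≤ l)
    (H : UpG u h Mt Et M E S δ l) : UpG u h Mt Et M E S δ' l' := by
  intro n _ x A hV hC hS hL
  exact H n x A hV hC (fun j => (hS j).trans_le hδ) (hL.trans_le hl)

theorem LoG_mono {u : Fin 4 → ℂ} {h : Fin 4 → ℝ} {Et : Finset (Fin 4)}
    {M E : Fin 3 → Finset (Fin 4)} {S : Fin 3 → Set ℂ} {δ l δ' l' : ℝ} (hδ : δ' ≤ δ) (hl : l' ≤ l)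
    (H : LoG u h Et M E S δ l) : LoG u h Et M E S δ' l' := by
  intro n _ a b x A h0 hab hbn hP hC hS hE
  exact hl.trans (H n a b x A h0 hab hbn hP hC (fun j => (hS j).trans_le hδ) hE)

/-- from bounds in `[0, ∞]` to bounds of `Lap` -/
theorem ord_of (u : Fin 4 → ℂ) (h : Fin 4 → ℝ) (Mt Et : Finset (Fin 4)) (MM EE : Finset HP)
    (L q R : ℝ) (eav : EavStatement) (upb : UpbStatement) (hu : ∀ s, ‖u s‖ = 1)
    (hM : ∀ x : HP, x ∈ MM ↔ ∃ s ∈ Mt, x = (u s, h s))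
    (hE : ∀ x : HP, x ∈ EE ↔ ∃ s ∈ Et, x = (u s, h s))
    (M E : Fin 3 → Finset (Fin 4)) (S : Fin 3 → Set ℂ) (δ l : ℝ) (hS : ∀ i, MeasurableSet (S i))
    (hδ : 0 < δ) (hl : 0 < l) (hR : 0 < R) (HU : UpG u h Mt Et M E S δ l) (HL : LcG u h Mt Et R)
    (H : ∃ c C κ0 : ℝ, 0 < c ∧ 0 < C ∧ 0 < κ0 ∧ ∀ κ : ℝ, κ0 ≤ κ →
      ENNReal.ofReal (c * κ ^ (3 - q) * Real.exp (-(L * κ)))
        ≤ ∫⁻ t in Set.Ioi (0 : ℝ), ENNReal.ofReal (Real.exp (-(κ ^ 2 * t)) / t) * Vt u h Mt Et t ∧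
      ∫⁻ t in Set.Ioi (0 : ℝ), ENNReal.ofReal (Real.exp (-(κ ^ 2 * t)) / t) * Vt u h Mt Et t
        ≤ ENNReal.ofReal (C * κ ^ (3 - q) * Real.exp (-(L * κ)))) :
    ∃ c C κ0 : ℝ, 0 < c ∧ 0 < C ∧ 0 < κ0 ∧ ∀ κ : ℝ, κ0 ≤ κ →
      c * κ ^ (3 - q) * Real.exp (-(L * κ)) ≤ Lap (EAr MM EE) κ ∧
      Lap (EAr MM EE) κ ≤ C * κ ^ (3 - q) * Real.exp (-(L * κ)) := by
  obtain ⟨c, C, κ0, hc, hC, hκ0, H⟩ := H
  obtain ⟨-, C', p, hV⟩ := upb u h Mt Et M E S δ l R (1 / 2) hu hS hδ hl hR (by norm_num) HU HL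
  have hfin : ∀ t : ℝ, 0 < t → Vt u h Mt Et t ≠ ⊤ := by
    intro t ht
    exact ne_top_of_le_ne_top ENNReal.ofReal_ne_top (hV t ht)
  refine ⟨c, C, κ0, hc, hC, hκ0, fun κ hκ => ?_⟩
  obtain ⟨h1, h2⟩ := H κ hκ
  have hκ' : 0 < κ := hκ0.trans_le hκ
  have hn := ne_top_of_le_ne_top ENNReal.ofReal_ne_top h2
  rw [eav u h Mt Et MM EE hu hM hE hfin κ hκ' hn]
  have e1 : 0 ≤ c * κ ^ (3 - q) * Real.exp (-(L * κ)) := by positivity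
  have e2 : 0 ≤ C * κ ^ (3 - q) * Real.exp (-(L * κ)) := by positivity
  constructor
  · have := ENNReal.toReal_mono hn h1
    rwa [ENNReal.toReal_ofReal e1] at this
  · have := ENNReal.toReal_mono ENNReal.ofReal_ne_top h2
    rwa [ENNReal.toReal_ofReal e2] at this

theorem norm_e (a : ℝ) : ‖exp (a * I)‖ = 1 := Complex.norm_exp_ofReal_mul_I a

theorem hu3 (η1 η2 ζ1 ζ2 : ℝ) (s : Fin 4) : ‖u3 η1 η2 ζ1 ζ2 s‖ = 1 := by
  fin_cases s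
  · simp [u3]
  · have := norm_e (-η2)
    push_cast at this
    simp [u3, neg_mul] at this ⊢
    exact this
  · show ‖exp ((Real.pi / 2 - ζ1 : ℝ) * I)‖ = 1
    exact norm_e _
  · show ‖exp ((-(Real.pi / 2 - ζ2) : ℝ) * I)‖ = 1
    exact norm_e _

theorem hu4 (α α' θ θ' : ℝ) (s : Fin 4) : ‖u4 α α' θ θ' s‖ = 1 := by
  fin_cases s
  · simp [u4]
  · simp [u4]
  · show ‖exp ((Real.pi / 2 - α' : ℝ) * I)‖ = 1
    exact norm_e _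
  · show ‖exp ((Real.pi / 2 + (θ - θ') / 2 : ℝ) * I)‖ = 1
    exact norm_e _

theorem meas_Rct (a b ρ : ℝ) : MeasurableSet (Rct a b ρ) := by
  have h1 : Measurable fun x : ℂ => x.re := Complex.measurable_re
  have h2 : Measurable fun x : ℂ => |x.im| := Complex.measurable_im.abs
  exact (measurableSet_lt measurable_const h1).inter
    ((measurableSet_lt h1 measurable_const).inter (measurableSet_lt h2 measurable_const))

theorem meas_RcU (a b ρ : ℝ) : MeasurableSet (RcU a b ρ) := by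
  have h1 : Measurable fun x : ℂ => x.re := Complex.measurable_re
  have h2 : Measurable fun x : ℂ => x.im := Complex.measurable_im
  exact (measurableSet_lt measurable_const h1).inter
    ((measurableSet_lt h1 measurable_const).inter
      ((measurableSet_lt measurable_const h2).inter (measurableSet_lt h2 measurable_const)))

theorem meas_S3 (d ρ : ℝ) (i : Fin 3) : MeasurableSet (S3 d ρ i) := by
  fin_cases i
  · exact meas_Rct _ _ _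
  · exact meas_Rct _ _ _
  · exact meas_Rct _ _ _

theorem meas_S4 (θ θ' d : ℝ) (a : ℂ) (ρ : ℝ) (i : Fin 3) : MeasurableSet (S4 θ θ' d a ρ i) := by
  fin_cases i
  · exact meas_RcU _ _ _
  · show MeasurableSet ((fun x : ℂ => (d : ℂ) - (starRingEnd ℂ) (exp (θ' * I) * x)) ''
      Rct (9 / 20 * ‖a - d‖) (11 / 20 * ‖a - d‖) ρ)
    have h : (fun x : ℂ => (d : ℂ) - (starRingEnd ℂ) (exp (θ' * I) * x)) ''
        Rct (9 / 20 * ‖a - d‖) (11 / 20 * ‖a - d‖) ρ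
        = (fun y : ℂ => exp (-(θ' * I)) * (starRingEnd ℂ) (d - y)) ⁻¹'
          Rct (9 / 20 * ‖a - d‖) (11 / 20 * ‖a - d‖) ρ := by
      refine congrFun (Set.image_eq_preimage_of_inverse ?_ ?_) _
      · intro x
        simp only [sub_sub_cancel, Complex.conj_conj]
        rw [← mul_assoc, ← Complex.exp_add]
        simp
      · intro y
        show (d : ℂ) - (starRingEnd ℂ) (exp (θ' * I) * (exp (-(θ' * I)) * (starRingEnd ℂ) (d - y)))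
          = y
        rw [← mul_assoc, ← Complex.exp_add]
        simp
    rw [h]
    refine (meas_Rct _ _ _).preimage ?_
    refine Measurable.const_mul ?_ _
    exact (Complex.continuous_conj.measurable).comp (measurable_const.sub measurable_id)
  · show MeasurableSet ((fun x : ℂ => exp (θ * I) * x) '' Rct (9 / 20 * ‖a‖) (11 / 20 * ‖a‖) ρ)
    have h : (fun x : ℂ => exp (θ * I) * x) '' Rct (9 / 20 * ‖a‖) (11 / 20 * ‖a‖) ρ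
        = (fun y : ℂ => exp (-(θ * I)) * y) ⁻¹' Rct (9 / 20 * ‖a‖) (11 / 20 * ‖a‖) ρ := by
      refine congrFun (Set.image_eq_preimage_of_inverse ?_ ?_) _
      · intro x
        show exp (-(θ * I)) * (exp (θ * I) * x) = x
        rw [← mul_assoc, ← Complex.exp_add]
        simp
      · intro y
        show exp (θ * I) * (exp (-(θ * I)) * y) = y
        rw [← mul_assoc, ← Complex.exp_add]
        simp
    rw [h]
    exact (meas_Rct _ _ _).preimage (measurable_id.const_mul _)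

theorem germ3 (upb : UpbStatement) (mn4 : Mn4Statement) (eav : EavStatement)
    (up3 : Up3Statement) (lo3 : Lo3Statement) (lc3 : Lc3Statement) (pb3 : Pb3Statement) :
    Germ3Stmt := by
  intro η1 η2 ζ1 ζ2 d a1 a2 b1 b2 a3 a4 b3 b4 a5 a6 b5 b6 hd
  have hy : Hy3 η1 η2 ζ1 ζ2 d := ⟨a1, a2, b1, b2, a3, a4, b3, b4, a5, a6, b5, b6, hd⟩
  obtain ⟨ρ, c, C, κ0, hρ, hc, hC, hκ0, hP⟩ := pb3 η1 η2 ζ1 ζ2 d hy
  obtain ⟨δ1, l1, hδ1, hl1, HU⟩ := up3 η1 η2 ζ1 ζ2 d ρ hy hρ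
  obtain ⟨δ2, l2, hδ2, hl2, HL⟩ := lo3 η1 η2 ζ1 ζ2 d ρ hy hρ
  obtain ⟨R, hR, HR⟩ := lc3 η1 η2 ζ1 ζ2 d hy
  have hl : 2 * d < min l1 l2 := lt_min hl1 hl2
  have hδ : 0 < min δ1 δ2 := lt_min hδ1 hδ2
  have HU' := UpG_mono (min_le_left δ1 δ2) (min_le_left l1 l2) HU
  have HL' := LoG_mono (min_le_right δ1 δ2) (min_le_right l1 l2) HL
  have hu := hu3 η1 η2 ζ1 ζ2
  have hS := meas_S3 d ρ
  set R' := R + d + ρ with hR'
  have hR0 : 0 < R' := by positivity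
  have HR' : LcG (u3 η1 η2 ζ1 ζ2) (h3 ζ1 ζ2 d) (Mv η1 η2 ∪ Mw ζ1 ζ2) (Ev η1 η2 ∪ Ew ζ1 ζ2) R' := by
    intro n _ x A hV hC'
    obtain ⟨h1, h2⟩ := HR n x A hV hC'
    have h0 : 0 ≤ Ln (u3 η1 η2 ζ1 ζ2) (h3 ζ1 ζ2 d) x A :=
      (by positivity : (0 : ℝ) ≤ 1 / R).trans h2
    have hRR : R ≤ R' := by rw [hR']; linarith
    refine ⟨h1.trans (mul_le_mul_of_nonneg_right hRR (by linarith)), le_trans ?_ h2⟩
    exact one_div_le_one_div_of_le hR hRR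
  have hS0 : ∀ x ∈ S3 d ρ 0, ‖x‖ ≤ R' := by
    intro x hx
    obtain ⟨h1, h2, h3⟩ := hx
    have e := Complex.norm_le_abs_re_add_abs_im x
    have e1 : |x.re| ≤ d := abs_le.2 ⟨by linarith, by linarith⟩
    rw [hR']
    linarith
  have hMt : Mv η1 η2 ∪ Mw ζ1 ζ2 ⊆ M3 η1 η2 ζ1 ζ2 0 ∪ M3 η1 η2 ζ1 ζ2 1 ∪ M3 η1 η2 ζ1 ζ2 2 := by
    intro s hs
    rw [Finset.mem_union] at hs
    show s ∈ Mw ζ1 ζ2 ∪ ∅ ∪ Mv η1 η2
    simp only [Finset.mem_union]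
    tauto
  have key := mn4 (u3 η1 η2 ζ1 ζ2) (h3 ζ1 ζ2 d) (Mv η1 η2 ∪ Mw ζ1 ζ2) (Ev η1 η2 ∪ Ew ζ1 ζ2)
    (M3 η1 η2 ζ1 ζ2) (E3 η1 η2 ζ1 ζ2) (S3 d ρ) (2 * d) (min l1 l2) (min δ1 δ2) R' 4 hu hS hS0 hMt
    hδ hR0 (by linarith) hl HU' HL' HR' ⟨c, C, κ0, hc, hC, hκ0, fun κ hκ => hP κ hκ⟩
  have fin := ord_of (u3 η1 η2 ζ1 ζ2) (h3 ζ1 ζ2 d) (Mv η1 η2 ∪ Mw ζ1 ζ2) (Ev η1 η2 ∪ Ew ζ1 ζ2)
    (cM η1 η2 (lnU η1) (lnD η2) ∪
        cM ζ1 ζ2 (lnN (Real.pi / 2 - ζ1) d) (lnN (-(Real.pi / 2 - ζ2)) d))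
    (cE η1 η2 (lnU η1) (lnD η2) ∪
        cE ζ1 ζ2 (lnN (Real.pi / 2 - ζ1) d) (lnN (-(Real.pi / 2 - ζ2)) d)) (2 * d) 4 R' eav upb hu
    ?_ ?_ (M3 η1 η2 ζ1 ζ2) (E3 η1 η2 ζ1 ζ2) (S3 d ρ) (min δ1 δ2) (min l1 l2) hS hδ (by linarith)
    hR0 HU' HR' key
  · have e3 : (3 : ℝ) - 4 = -1 := by norm_num
    rw [e3] at fin
    exact fin
  · intro x
    have e0 : (u3 η1 η2 ζ1 ζ2 0, h3 ζ1 ζ2 d 0) = lnU η1 := rfl
    have e1 : (u3 η1 η2 ζ1 ζ2 1, h3 ζ1 ζ2 d 1) = lnD η2 := rfl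
    have e2 : (u3 η1 η2 ζ1 ζ2 2, h3 ζ1 ζ2 d 2) = lnN (Real.pi / 2 - ζ1) d := rfl
    have e3 : (u3 η1 η2 ζ1 ζ2 3, h3 ζ1 ζ2 d 3) = lnN (-(Real.pi / 2 - ζ2)) d := rfl
    rw [← e0, ← e1, ← e2, ← e3]
    unfold cM Mv Mw
    split_ifs <;> simp
  · intro x
    have e0 : (u3 η1 η2 ζ1 ζ2 0, h3 ζ1 ζ2 d 0) = lnU η1 := rfl
    have e1 : (u3 η1 η2 ζ1 ζ2 1, h3 ζ1 ζ2 d 1) = lnD η2 := rfl
    have e2 : (u3 η1 η2 ζ1 ζ2 2, h3 ζ1 ζ2 d 2) = lnN (Real.pi / 2 - ζ1) d := rfl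
    have e3 : (u3 η1 η2 ζ1 ζ2 3, h3 ζ1 ζ2 d 3) = lnN (-(Real.pi / 2 - ζ2)) d := rfl
    rw [← e0, ← e1, ← e2, ← e3]
    unfold cE Ev Ew
    split_ifs <;> simp

theorem germ4 (upb : UpbStatement) (mn4 : Mn4Statement) (eav : EavStatement)
    (up4 : Up4Statement) (lo4 : Lo4Statement) (lc4 : Lc4Statement) (pb4 : Pb4Statement) :
    Germ4Stmt := by
  intro α α' θ θ' d a a1 a2 b1 b2 c1 c2 c3 c4 hd htri ha ha'
  have hy : Hy4 α α' θ θ' d a := ⟨a1, a2, b1, b2, c1, c2, c3, c4, hd, htri, ha, ha'⟩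
  obtain ⟨ρ1, hρ1, HP⟩ := pb4 α α' θ θ' d a hy
  obtain ⟨ρ2, hρ2, HLo⟩ := lo4 α α' θ θ' d a hy
  set ρ := min ρ1 ρ2 / 2 with hρd
  have hρm : 0 < min ρ1 ρ2 := lt_min hρ1 hρ2
  have hρ : 0 < ρ := by positivity
  have l1 : ρ < ρ1 := by
    have := min_le_left ρ1 ρ2
    rw [hρd]; linarith
  have l2 : ρ < ρ2 := by
    have := min_le_right ρ1 ρ2
    rw [hρd]; linarith
  obtain ⟨c, C, κ0, hc, hC, hκ0, hP⟩ := HP ρ hρ l1
  obtain ⟨δ1, l1, hδ1, hl1, HU⟩ := up4 α α' θ θ' d a ρ hy hρ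
  obtain ⟨δ2, l2, hδ2, hl2, HL⟩ := HLo ρ hρ l2
  obtain ⟨R, hR, HR⟩ := lc4 α α' θ θ' d a hy
  have hl : L4 d a < min l1 l2 := lt_min hl1 hl2
  have hδ : 0 < min δ1 δ2 := lt_min hδ1 hδ2
  have hL0 : 0 < L4 d a := by unfold L4; positivity
  have HU' := UpG_mono (min_le_left δ1 δ2) (min_le_left l1 l2) HU
  have HL' := LoG_mono (min_le_right δ1 δ2) (min_le_right l1 l2) HL
  have hu := hu4 α α' θ θ'
  have hS := meas_S4 θ θ' d a ρ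
  set R' := R + d + ρ with hR'
  have hR0 : 0 < R' := by positivity
  have HR' : LcG (u4 α α' θ θ') (h4 α' θ θ' d a) {0, 2, 3} {1} R' := by
    intro n _ x A hV hC'
    obtain ⟨h1, h2⟩ := HR n x A hV hC'
    have h0 : 0 ≤ Ln (u4 α α' θ θ') (h4 α' θ θ' d a) x A :=
      (by positivity : (0 : ℝ) ≤ 1 / R).trans h2
    have hRR : R ≤ R' := by rw [hR']; linarith
    refine ⟨h1.trans (mul_le_mul_of_nonneg_right hRR (by linarith)), le_trans ?_ h2⟩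
    exact one_div_le_one_div_of_le hR hRR
  have hS0 : ∀ x ∈ S4 θ θ' d a ρ 0, ‖x‖ ≤ R' := by
    intro x hx
    obtain ⟨h1, h2, h3, h4⟩ := hx
    have e := Complex.norm_le_abs_re_add_abs_im x
    have e1 : |x.re| ≤ d := abs_le.2 ⟨by linarith, by linarith⟩
    have e2 : |x.im| ≤ ρ := abs_le.2 ⟨by linarith, by linarith⟩
    rw [hR']
    linarith
  have hMt : ({0, 2, 3} : Finset (Fin 4)) ⊆ M4 0 ∪ M4 1 ∪ M4 2 := by decide
  have key := mn4 (u4 α α' θ θ') (h4 α' θ θ' d a) {0, 2, 3} {1} M4 E4 (S4 θ θ' d a ρ) (L4 d a)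
    (min l1 l2) (min δ1 δ2) R' 5 hu hS hS0 hMt
    hδ hR0 hL0 hl HU' HL' HR' ⟨c, C, κ0, hc, hC, hκ0, fun κ hκ => hP κ hκ⟩
  have fin := ord_of (u4 α α' θ θ') (h4 α' θ θ' d a) {0, 2, 3} {1}
    {lnU α, lnN (Real.pi / 2 - α') d, lnN (Real.pi / 2 + (θ - θ') / 2) a} {lnD 0} (L4 d a) 5 R'
    eav upb hu ?_ ?_ M4 E4 (S4 θ θ' d a ρ) (min δ1 δ2) (min l1 l2) hS hδ (by linarith)
    hR0 HU' HR' key
  · have e3 : (3 : ℝ) - 5 = -2 := by norm_num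
    rw [e3] at fin
    exact fin
  · intro x
    have e0 : (u4 α α' θ θ' 0, h4 α' θ θ' d a 0) = lnU α := rfl
    have e2 : (u4 α α' θ θ' 2, h4 α' θ θ' d a 2) = lnN (Real.pi / 2 - α') d := rfl
    have e3 : (u4 α α' θ θ' 3, h4 α' θ θ' d a 3) = lnN (Real.pi / 2 + (θ - θ') / 2) a := rfl
    rw [← e0, ← e2, ← e3]
    simp
  · intro x
    have e1 : (u4 α α' θ θ' 1, h4 α' θ θ' d a 1) = lnD 0 := rfl
    rw [← e1]
    simp

end Pool.Agent.XQ.K4
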