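import Pool.Agent.Helper36_XQ.Stmt5
import Pool.Agent.Helper36_XQ.All34

/-!
Squad XQ (MP_5b0138_an): `GermE1Stmt` and `GermE2Stmt` from the modules of part E4 and the plane
wave part of helper16 (helper36).
-/

set_option autoImplicit false

namespace Pool.Agent.XQ.K4

open MeasureTheory Complex Filter Topology ProbabilityTheory Pool.Agent.H16Iso Pool.Agent.H62T
  Pool.Agent.H16F Pool.Agent.H38KL Pool.Agent.AEU
open scoped ENNReal NNReal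

/-- the transform of the area is the transform of the mass of the loops -/
theorem lap_phi (u : Fin 4 → ℂ) (h : Fin 4 → ℝ) (Mt Et : Finset (Fin 4)) (MM EE : Finset HP)
    (R : ℝ) (hu : ∀ s, ‖u s‖ = 1)
    (hM : ∀ x : HP, x ∈ MM ↔ ∃ s ∈ Mt, x = (u s, h s))
    (hE : ∀ x : HP, x ∈ EE ↔ ∃ s ∈ Et, x = (u s, h s)) (hR : 0 < R) (HL : LcG u h Mt Et R)
    (κ : ℝ) (hκ : 1 ≤ κ) :
    Lap (EAr MM EE) κ = H60K.PhiT (fun t => (Vt u h Mt Et t).toReal) κ := by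
  have hl : 0 < 1 / R := by positivity
  have hκ0 : 0 < κ := by linarith
  have HU : UpG u h Mt Et (fun _ => ∅) (fun _ => ∅) (fun _ => Set.univ) 1 (1 / R) := by
    intro n _ x A hV hC hS hL
    exact absurd hL (not_lt.2 (HL n x A hV hC).2)
  obtain ⟨-, C, p, hV⟩ := upb_all u h Mt Et (fun _ => ∅) (fun _ => ∅) (fun _ => Set.univ) 1 (1 / R)
    R (1 / 2) hu (fun _ => MeasurableSet.univ) one_pos hl hR (by norm_num) HU HL
  have hfin : ∀ t : ℝ, 0 < t → Vt u h Mt Et t ≠ ⊤ := fun t ht =>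
    ne_top_of_le_ne_top ENNReal.ofReal_ne_top (hV t ht)
  set m : ℝ := (1 - 1 / 2) * (1 / R) ^ 2 with hm
  have hm0 : 0 < m := by rw [hm]; positivity
  have hL0 : 0 < Real.sqrt m / 2 := by positivity
  have hLm : (Real.sqrt m / 2) ^ 2 < m := by
    rw [div_pow, Real.sq_sqrt hm0.le]
    linarith
  obtain ⟨L', K, hL', hK, he⟩ := H29.err_bound C p hL0 hLm
  have hmeas : Measurable (Vt u h Mt Et) :=
    (H34.cnv u h (fun _ => ∅) (fun _ => ∅) (fun _ => Set.univ) 1 hu one_pos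
      (fun _ => MeasurableSet.univ)).2.2.1 Mt Et
  have hn : ∫⁻ t in Set.Ioi (0 : ℝ), ENNReal.ofReal (Real.exp (-(κ ^ 2 * t)) / t)
      * Vt u h Mt Et t ≠ ⊤ := by
    have h1 : ∫⁻ t in Set.Ioi (0 : ℝ), ENNReal.ofReal (Real.exp (-(κ ^ 2 * t)) / t)
        * Vt u h Mt Et t
        ≤ ∫⁻ t in Set.Ioi (0 : ℝ), ENNReal.ofReal (K * Real.exp (-(L' * κ)))
          * ENNReal.ofReal (Real.exp (-(t / 2))) := by
      refine lintegral_mono_ae ?_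
      filter_upwards [ae_restrict_mem measurableSet_Ioi] with t ht
      exact (mul_le_mul' le_rfl (hV t ht)).trans (he κ t hκ ht)
    refine ne_top_of_le_ne_top ?_ h1
    rw [lintegral_const_mul' _ _ ENNReal.ofReal_ne_top]
    exact ENNReal.mul_ne_top ENNReal.ofReal_ne_top H29.dom_fin
  rw [H1.eav u h Mt Et MM EE hu hM hE hfin κ hκ0 hn]
  unfold H60K.PhiT
  rw [← integral_toReal]
  · refine setIntegral_congr_fun measurableSet_Ioi fun t ht => ?_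
    have ht' : 0 < t := ht
    show (ENNReal.ofReal (Real.exp (-(κ ^ 2 * t)) / t) * Vt u h Mt Et t).toReal
      = Real.exp (-(κ ^ 2 * t)) * (Vt u h Mt Et t).toReal / t
    rw [ENNReal.toReal_mul, ENNReal.toReal_ofReal (by positivity)]
    ring
  · refine (Measurable.mul ?_ hmeas).aemeasurable
    fun_prop
  · refine ae_lt_top' ?_ hn
    refine (Measurable.mul ?_ hmeas).aemeasurable
    fun_prop

theorem mem_E2 (η1 η2 δ1 δ2 ρ : ℝ) (x : HP) :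
    x ∈ ({lnU η1, lnD η2, lnN δ1 ρ, lnN δ2 ρ} : Finset HP)
      ↔ ∃ s ∈ ({0, 1} ∪ {2, 3} : Finset (Fin 4)), x = (uE η1 η2 δ1 δ2 s, hE δ1 δ2 ρ s) := by
  have e : ({0, 1} ∪ {2, 3} : Finset (Fin 4)) = {0, 1, 2, 3} := by decide
  rw [e]
  simp [uE, hE, lnU, lnD, lnN]

theorem mem_E1 (η1 η2 δ1 δ2 ρ : ℝ) (x : HP) :
    x ∈ ({lnU η1, lnN δ1 ρ, lnN δ2 ρ} : Finset HP)
      ↔ ∃ s ∈ ({0} ∪ {2, 3} : Finset (Fin 4)), x = (uE η1 η2 δ1 δ2 s, hE δ1 δ2 ρ s) := by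
  have e : ({0} ∪ {2, 3} : Finset (Fin 4)) = {0, 2, 3} := by decide
  rw [e]
  simp [uE, hE, lnU, lnN]

theorem mem_E1' (η1 η2 δ1 δ2 ρ : ℝ) (x : HP) :
    x ∈ ({lnD η2} : Finset HP)
      ↔ ∃ s ∈ ({1} : Finset (Fin 4)), x = (uE η1 η2 δ1 δ2 s, hE δ1 δ2 ρ s) := by
  simp [uE, hE, lnD]

/-- combination of the two estimates -/
theorem comb {D C κ L l' e2 A F G P : ℝ} {δ : ℝ} (hκ : 0 < κ) (h1 : |A - 2 * F|
    ≤ D * Real.exp (-(κ * l'))) (h2 : |F - G| ≤ C * Real.exp (-(κ * (L + e2))))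
    (h3 : P = 2 * G) (hl : L + δ ≤ l') (he : δ ≤ e2) :
    |A - P| ≤ (|D| + 2 * |C|) * Real.exp (-((L + δ) * κ)) := by
  have e1 : Real.exp (-(κ * l')) ≤ Real.exp (-((L + δ) * κ)) := by
    apply Real.exp_le_exp.2
    nlinarith
  have e2' : Real.exp (-(κ * (L + e2))) ≤ Real.exp (-((L + δ) * κ)) := by
    apply Real.exp_le_exp.2
    nlinarith
  have a1 : D * Real.exp (-(κ * l')) ≤ |D| * Real.exp (-((L + δ) * κ)) :=
    mul_le_mul (le_abs_self D) e1 (Real.exp_pos _).le (abs_nonneg D)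
  have a2 : C * Real.exp (-(κ * (L + e2))) ≤ |C| * Real.exp (-((L + δ) * κ)) :=
    mul_le_mul (le_abs_self C) e2' (Real.exp_pos _).le (abs_nonneg C)
  have e3 : A - P = (A - 2 * F) + 2 * (F - G) := by rw [h3]; ring
  rw [e3]
  calc |(A - 2 * F) + 2 * (F - G)| ≤ |A - 2 * F| + |2 * (F - G)| := abs_add_le _ _
    _ = |A - 2 * F| + 2 * |F - G| := by rw [abs_mul, abs_of_pos (by norm_num : (0 : ℝ) < 2)]
    _ ≤ |D| * Real.exp (-((L + δ) * κ)) + 2 * (|C| * Real.exp (-((L + δ) * κ))) := by linarith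
    _ = (|D| + 2 * |C|) * Real.exp (-((L + δ) * κ)) := by ring

theorem germE2 (geo : GeoStatement) (asm : AsmStatement) (ttx : TtxStatement) (pte : PteStatement)
    (fl : E.FluxE2Stmt) (fin : E.FinEStmt) : GermE2Stmt := by
  intro η1 η2 δ1 δ2 ρ a1 a2 a3 a4 b1 b2 b3 b4 b5 c r
  have hl : HyL δ1 δ2 ρ := ⟨b1, b2, b3, b4, b5, r⟩
  have hy : Hy2 η1 η2 δ1 δ2 ρ := ⟨hl, a1, a2, a3, a4, c⟩
  obtain ⟨p1, p2, p3, p4, p5, -⟩ := pte δ1 δ2 ρ hl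
  have hγ : gE δ1 δ2 + Real.pi / 2 < η1 + η2 := by unfold gE; linarith
  have hξ0 : 0 < xiE δ1 δ2 ρ := by unfold xiE; linarith
  have hξL : xiE δ1 δ2 ρ < LE δ1 δ2 ρ := by unfold xiE; linarith
  have hL : 0 < LE δ1 δ2 ρ := by linarith
  obtain ⟨ζg, hζg, Hg⟩ := geo.1 η1 η2 δ1 δ2 ρ hy
  obtain ⟨ζf, hζf, Hf⟩ := fl η1 η2 (gE δ1 δ2) (LE δ1 δ2 ρ) (xiE δ1 δ2 ρ) a1 a2 a3 a4 p1 hγ hξ0 hξL
  have hζ : 0 < min ζg ζf := lt_min hζg hζf
  obtain ⟨e1, δg, R, he1, hδg, HG⟩ := Hg (min ζg ζf / 2) (by positivity)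
    (by linarith [min_le_left ζg ζf])
  obtain ⟨e2, δf, he2, hδf, HF⟩ := Hf (min ζg ζf / 2) (by positivity)
    (by linarith [min_le_right ζg ζf])
  have hδ : 0 < min δg δf := lt_min hδg hδf
  have G4 := HG (min δg δf / 2) (by positivity) (by linarith [min_le_left δg δf])
  obtain ⟨cf, hcf, HF⟩ := HF (min δg δf / 2) (by positivity) (by linarith [min_le_right δg δf])
    (xiE δ1 δ2 ρ) (by rw [sub_self, abs_zero]; positivity)
  obtain ⟨ca, hca, HA⟩ := asm _ _ _ _ _ _ _ _ _ (e1 / 2) G4 (by positivity)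
  have hc : 0 < min cf ca := lt_min hcf hca
  obtain ⟨C, κ1, hκ1, HF⟩ := HF (min cf ca / 2) (by positivity) (by linarith [min_le_left cf ca])
  obtain ⟨D, κ2, hκ2, HA⟩ := HA (min cf ca / 2) (by positivity) (by linarith [min_le_right cf ca])
  refine ⟨|D| + 2 * |C|, min (e1 / 2) e2, by positivity, ?_⟩
  filter_upwards [eventually_ge_atTop 1, eventually_ge_atTop κ1, eventually_ge_atTop κ2]
    with κ k1 k2 k3
  have hκ : 0 < κ := by linarith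
  have hA := HA κ k3
  have hF := HF κ k2
  rw [lap_phi _ _ _ _ _ _ R G4.hu (mem_E2 η1 η2 δ1 δ2 ρ) (by simp) G4.hR G4.loc κ k1]
  have hT : ∫ t in Set.Ioi (min cf ca / 2 / κ), Real.exp (-(κ ^ 2 * t)) *
      TTG (uE η1 η2 δ1 δ2) (hE δ1 δ2 ρ) {0, 1} ∅ (CE δ1 δ2 ρ)
        (WE δ1 δ2 ρ (min δg δf / 2) (min ζg ζf / 2)) (min cf ca / 2 / κ) t
      = ∫ t in Set.Ioi (min cf ca / 2 / κ), Real.exp (-(κ ^ 2 * t)) *
      E.TTE η1 η2 (gE δ1 δ2) (LE δ1 δ2 ρ) {1, 2} ∅ (xiE δ1 δ2 ρ) (min δg δf / 2)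
        (min ζg ζf / 2) (min ζg ζf / 2) (min cf ca / 2 / κ) t := by
    refine setIntegral_congr_fun measurableSet_Ioi fun t ht => ?_
    have ht' : min cf ca / 2 / κ < t := ht
    show Real.exp (-(κ ^ 2 * t)) * TTG _ _ _ _ _ _ _ _ = Real.exp (-(κ ^ 2 * t)) * _
    rw [(ttx η1 η2 δ1 δ2 ρ (min δg δf / 2) (min ζg ζf / 2) (min cf ca / 2 / κ) t hl
      (by positivity) ht').1]
  rw [hT] at hA
  exact comb hκ (L := LE δ1 δ2 ρ) (l' := LE δ1 δ2 ρ + e1 - e1 / 2) hA hF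
    (fin.2 η1 η2 (gE δ1 δ2) (LE δ1 δ2 ρ) κ a1 a2 a3 a4 p1 hγ hL hκ)
    (by linarith [min_le_left (e1 / 2) e2]) (min_le_right _ _)

theorem germE1 (geo : GeoStatement) (asm : AsmStatement) (ttx : TtxStatement) (pte : PteStatement)
    (fl : E.FluxE1Stmt) (fin : E.FinEStmt) : GermE1Stmt := by
  intro η1 η2 δ1 δ2 ρ a1 a2 a3 b1 b2 b3 b4 b5 c r
  have hl : HyL δ1 δ2 ρ := ⟨b1, b2, b3, b4, b5, r⟩
  have hy : Hy1 η1 η2 δ1 δ2 ρ := ⟨hl, a1, a2, a3, c⟩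
  obtain ⟨p1, p2, p3, p4, p5, -⟩ := pte δ1 δ2 ρ hl
  have hγ : gE δ1 δ2 < η2 := c
  have hξ0 : 0 < xiE δ1 δ2 ρ := by unfold xiE; linarith
  have hξL : xiE δ1 δ2 ρ < LE δ1 δ2 ρ := by unfold xiE; linarith
  have hL : 0 < LE δ1 δ2 ρ := by linarith
  obtain ⟨ζg, hζg, Hg⟩ := geo.2 η1 η2 δ1 δ2 ρ hy
  obtain ⟨ζf, hζf, Hf⟩ := fl η1 η2 (gE δ1 δ2) (LE δ1 δ2 ρ) (xiE δ1 δ2 ρ) a1 a2 a3 p1 hγ hξ0 hξL
  have hζ : 0 < min ζg ζf := lt_min hζg hζf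
  obtain ⟨e1, δg, R, he1, hδg, HG⟩ := Hg (min ζg ζf / 2) (by positivity)
    (by linarith [min_le_left ζg ζf])
  obtain ⟨e2, δf, he2, hδf, HF⟩ := Hf (min ζg ζf / 2) (by positivity)
    (by linarith [min_le_right ζg ζf])
  have hδ : 0 < min δg δf := lt_min hδg hδf
  have G4 := HG (min δg δf / 2) (by positivity) (by linarith [min_le_left δg δf])
  obtain ⟨cf, hcf, HF⟩ := HF (min δg δf / 2) (by positivity) (by linarith [min_le_right δg δf])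
    (xiE δ1 δ2 ρ) (by rw [sub_self, abs_zero]; positivity)
  obtain ⟨ca, hca, HA⟩ := asm _ _ _ _ _ _ _ _ _ (e1 / 2) G4 (by positivity)
  have hc : 0 < min cf ca := lt_min hcf hca
  obtain ⟨C, κ1, hκ1, HF⟩ := HF (min cf ca / 2) (by positivity) (by linarith [min_le_left cf ca])
  obtain ⟨D, κ2, hκ2, HA⟩ := HA (min cf ca / 2) (by positivity) (by linarith [min_le_right cf ca])
  refine ⟨|D| + 2 * |C|, min (e1 / 2) e2, by positivity, ?_⟩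
  filter_upwards [eventually_ge_atTop 1, eventually_ge_atTop κ1, eventually_ge_atTop κ2]
    with κ k1 k2 k3
  have hκ : 0 < κ := by linarith
  have hA := HA κ k3
  have hF := HF κ k2
  rw [lap_phi _ _ _ _ _ _ R G4.hu (mem_E1 η1 η2 δ1 δ2 ρ) (mem_E1' η1 η2 δ1 δ2 ρ) G4.hR G4.loc
    κ k1]
  have hT : ∫ t in Set.Ioi (min cf ca / 2 / κ), Real.exp (-(κ ^ 2 * t)) *
      TTG (uE η1 η2 δ1 δ2) (hE δ1 δ2 ρ) {0} {1} (CE δ1 δ2 ρ)
        (WE δ1 δ2 ρ (min δg δf / 2) (min ζg ζf / 2)) (min cf ca / 2 / κ) t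
      = ∫ t in Set.Ioi (min cf ca / 2 / κ), Real.exp (-(κ ^ 2 * t)) *
      E.TTE η1 η2 (gE δ1 δ2) (LE δ1 δ2 ρ) {1} {2} (xiE δ1 δ2 ρ) (min δg δf / 2)
        (min ζg ζf / 2) (min ζg ζf / 2) (min cf ca / 2 / κ) t := by
    refine setIntegral_congr_fun measurableSet_Ioi fun t ht => ?_
    have ht' : min cf ca / 2 / κ < t := ht
    show Real.exp (-(κ ^ 2 * t)) * TTG _ _ _ _ _ _ _ _ = Real.exp (-(κ ^ 2 * t)) * _
    rw [(ttx η1 η2 δ1 δ2 ρ (min δg δf / 2) (min ζg ζf / 2) (min cf ca / 2 / κ) t hl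
      (by positivity) ht').2]
  rw [hT] at hA
  have h3 : -germE (LE δ1 δ2 ρ) (Real.pi / (η1 + η2)) η2 (gE δ1 δ2) κ
      = 2 * E.FE1 η1 η2 (gE δ1 δ2) (LE δ1 δ2 ρ) κ := by
    rw [fin.1 η1 η2 (gE δ1 δ2) (LE δ1 δ2 ρ) κ a1 a2 a3 p1 hγ hL hκ, neg_neg]
  have h4 := comb hκ (L := LE δ1 δ2 ρ) (l' := LE δ1 δ2 ρ + e1 - e1 / 2) (δ := min (e1 / 2) e2)
    hA hF h3 (by linarith [min_le_left (e1 / 2) e2]) (min_le_right _ _)
  refine le_trans (le_of_eq ?_) h4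
  rw [← abs_neg]
  congr 1
  show -(-H60K.PhiT _ κ - germE (LE δ1 δ2 ρ) (Real.pi / (η1 + η2)) η2 (gE δ1 δ2) κ) = _
  ring

end Pool.Agent.XQ.K4
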