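import Pool.Agent.Helper36_XQ.Defs4
import Pool.Agent.Helper44_BLK.Small
import Pool.Agent.Helper15_AEU3.Hpk

/-!
Squad AEU, Part III, module LAB: heat kernels with labels.
-/

namespace Pool.Agent.XQ.K4

open MeasureTheory Complex Filter Topology Pool.Agent.H62T Pool.Agent.H16F

/-! ### Moebius inversion -/

/-- Moebius transform -/
def mob (q : Finset (Fin 4) → ℝ) (A : Finset (Fin 4)) : ℝ :=
  ∑ B ∈ A.powerset, (-1 : ℝ) ^ B.card * q (Aᶜ ∪ B)

/-- its matrix -/
def mm (A D : Finset (Fin 4)) : ℤ := ∑ B ∈ A.powerset, if Aᶜ ∪ B = D then (-1 : ℤ) ^ B.card else 0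

theorem mob_mat (q : Finset (Fin 4) → ℝ) (A : Finset (Fin 4)) :
    mob q A = ∑ D, (mm A D : ℝ) * q D := by
  unfold mob mm
  push_cast
  simp only [Finset.sum_mul]
  rw [Finset.sum_comm]
  refine Finset.sum_congr rfl fun B _ => ?_
  rw [Finset.sum_eq_single (Aᶜ ∪ B)]
  · simp
  · intro D _ hD
    rw [if_neg (Ne.symm hD)]
    simp
  · intro h
    exact absurd (Finset.mem_univ _) h

theorem zm : ∀ B D : Finset (Fin 4), ∑ A, (if A ⊆ Bᶜ then (1 : ℤ) else 0) * mm A D
    = if B = D then 1 else 0 := by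
  decide +kernel

theorem mz : ∀ A D : Finset (Fin 4), ∑ B, mm A B * (if D ⊆ Bᶜ then (1 : ℤ) else 0)
    = if A = D then 1 else 0 := by
  decide +kernel

theorem sum_powerset_ite (K : Finset (Fin 4) → ℝ) (B : Finset (Fin 4)) :
    ∑ A ∈ B.powerset, K A = ∑ A, (((if A ⊆ B then (1 : ℤ) else 0) : ℤ) : ℝ) * K A := by
  rw [← Finset.sum_subset (Finset.subset_univ B.powerset)]
  · refine Finset.sum_congr rfl fun A hA => ?_
    rw [if_pos (Finset.mem_powerset.mp hA)]
    simp
  · intro A _ hA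
    rw [if_neg (fun h => hA (Finset.mem_powerset.mpr h))]
    simp

theorem zeta_mob (q : Finset (Fin 4) → ℝ) (B : Finset (Fin 4)) :
    q B = ∑ A ∈ Bᶜ.powerset, mob q A := by
  rw [sum_powerset_ite]
  simp only [mob_mat, Finset.mul_sum]
  rw [Finset.sum_comm]
  have : ∀ D, ∑ A, (((if A ⊆ Bᶜ then (1 : ℤ) else 0) : ℤ) : ℝ) * ((mm A D : ℝ) * q D)
      = (((if B = D then 1 else 0 : ℤ)) : ℝ) * q D := by
    intro D
    rw [← zm B D]
    push_cast
    rw [Finset.sum_mul]
    refine Finset.sum_congr rfl fun A _ => ?_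
    ring
  simp only [this]
  rw [Finset.sum_eq_single B]
  · simp
  · intro D _ hD
    rw [if_neg (Ne.symm hD)]
    simp
  · intro h
    exact absurd (Finset.mem_univ _) h

theorem mob_zeta (K : Finset (Fin 4) → ℝ) (A : Finset (Fin 4)) :
    mob (fun B => ∑ A' ∈ Bᶜ.powerset, K A') A = K A := by
  rw [mob_mat]
  simp only [sum_powerset_ite, Finset.mul_sum]
  rw [Finset.sum_comm]
  have : ∀ D, ∑ B, (mm A B : ℝ) * ((((if D ⊆ Bᶜ then (1 : ℤ) else 0) : ℤ) : ℝ) * K D)
      = (((if A = D then 1 else 0 : ℤ)) : ℝ) * K D := by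
    intro D
    rw [← mz A D]
    push_cast
    rw [Finset.sum_mul]
    refine Finset.sum_congr rfl fun B _ => ?_
    ring
  simp only [this]
  rw [Finset.sum_eq_single A]
  · simp
  · intro D _ hD
    rw [if_neg (Ne.symm hD)]
    simp
  · intro h
    exact absurd (Finset.mem_univ _) h

/-- the Moebius transform of a product -/
theorem mob_mul (q q' : Finset (Fin 4) → ℝ) (A : Finset (Fin 4)) :
    mob (fun B => q B * q' B) A
      = ∑ A₁, ∑ A₂, if A₁ ∪ A₂ = A then mob q A₁ * mob q' A₂ else 0 := by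
  rw [← mob_zeta (fun A => ∑ A₁, ∑ A₂, if A₁ ∪ A₂ = A then mob q A₁ * mob q' A₂ else 0) A]
  congr 1
  funext B
  have e1 : q B * q' B = ∑ A₁ ∈ Bᶜ.powerset, ∑ A₂ ∈ Bᶜ.powerset, mob q A₁ * mob q' A₂ := by
    conv_lhs => rw [zeta_mob q B, zeta_mob q' B]
    rw [Finset.sum_mul_sum]
  rw [e1]
  have e2 : ∑ A' ∈ Bᶜ.powerset, ∑ A₁, ∑ A₂,
      (if A₁ ∪ A₂ = A' then mob q A₁ * mob q' A₂ else 0)
      = ∑ A₁, ∑ A₂, ∑ A' ∈ Bᶜ.powerset, (if A₁ ∪ A₂ = A' then mob q A₁ * mob q' A₂ else 0) := by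
    rw [Finset.sum_comm]
    refine Finset.sum_congr rfl fun A₁ _ => ?_
    rw [Finset.sum_comm]
  rw [e2]
  have e3 : ∀ A₁ A₂ : Finset (Fin 4), ∑ A' ∈ Bᶜ.powerset,
      (if A₁ ∪ A₂ = A' then mob q A₁ * mob q' A₂ else 0)
      = if A₁ ∈ Bᶜ.powerset ∧ A₂ ∈ Bᶜ.powerset then mob q A₁ * mob q' A₂ else 0 := by
    intro A₁ A₂
    rw [Finset.sum_ite_eq]
    refine if_congr ?_ rfl rfl
    rw [Finset.mem_powerset, Finset.mem_powerset, Finset.mem_powerset, Finset.union_subset_iff]
  simp only [e3]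
  rw [← Finset.sum_subset (Finset.subset_univ Bᶜ.powerset)]
  · refine Finset.sum_congr rfl fun A₁ hA₁ => ?_
    rw [← Finset.sum_subset (Finset.subset_univ Bᶜ.powerset)]
    · refine Finset.sum_congr rfl fun A₂ hA₂ => ?_
      rw [if_pos ⟨hA₁, hA₂⟩]
    · intro A₂ _ hA₂
      rw [if_neg (fun h => hA₂ h.2)]
  · intro A₁ _ hA₁
    refine Finset.sum_eq_zero fun A₂ _ => ?_
    rw [if_neg (fun h => hA₁ h.1)]

theorem mob_nonneg_mul (q q' : Finset (Fin 4) → ℝ) (h : ∀ A, 0 ≤ mob q A)
    (h' : ∀ A, 0 ≤ mob q' A) (A : Finset (Fin 4)) : 0 ≤ mob (fun B => q B * q' B) A := by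
  rw [mob_mul]
  refine Finset.sum_nonneg fun A₁ _ => Finset.sum_nonneg fun A₂ _ => ?_
  split_ifs
  · exact mul_nonneg (h A₁) (h' A₂)
  · exact le_rfl

/-- Moebius transform of an integral -/
theorem mob_integral (f : Finset (Fin 4) → ℂ → ℝ) (hf : ∀ B, Integrable (f B))
    (A : Finset (Fin 4)) : mob (fun B => ∫ z, f B z) A = ∫ z, mob (fun B => f B z) A := by
  unfold mob
  rw [integral_finsetSum]
  · refine Finset.sum_congr rfl fun B _ => ?_
    rw [integral_const_mul]
  · intro B _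
    exact (hf _).const_mul _

/-! ### Label kernels -/

variable (u : Fin 4 → ℂ) (h : Fin 4 → ℝ)

theorem dm_open (B : Finset (Fin 4)) : IsOpen (Dm u h B) := by
  have : Dm u h B = ⋂ s ∈ B, {x | ip (u s) x < h s} := by
    ext x
    simp [Dm]
  rw [this]
  refine isOpen_biInter_finset fun s _ => ?_
  have hc : Continuous fun x => ip (u s) x := by
    unfold ip
    fun_prop
  exact isOpen_lt hc continuous_const

theorem ker_mob_nonneg (m : ℕ) : ∀ t : ℝ, 0 < t → ∀ x y A,
    0 ≤ mob (fun B => Ker (Dm u h B) m t x y) A := by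
  induction m with
  | zero =>
    intro t ht x y A
    -- the labels of the end points
    set S : Finset (Fin 4) := Finset.univ.filter
      (fun s => ¬ (ip (u s) x < h s ∧ ip (u s) y < h s)) with hS
    have e : ∀ B, Ker (Dm u h B) 0 t x y
        = ∑ A' ∈ Bᶜ.powerset, (if A' = S then G t (x - y) else 0) := by
      intro B
      rw [Finset.sum_ite_eq']
      show (Dm u h B).indicator (fun _ => (1 : ℝ)) x * (Dm u h B).indicator (fun _ => (1 : ℝ)) y
        * G t (x - y) = _
      have h1 : S ∈ Bᶜ.powerset ↔ x ∈ Dm u h B ∧ y ∈ Dm u h B := by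
        rw [Finset.mem_powerset]
        constructor
        · intro hs
          refine ⟨fun s hsB => ?_, fun s hsB => ?_⟩
          · by_contra hc
            have : s ∈ S := Finset.mem_filter.mpr ⟨Finset.mem_univ _, fun h => hc h.1⟩
            exact (Finset.mem_compl.mp (hs this)) hsB
          · by_contra hc
            have : s ∈ S := Finset.mem_filter.mpr ⟨Finset.mem_univ _, fun h => hc h.2⟩
            exact (Finset.mem_compl.mp (hs this)) hsB
        · rintro ⟨h1, h2⟩ s hs
          rw [Finset.mem_compl]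
          intro hsB
          exact (Finset.mem_filter.mp hs).2 ⟨h1 s hsB, h2 s hsB⟩
      by_cases h2 : S ∈ Bᶜ.powerset
      · rw [if_pos h2]
        have h3 := h1.mp h2
        rw [Set.indicator_of_mem h3.1, Set.indicator_of_mem h3.2]
        ring
      · rw [if_neg h2]
        rw [h1, not_and_or] at h2
        rcases h2 with h3 | h3
        · rw [Set.indicator_of_notMem h3]
          ring
        · rw [Set.indicator_of_notMem h3]
          ring
    have e2 : (fun B => Ker (Dm u h B) 0 t x y) = fun B : Finset (Fin 4) =>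
        ∑ A' ∈ Bᶜ.powerset, (if A' = S then G t (x - y) else 0) := funext e
    rw [e2, mob_zeta]
    split_ifs
    · exact H41.G_nonneg ht _
    · exact le_rfl
  | succ m ih =>
    intro t ht x y A
    have e : (fun B => Ker (Dm u h B) (m + 1) t x y) = fun B =>
        ∫ z, Ker (Dm u h B) m (t / 2) x z * Ker (Dm u h B) m (t / 2) z y := rfl
    rw [e, mob_integral _ (fun B => H41.ker_integrable _ (dm_open u h B) m (t / 2) (half_pos ht)
      x y)]
    refine integral_nonneg fun z => ?_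
    exact mob_nonneg_mul _ _ (ih (t / 2) (half_pos ht) x z) (ih (t / 2) (half_pos ht) z y) A

theorem kA_nonneg {t : ℝ} (ht : 0 < t) (x y : ℂ) (A : Finset (Fin 4)) : 0 ≤ kA u h A t x y := by
  have hlim : Tendsto (fun m => mob (fun B => Ker (Dm u h B) m t x y) A) atTop
      (𝓝 (kA u h A t x y)) := by
    unfold mob kA pB
    refine tendsto_finsetSum _ fun B _ => ?_
    exact (H8.pD_tendsto (dm_open u h _) ht x y).const_mul _
  exact ge_of_tendsto' hlim fun m => ker_mob_nonneg u h m t ht x y A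

theorem kA_meas (A : Finset (Fin 4)) :
    Measurable (fun p : ℝ × ℂ × ℂ => kA u h A p.1 p.2.1 p.2.2) := by
  unfold kA pB
  refine Finset.measurable_fun_sum _ fun B _ => ?_
  exact (H8.pD_meas (dm_open u h _)).const_mul _

theorem pB_eq (B : Finset (Fin 4)) (t : ℝ) (x y : ℂ) :
    pB u h B t x y = ∑ A ∈ Bᶜ.powerset, kA u h A t x y :=
  zeta_mob (fun B => pB u h B t x y) B

theorem alt_sum (M A : Finset (Fin 4)) :
    ∑ B ∈ M.powerset, (if Disjoint A B then (-1 : ℤ) ^ B.card else 0)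
      = if M ⊆ A then 1 else 0 := by
  revert M A
  decide +kernel

theorem kME_eq {M E : Finset (Fin 4)} (t : ℝ) (x y : ℂ) :
    kME u h M E t x y
      = ∑ A ∈ (Eᶜ).powerset.filter (fun A => M ⊆ A), kA u h A t x y := by
  unfold kME
  have e : ∀ B, pB u h (E ∪ B) t x y
      = ∑ A ∈ (Eᶜ).powerset, if Disjoint A B then kA u h A t x y else 0 := by
    intro B
    rw [pB_eq, ← Finset.sum_filter]
    refine Finset.sum_congr ?_ fun _ _ => rfl
    ext A
    rw [Finset.mem_filter, Finset.mem_powerset, Finset.mem_powerset, Finset.compl_union,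
      Finset.subset_inter_iff, Finset.disjoint_iff_inter_eq_empty, Finset.subset_compl_iff_disjoint_right,
      Finset.subset_compl_iff_disjoint_right, Finset.disjoint_iff_inter_eq_empty (s := A) (t := B)]
  simp only [e, Finset.mul_sum]
  rw [Finset.sum_comm, Finset.sum_filter]
  refine Finset.sum_congr rfl fun A _ => ?_
  have e2 : ∀ B : Finset (Fin 4), (-1 : ℝ) ^ B.card * (if Disjoint A B then kA u h A t x y else 0)
      = (((if Disjoint A B then (-1 : ℤ) ^ B.card else 0) : ℤ) : ℝ) * kA u h A t x y := by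
    intro B
    split_ifs <;> simp
  simp only [e2]
  rw [← Finset.sum_mul]
  have := alt_sum M A
  have h3 : ∑ B ∈ M.powerset, (((if Disjoint A B then (-1 : ℤ) ^ B.card else 0) : ℤ) : ℝ)
      = (((if M ⊆ A then 1 else 0) : ℤ) : ℝ) := by
    rw [← this]
    push_cast
    rfl
  rw [h3]
  split_ifs <;> simp

theorem kA_le_pB (A : Finset (Fin 4)) {t : ℝ} (ht : 0 < t) (x y : ℂ) :
    kA u h A t x y ≤ G t (x - y) := by
  have h1 := pB_eq u h ∅ t x y
  have h2 : pB u h ∅ t x y = G t (x - y) := by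
    unfold pB
    have : Dm u h ∅ = Set.univ := by
      ext x
      simp [Dm]
    rw [this]
    exact H60K.H44.uni t x y ht
  rw [h2] at h1
  rw [h1]
  refine Finset.single_le_sum (f := fun A => kA u h A t x y)
    (fun A _ => kA_nonneg u h ht x y A) ?_
  simp

theorem kA_le_vis (A : Finset (Fin 4)) (s : Fin 4) (hs : s ∈ A) {t : ℝ} (ht : 0 < t) (x y : ℂ) :
    kA u h A t x y ≤ G t (x - y) - pB u h {s} t x y := by
  have h1 := pB_eq u h ∅ t x y
  have h2 : pB u h ∅ t x y = G t (x - y) := by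
    unfold pB
    have : Dm u h ∅ = Set.univ := by
      ext x
      simp [Dm]
    rw [this]
    exact H60K.H44.uni t x y ht
  rw [h2] at h1
  rw [h1, pB_eq u h {s} t x y]
  have h3 : insert A ({s}ᶜ : Finset (Fin 4)).powerset ⊆ (∅ᶜ : Finset (Fin 4)).powerset := by
    intro B _
    simp
  have h4 : A ∉ ({s}ᶜ : Finset (Fin 4)).powerset := by
    rw [Finset.mem_powerset]
    intro hc
    have := hc hs
    simp at this
  have h5 := Finset.sum_le_sum_of_subset_of_nonneg (f := fun A => kA u h A t x y) h3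
    (fun B _ _ => kA_nonneg u h ht x y B)
  rw [Finset.sum_insert h4] at h5
  linarith

/-- module LAB -/
theorem lab (u : Fin 4 → ℂ) (h : Fin 4 → ℝ) (hu : ∀ s, ‖u s‖ = 1) :
    (∀ A, Measurable (fun p : ℝ × ℂ × ℂ => kA u h A p.1 p.2.1 p.2.2)) ∧
    ∀ (t : ℝ) (x y : ℂ), 0 < t →
    (∀ A, 0 ≤ kA u h A t x y) ∧
    (∀ B, pB u h B t x y = ∑ A ∈ Bᶜ.powerset, kA u h A t x y) ∧
    (∀ M E, Disjoint M E →
      kME u h M E t x y = ∑ A ∈ (Eᶜ).powerset.filter (fun A => M ⊆ A), kA u h A t x y) ∧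
    (∀ A, kA u h A t x y = kA u h A t y x) ∧
    (∀ A, kA u h A t x y ≤ Real.exp (-(bl u h A x y) ^ 2 / (4 * t)) / (4 * Real.pi * t)) ∧
    ∀ A s, s ∉ A → kA u h A t x y ≠ 0 → ip (u s) x < h s ∧ ip (u s) y < h s := by
  have hpk := H60K.H15.hpk
  refine ⟨kA_meas u h, fun t x y ht => ⟨kA_nonneg u h ht x y, fun B => pB_eq u h B t x y,
    fun M E _ => kME_eq u h t x y, fun A => ?_, fun A => ?_, fun A s hs hne => ?_⟩⟩
  · unfold kA pB
    refine Finset.sum_congr rfl fun B _ => ?_
    rw [((H8.pdk _ (dm_open u h (Aᶜ ∪ B))).2 t ht).2.2.1 x y]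
  · -- the bound for one label
    have key : ∀ s : Fin 4, kA u h A t x y
        ≤ Real.exp (-(if s ∈ A then dd u h s x y else ‖x - y‖) ^ 2 / (4 * t))
          / (4 * Real.pi * t) := by
      intro s
      split_ifs with hs
      · have h1 := kA_le_vis u h A s hs ht x y
        unfold dd
        split_ifs with hxy
        · have h2 : pB u h {s} t x y = G t (x - y) - G t (x - rf u h s y) := by
            unfold pB
            have : Dm u h {s} = {z | ip (u s) z < h s} := by
              ext z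
              simp [Dm]
            rw [this, hpk (u s) (h s) t x y (hu s) ht hxy.1 hxy.2]
            rfl
          rw [h2] at h1
          have : G t (x - rf u h s y)
            = Real.exp (-‖x - rf u h s y‖ ^ 2 / (4 * t)) / (4 * Real.pi * t) := rfl
          linarith
        · have := kA_le_pB u h A ht x y
          exact this
      · exact kA_le_pB u h A ht x y
    obtain ⟨s, -, hs⟩ := Finset.exists_mem_eq_sup' (s := (Finset.univ : Finset (Fin 4)))
      Finset.univ_nonempty (fun s : Fin 4 => if s ∈ A then dd u h s x y else ‖x - y‖)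
    unfold bl
    rw [hs]
    exact key s
  · have hz : ∀ z : ℂ, ¬ ip (u s) z < h s → ∀ B : Finset (Fin 4), z ∉ Dm u h (Aᶜ ∪ B) := by
      intro z hz B hm
      exact hz (hm s (Finset.mem_union_left _ (Finset.mem_compl.mpr hs)))
    by_contra hc
    apply hne
    unfold kA pB
    refine Finset.sum_eq_zero fun B _ => ?_
    rw [not_and_or] at hc
    rw [((H8.pdk _ (dm_open u h (Aᶜ ∪ B))).2 t ht).2.1 x y (hc.imp (fun h => hz x h B)
      (fun h => hz y h B)), mul_zero]

end Pool.Agent.XQ.K4
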