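import Pool.Agent.Helper36_XQ.Stmt5r

/-!
Squad XQ (MP_5b0138_an), part E4, module RCR: comparison of the masses (helper36).
-/

set_option autoImplicit false

namespace Pool.Agent.XQ.K4.H36

open MeasureTheory Complex Filter Topology ProbabilityTheory Pool.Agent.H16Iso Pool.Agent.H62T
  Pool.Agent.H16F Pool.Agent.H38KL Pool.Agent.AEU Pool.Agent.XQ.K4
open scoped ENNReal NNReal

/-! ### General masses -/

open Classical in
/-- mass of a set for a general density -/
noncomputable def Mg {n : ℕ} (w : (Fin n → Finset (Fin 4)) → (Fin n → ℂ) → ℝ≥0∞)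
    (S : (Fin n → ℂ) → (Fin n → Finset (Fin 4)) → Prop) : ℝ≥0∞ :=
  ∑ A, ∫⁻ x, if S x A then w A x else 0

theorem Mg_mono {n : ℕ} (w : (Fin n → Finset (Fin 4)) → (Fin n → ℂ) → ℝ≥0∞)
    {S S' : (Fin n → ℂ) → (Fin n → Finset (Fin 4)) → Prop} (hS : ∀ x A, S x A → S' x A) :
    Mg w S ≤ Mg w S' := by
  classical
  unfold Mg
  refine Finset.sum_le_sum fun A _ => lintegral_mono fun x => ?_
  show (if S x A then w A x else 0) ≤ if S' x A then w A x else 0
  by_cases h1 : S x A
  · rw [if_pos h1, if_pos (hS x A h1)]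
  · rw [if_neg h1]
    exact zero_le

theorem Mg_congr {n : ℕ} (w : (Fin n → Finset (Fin 4)) → (Fin n → ℂ) → ℝ≥0∞)
    {S S' : (Fin n → ℂ) → (Fin n → Finset (Fin 4)) → Prop} (hS : ∀ x A, S x A ↔ S' x A) :
    Mg w S = Mg w S' :=
  le_antisymm (Mg_mono w fun x A => (hS x A).1) (Mg_mono w fun x A => (hS x A).2)

theorem Mg_le_add {n : ℕ} (w : (Fin n → Finset (Fin 4)) → (Fin n → ℂ) → ℝ≥0∞)
    (hw : ∀ A, Measurable (w A))
    {S S1 S2 : (Fin n → ℂ) → (Fin n → Finset (Fin 4)) → Prop}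
    (hS1 : ∀ A, MeasurableSet {x | S1 x A})
    (h1 : ∀ x A, S x A → S1 x A ∨ S2 x A) :
    Mg w S ≤ Mg w S1 + Mg w S2 := by
  classical
  unfold Mg
  rw [← Finset.sum_add_distrib]
  refine Finset.sum_le_sum fun A _ => ?_
  rw [← lintegral_add_left]
  · refine lintegral_mono fun x => ?_
    show (if S x A then w A x else 0) ≤ (if S1 x A then w A x else 0)
      + if S2 x A then w A x else 0
    by_cases c : S x A
    · rw [if_pos c]
      rcases h1 x A c with h | h
      · rw [if_pos h]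
        exact le_self_add
      · rw [if_pos h]
        exact le_add_self
    · rw [if_neg c]
      exact zero_le
  · exact Measurable.ite (hS1 A) (hw A) measurable_const

variable (u : Fin 4 → ℂ) (h : Fin 4 → ℝ)

theorem Ms_eq {n : ℕ} [NeZero n] (τ : Fin n → ℝ)
    (S : (Fin n → ℂ) → (Fin n → Finset (Fin 4)) → Prop) :
    Ms u h τ S = Mg (fun A x => ENNReal.ofReal (wt u h τ x A)) S := rfl

open Classical in
/-- density of the virtual masses -/
noncomputable def wv {n : ℕ} [NeZero n] (τ : Fin n → ℝ) (A : Fin n → Finset (Fin 4))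
    (x : Fin n → ℂ) : ℝ≥0∞ := if A 0 = ∅ then ENNReal.ofReal (wtv u h τ x A) else 0

theorem Mvr_eq {n : ℕ} [NeZero n] (τ : Fin n → ℝ)
    (S : (Fin n → ℂ) → (Fin n → Finset (Fin 4)) → Prop) :
    Mvr u h τ S = Mg (wv u h τ) S := by
  classical
  unfold Mvr Mg wv
  refine Finset.sum_congr rfl fun A _ => lintegral_congr fun x => ?_
  by_cases c1 : A 0 = ∅
  · by_cases c2 : S x A
    · rw [if_pos ⟨c1, c2⟩, if_pos c2, if_pos c1]
    · rw [if_neg c2, if_neg]
      exact fun h => c2 h.2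
  · by_cases c2 : S x A
    · rw [if_pos c2, if_neg c1, if_neg]
      exact fun h => c1 h.1
    · rw [if_neg c2, if_neg]
      exact fun h => c1 h.1

theorem wt_meas {n : ℕ} [NeZero n] (τ : Fin n → ℝ) (A : Fin n → Finset (Fin 4)) :
    Measurable fun x => wt u h τ x A := by
  unfold wt
  refine Finset.measurable_fun_prod _ fun j _ => ?_
  exact kA_meas_comp u h (A j) measurable_const (measurable_pi_apply j)
    (measurable_pi_apply (j + 1))

theorem wtv_meas {n : ℕ} [NeZero n] (τ : Fin n → ℝ) (A : Fin n → Finset (Fin 4)) :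
    Measurable fun x => wtv u h τ x A := by
  classical
  unfold wtv
  have hG : Measurable fun z : ℂ => G (τ 0) z := by
    unfold G
    fun_prop
  refine (hG.comp ((measurable_pi_apply 0).sub (measurable_pi_apply 1))).mul ?_
  refine Finset.measurable_fun_prod _ fun j _ => ?_
  have e1 : Measurable fun x : Fin n → ℂ => inv4 u h x j := by
    unfold inv4
    by_cases hj : j = 1
    · simp only [if_pos hj]
      exact (measurable_rf u h 3).comp (measurable_pi_apply 1)
    · simp only [if_neg hj]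
      exact measurable_pi_apply j
  have e2 : Measurable fun x : Fin n → ℂ => fnv4 u h x j := by
    unfold fnv4
    by_cases hj : j + 1 = 0
    · simp only [if_pos hj]
      exact (measurable_rf u h 2).comp (measurable_pi_apply 0)
    · simp only [if_neg hj]
      exact measurable_pi_apply (j + 1)
  exact kA_meas_comp _ _ (A j) measurable_const e1 e2

theorem wv_meas {n : ℕ} [NeZero n] (τ : Fin n → ℝ) (A : Fin n → Finset (Fin 4)) :
    Measurable (wv u h τ A) := by
  unfold wv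
  by_cases c : A 0 = ∅
  · simp only [if_pos c]
    exact (wtv_meas u h τ A).ennreal_ofReal
  · simp only [if_neg c]
    exact measurable_const

theorem meas_PS {n : ℕ} [NeZero n] (P : (Fin n → Finset (Fin 4)) → Prop) (S : ℂ → ℂ → Prop)
    (hS : MeasurableSet {p : ℂ × ℂ | S p.1 p.2}) (A : Fin n → Finset (Fin 4)) :
    MeasurableSet {x : Fin n → ℂ | P A ∧ S (x 0) (x 1)} := by
  by_cases c : P A
  · have h1 : {x : Fin n → ℂ | P A ∧ S (x 0) (x 1)}
        = (fun x : Fin n → ℂ => (x 0, x 1)) ⁻¹' {p : ℂ × ℂ | S p.1 p.2} := by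
      ext x
      simp [c]
    rw [h1]
    exact hS.preimage ((measurable_pi_apply 0).prodMk (measurable_pi_apply 1))
  · have h1 : {x : Fin n → ℂ | P A ∧ S (x 0) (x 1)} = ∅ := by
      ext x
      simp [c]
    rw [h1]
    exact MeasurableSet.empty

theorem rcr (r2s : R2sStatement) (rma : RmaStatement) (rco : RcoStatement) : RcrStatement := by
  classical
  intro u h n inst τ O E S hu hn hτ hOn hO hE hS hS1
  obtain ⟨m, rfl⟩ : ∃ m, n = m + 2 := ⟨n - 2, by omega⟩
  obtain ⟨c1, -, c3, c4⟩ := rco O E m hOn hO hE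
  have hs : ∑ j : Fin (m + 1), τ j.succ = ∑ j, τ j - τ 0 := by
    rw [Fin.sum_univ_succ τ]
    ring
  have hτ' : ∀ j : Fin (m + 1), 0 < τ j.succ := fun j => hτ _
  -- the mass of the event P2
  have eP : Ms u h τ (fun x A => P2 O E A ∧ S (x 0) (x 1))
      = Mvr u h τ (fun x A => P2 O E A ∧ S (x 0) (x 1)) := by
    have e1 : Ms u h τ (fun x A => P2 O E A ∧ S (x 0) (x 1))
        = Ms u h τ (fun x A => Pt O E m (fun j => A j.succ) ∧ S (x 0) (x 1)) := by
      rw [Ms_eq, Ms_eq]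
      exact Mg_congr _ fun x A => by rw [c1]
    have e2 : Mvr u h τ (fun x A => P2 O E A ∧ S (x 0) (x 1))
        = Mvr u h τ (fun x A => Pt O E m (fun j => A j.succ) ∧ S (x 0) (x 1)) := by
      rw [Mvr_eq, Mvr_eq]
      exact Mg_congr _ fun x A => by rw [c1]
    obtain ⟨f1, f2⟩ := rma.1 u h m (Pt O E m) S τ hu hτ hS
    rw [e1, e2, f1, f2]
    refine lintegral_congr fun x => lintegral_congr fun y => ?_
    by_cases c : S x y
    · rw [if_pos c, if_pos c, r2s u h O E m (fun j => τ j.succ) y x hu hOn hO hE hτ'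
        (hS1 x y c).2.2 (hS1 x y c).1.1]
    · rw [if_neg c, if_neg c]
  have eK : LKr u h O E (τ 0) (∑ j, τ j) S
      = Mvr u h τ (fun x A => Vis O E (fun j : Fin (m + 1) => A j.succ) ∧ S (x 0) (x 1)) := by
    rw [(rma.1 u h m (fun A => Vis O E A) S τ hu hτ hS).2]
    unfold LKr
    refine lintegral_congr fun x => lintegral_congr fun y => ?_
    by_cases c : S x y
    · rw [if_pos c, if_pos c, rma.2 u h O E m (fun j => τ j.succ) _ _ hu hO hE hτ', hs]
    · rw [if_neg c, if_neg c]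
  have j0 : Ms u h τ (fun x A => (F4 O A ∧ ∀ j, Disjoint (A j) E) ∧ S (x 0) (x 1))
      ≤ Ms u h τ (fun x A => P2 O E A ∧ S (x 0) (x 1)) := by
    rw [Ms_eq, Ms_eq]
    exact Mg_mono _ fun x A hx => ⟨(c3 A).1.2 (Or.inl hx.1), hx.2⟩
  have j1 : Ms u h τ (fun x A => P2 O E A ∧ S (x 0) (x 1))
      ≤ Ms u h τ (fun x A => (F4 O A ∧ ∀ j, Disjoint (A j) E) ∧ S (x 0) (x 1))
        + Ms u h τ (fun x A => B1 O E A ∧ S (x 0) (x 1)) := by
    rw [Ms_eq, Ms_eq, Ms_eq]
    refine Mg_le_add _ (fun A => (wt_meas u h τ A).ennreal_ofReal)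
      (fun A => meas_PS (fun A => F4 O A ∧ ∀ j, Disjoint (A j) E) S hS A) fun x A hx => ?_
    rcases (c3 A).1.1 hx.1 with hb | hb
    · exact Or.inl ⟨hb, hx.2⟩
    · exact Or.inr ⟨hb, hx.2⟩
  have j2 : Mvr u h τ (fun x A => P2 O E A ∧ S (x 0) (x 1))
      ≤ Mvr u h τ (fun x A => Vis O E (fun j : Fin (m + 1) => A j.succ) ∧ S (x 0) (x 1))
        + Mvr u h τ (fun x A => B2 O E A ∧ S (x 0) (x 1)) := by
    rw [Mvr_eq, Mvr_eq, Mvr_eq]
    refine Mg_le_add _ (wv_meas u h τ)
      (fun A => meas_PS (fun A => Vis O E (fun j : Fin (m + 1) => A j.succ)) S hS A)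
      fun x A hx => ?_
    rcases (c4 A).1 hx.1 with hb | hb
    · exact Or.inl ⟨hb, hx.2⟩
    · exact Or.inr ⟨hb, hx.2⟩
  have j3 : Mvr u h τ (fun x A => Vis O E (fun j : Fin (m + 1) => A j.succ) ∧ S (x 0) (x 1))
      ≤ Mvr u h τ (fun x A => P2 O E A ∧ S (x 0) (x 1))
        + Mvr u h τ (fun x A => B2 O E A ∧ S (x 0) (x 1)) := by
    rw [Mvr_eq, Mvr_eq, Mvr_eq]
    refine Mg_le_add _ (wv_meas u h τ)
      (fun A => meas_PS (fun A => P2 O E A) S hS A) fun x A hx => ?_
    rcases (c4 A).2 hx.1 with hb | hb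
    · exact Or.inl ⟨hb, hx.2⟩
    · exact Or.inr ⟨hb, hx.2⟩
  constructor
  · rw [eK]
    exact (j0.trans (le_of_eq eP)).trans j2
  · rw [eK]
    refine j3.trans ?_
    rw [← eP]
    gcongr

end Pool.Agent.XQ.K4.H36
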