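import Pool.Agent.Helper36_XQ.Ldm4
import Pool.Agent.Helper36_XQ.Vex4
import Pool.Agent.Helper16_XQ.Ana

/-!
Squad XQ (MP_5b0138_an), part A, modules G3 and G4 (`Germ3Stmt`, `Germ4Stmt` of `Helper16_XQ.Ana`):
two-sided bounds for the loops around two corners.  Statements of the modules (helper36).  The plan is
`/team-store/XQ_planG34.md`.

A loop is divided into three arcs by three windows `S 0`, `S 1`, `S 2`: arc `0` from `S 0` to `S 1`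
turns at the corner `w`, arc `1` from `S 1` to `S 2` is free (G3) or reflected in one line (G4), and
arc `2` from `S 2` to `S 0` turns at the corner `v = 0`.
-/

set_option autoImplicit false

namespace Pool.Agent.XQ.K4

open MeasureTheory Complex Filter Topology ProbabilityTheory Pool.Agent.H16Iso Pool.Agent.H62T
  Pool.Agent.H16F Pool.Agent.H38KL Pool.Agent.AEU
open scoped ENNReal NNReal

/-! ### Three arcs -/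

/-- rotation of the indices -/
def rot {n : ℕ} [NeZero n] {β : Type} (j : Fin n) (f : Fin n → β) (i : Fin n) : β := f (i + j)

/-- the opposite order of the arcs -/
def rv {β : Type} (f : Fin 3 → β) : Fin 3 → β := ![f 2, f 1, f 0]

/-- the windows in the opposite order -/
def rvw (S : Fin 3 → Set ℂ) : Fin 3 → Set ℂ := ![S 0, S 2, S 1]

/-- the configuration consists of three arcs: arc `0` (blocks `0, …, a - 1`) from the window `S 0`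
to the window `S 1`, arc `1` (blocks `a, …, b - 1`) from `S 1` to `S 2`, arc `2` (blocks
`b, …, n - 1`) from `S 2` to `S 0`; on arc `i` all labels in `M i` are visited and none in `E i` -/
def PA {n : ℕ} [NeZero n] (M E : Fin 3 → Finset (Fin 4)) (S : Fin 3 → Set ℂ) (a b : ℕ)
    (x : Fin n → ℂ) (A : Fin n → Finset (Fin 4)) : Prop :=
  x 0 ∈ S 0 ∧ x (Fin.ofNat n a) ∈ S 1 ∧ x (Fin.ofNat n b) ∈ S 2 ∧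
    ((∀ s ∈ M 0, ∃ l : ℕ, l < a ∧ s ∈ A (Fin.ofNat n l)) ∧
      ∀ l : ℕ, l < a → Disjoint (A (Fin.ofNat n l)) (E 0)) ∧
    ((∀ s ∈ M 1, ∃ l : ℕ, a ≤ l ∧ l < b ∧ s ∈ A (Fin.ofNat n l)) ∧
      ∀ l : ℕ, a ≤ l → l < b → Disjoint (A (Fin.ofNat n l)) (E 1)) ∧
    (∀ s ∈ M 2, ∃ l : ℕ, b ≤ l ∧ l < n ∧ s ∈ A (Fin.ofNat n l)) ∧
      ∀ l : ℕ, b ≤ l → l < n → Disjoint (A (Fin.ofNat n l)) (E 2)

/-- good configurations: three arcs in one of the two orders, after a rotation -/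
def Gd {n : ℕ} [NeZero n] (M E : Fin 3 → Finset (Fin 4)) (S : Fin 3 → Set ℂ)
    (x : Fin n → ℂ) (A : Fin n → Finset (Fin 4)) : Prop :=
  ∃ (j : Fin n) (a b : ℕ), 0 < a ∧ a < b ∧ b < n ∧
    (PA M E S a b (rot j x) (rot j A) ∨ PA (rv M) (rv E) (rvw S) a b (rot j x) (rot j A))

/-- duration of the blocks `a, …, b - 1` -/
noncomputable def dur {n : ℕ} [NeZero n] (τ : Fin n → ℝ) (a b : ℕ) : ℝ :=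
  ∑ l ∈ Finset.Ico a b, τ (Fin.ofNat n l)

/-- mass of the loops which consist of three arcs of durations `s1`, `s2`, `s3` -/
noncomputable def W3 (u : Fin 4 → ℂ) (h : Fin 4 → ℝ) (M E : Fin 3 → Finset (Fin 4))
    (S : Fin 3 → Set ℂ) (s1 s2 s3 : ℝ) : ℝ≥0∞ :=
  ∫⁻ x in S 0, ∫⁻ z in S 1, ∫⁻ y in S 2,
    ENNReal.ofReal (kME u h (M 0) (E 0) s1 x z) * ENNReal.ofReal (kME u h (M 1) (E 1) s2 z y)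
      * ENNReal.ofReal (kME u h (M 2) (E 2) s3 y x)

/-- the integral over all durations with sum `t` -/
noncomputable def Q3 (W : ℝ → ℝ → ℝ → ℝ≥0∞) (t : ℝ) : ℝ≥0∞ :=
  ∫⁻ s1 in Set.Ioo 0 t, ∫⁻ s2 in Set.Ioo 0 (t - s1), W s1 s2 (t - s1 - s2)

/-- Laplace transform of a kernel -/
noncomputable def Lh (k : ℝ → ℂ → ℂ → ℝ) (κ : ℝ) (x y : ℂ) : ℝ≥0∞ :=
  ∫⁻ t in Set.Ioi (0 : ℝ), ENNReal.ofReal (Real.exp (-(κ ^ 2 * t)) * k t x y)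

/-- Laplace transform of the mass of three arcs -/
noncomputable def P3 (u : Fin 4 → ℂ) (h : Fin 4 → ℝ) (M E : Fin 3 → Finset (Fin 4))
    (S : Fin 3 → Set ℂ) (κ : ℝ) : ℝ≥0∞ :=
  ∫⁻ x in S 0, ∫⁻ z in S 1, ∫⁻ y in S 2,
    Lh (kME u h (M 0) (E 0)) κ x z * Lh (kME u h (M 1) (E 1)) κ z y
      * Lh (kME u h (M 2) (E 2)) κ y x

/-- mass of the loops, as an element of `[0, ∞]` -/
noncomputable def Vt (u : Fin 4 → ℂ) (h : Fin 4 → ℝ) (M E : Finset (Fin 4)) (t : ℝ) : ℝ≥0∞ :=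
  ∫⁻ x, ENNReal.ofReal (kME u h M E t x x)

/-- the Gaussian error term -/
noncomputable def Er (C : ℝ) (p : ℕ) (m t : ℝ) : ℝ≥0∞ :=
  ENNReal.ofReal (C * (1 + t) ^ p / t * Real.exp (-(m / (4 * t))))

/-- CUT: a loop of three arcs, each divided into blocks (module `chain` of `Blv4` for each arc,
`Fin.append` / `MeasurableEquiv` for the points) -/
def CutStatement : Prop :=
  ∀ (u : Fin 4 → ℂ) (h : Fin 4 → ℝ) (n : ℕ) [NeZero n] (τ : Fin n → ℝ)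
    (M E : Fin 3 → Finset (Fin 4)) (S : Fin 3 → Set ℂ) (a b : ℕ),
    (∀ j, 0 < τ j) → 0 < a → a < b → b < n → (∀ i, MeasurableSet (S i)) →
    Ms u h τ (PA M E S a b) = W3 u h M E S (dur τ 0 a) (dur τ a b) (dur τ b n)

/-- ROT: rotation of the indices -/
def RotStatement : Prop :=
  ∀ (u : Fin 4 → ℂ) (h : Fin 4 → ℝ) (n : ℕ) [NeZero n] (τ : Fin n → ℝ) (j : Fin n)
    (P : (Fin n → ℂ) → (Fin n → Finset (Fin 4)) → Prop),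
    Ms u h τ (fun x A => P (rot j x) (rot j A)) = Ms u h (rot j τ) P

/-- REV: reversal of time -/
def RevStatement : Prop :=
  ∀ (u : Fin 4 → ℂ) (h : Fin 4 → ℝ) (M E : Fin 3 → Finset (Fin 4)) (S : Fin 3 → Set ℂ)
    (s1 s2 s3 : ℝ), (∀ s, ‖u s‖ = 1) → 0 < s1 → 0 < s2 → 0 < s3 → (∀ i, MeasurableSet (S i)) →
    W3 u h (rv M) (rv E) (rvw S) s1 s2 s3 = W3 u h M E S s3 s2 s1

open Classical in
/-- sum over all possible cuts -/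
noncomputable def SumW {n : ℕ} [NeZero n] (W : ℝ → ℝ → ℝ → ℝ≥0∞) (τ : Fin n → ℝ) : ℝ≥0∞ :=
  ∑ j : Fin n, ∑ a ∈ Finset.range n, ∑ b ∈ Finset.range n,
    if 0 < a ∧ a < b then
      W (dur (rot j τ) 0 a) (dur (rot j τ) a b) (dur (rot j τ) b n)
        + W (dur (rot j τ) b n) (dur (rot j τ) a b) (dur (rot j τ) 0 a)
    else 0

/-- UPP: the mass of the loops is at most the sum over the cuts plus the mass of the bad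
configurations (BLV, CUT, ROT, REV) -/
def UppStatement : Prop :=
  ∀ (u : Fin 4 → ℂ) (h : Fin 4 → ℝ) (n : ℕ) [NeZero n] (τ : Fin n → ℝ) (Mt Et : Finset (Fin 4))
    (M E : Fin 3 → Finset (Fin 4)) (S : Fin 3 → Set ℂ), (∀ s, ‖u s‖ = 1) → (∀ j, 0 < τ j) →
    (∀ i, MeasurableSet (S i)) →
    Vt u h Mt Et (∑ j, τ j) ≤ SumW (W3 u h M E S) τ
      + Ms u h τ (fun x A => Vis Mt Et A ∧ ¬ Gd M E S x A)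

/-- the geometric input for the upper bound: all nearly minimal loops are good -/
def UpG (u : Fin 4 → ℂ) (h : Fin 4 → ℝ) (Mt Et : Finset (Fin 4)) (M E : Fin 3 → Finset (Fin 4))
    (S : Fin 3 → Set ℂ) (δ l : ℝ) : Prop :=
  ∀ (n : ℕ) [NeZero n] (x : Fin n → ℂ) (A : Fin n → Finset (Fin 4)), Vis Mt Et A →
    Cns u h x A → Sho u h δ x A → Ln u h x A < l → Gd M E S x A

/-- the geometric input for the lower bound: three arcs which visit a label in `Et` are long -/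
def LoG (u : Fin 4 → ℂ) (h : Fin 4 → ℝ) (Et : Finset (Fin 4)) (M E : Fin 3 → Finset (Fin 4))
    (S : Fin 3 → Set ℂ) (δ l : ℝ) : Prop :=
  ∀ (n : ℕ) [NeZero n] (a b : ℕ) (x : Fin n → ℂ) (A : Fin n → Finset (Fin 4)), 0 < a → a < b →
    b < n → PA M E S a b x A → Cns u h x A → Sho u h δ x A → (∃ j, ¬ Disjoint (A j) Et) →
    l ≤ Ln u h x A

/-- locality -/
def LcG (u : Fin 4 → ℂ) (h : Fin 4 → ℝ) (Mt Et : Finset (Fin 4)) (R : ℝ) : Prop :=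
  ∀ (n : ℕ) [NeZero n] (x : Fin n → ℂ) (A : Fin n → Finset (Fin 4)), Vis Mt Et A →
    Cns u h x A → ‖x 0‖ ≤ R * (1 + Ln u h x A) ∧ 1 / R ≤ Ln u h x A

/-- UPB: `UPP` with the Gaussian bound (`ldm`) of the bad configurations, and the crude bound of the
total mass (`blv`, `ldm`) -/
def UpbStatement : Prop :=
  ∀ (u : Fin 4 → ℂ) (h : Fin 4 → ℝ) (Mt Et : Finset (Fin 4)) (M E : Fin 3 → Finset (Fin 4))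
    (S : Fin 3 → Set ℂ) (δ l R ε : ℝ), (∀ s, ‖u s‖ = 1) → (∀ i, MeasurableSet (S i)) → 0 < δ →
    0 < l → 0 < R → 0 < ε → UpG u h Mt Et M E S δ l → LcG u h Mt Et R →
    (∀ (n : ℕ) [NeZero n], 2 * l ^ 2 ≤ δ ^ 2 * n → ∃ (C : ℝ) (p : ℕ), ∀ τ : Fin n → ℝ,
      (∀ j, 0 < τ j) → (∀ j, τ j ≤ 2 * (∑ i, τ i) / n) →
      Vt u h Mt Et (∑ j, τ j) ≤ SumW (W3 u h M E S) τ + Er C p ((1 - ε) * l ^ 2) (∑ j, τ j)) ∧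
    ∃ (C : ℝ) (p : ℕ), ∀ t : ℝ, 0 < t → Vt u h Mt Et t ≤ Er C p ((1 - ε) * (1 / R) ^ 2) t

/-- LOW: the lower bound for given durations (CUT with `n = 3 N`, `blv`, `ldm`) -/
def LowStatement : Prop :=
  ∀ (u : Fin 4 → ℂ) (h : Fin 4 → ℝ) (Mt Et : Finset (Fin 4)) (M E : Fin 3 → Finset (Fin 4))
    (S : Fin 3 → Set ℂ) (δ l R ε : ℝ), (∀ s, ‖u s‖ = 1) → (∀ i, MeasurableSet (S i)) →
    (∀ x ∈ S 0, ‖x‖ ≤ R) → Mt ⊆ M 0 ∪ M 1 ∪ M 2 → 0 < δ → 0 < l → 0 < R → 0 < ε →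
    LoG u h Et M E S δ l →
    ∃ (C : ℝ) (p : ℕ), ∀ s1 s2 s3 : ℝ, 0 < s1 → 0 < s2 → 0 < s3 →
      W3 u h M E S s1 s2 s3 ≤ Vt u h Mt Et (s1 + s2 + s3)
        + Er C p ((1 - ε) * l ^ 2) (s1 + s2 + s3)

/-- AVG: average over the partitions with the points `t_i = (i + α g_i + β g_i²) t / n`,
`g_i = i / (4 n)` (no three points `(g_i, g_i²)` on a line, so the durations of any two
consecutive arcs are a linear change of variables of `(α, β)`) -/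
def AvgStatement : Prop :=
  ∀ (n : ℕ) [NeZero n], 3 ≤ n → ∃ C : ℝ, 0 < C ∧ ∀ (W : ℝ → ℝ → ℝ → ℝ≥0∞),
    Measurable (fun p : ℝ × ℝ × ℝ => W p.1 p.2.1 p.2.2) → ∀ (t : ℝ) (V B : ℝ≥0∞), 0 < t →
    (∀ τ : Fin n → ℝ, (∀ j, 0 < τ j) → (∀ j, τ j ≤ 2 * t / n) → ∑ j, τ j = t →
      V ≤ SumW W τ + B) →
    V ≤ ENNReal.ofReal (C / t ^ 2) * Q3 W t + B

/-- CNV: Laplace transform of a convolution (Tonelli) -/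
def CnvStatement : Prop :=
  ∀ (u : Fin 4 → ℂ) (h : Fin 4 → ℝ) (M E : Fin 3 → Finset (Fin 4)) (S : Fin 3 → Set ℂ) (κ : ℝ),
    (∀ s, ‖u s‖ = 1) → 0 < κ → (∀ i, MeasurableSet (S i)) →
    Measurable (fun p : ℝ × ℝ × ℝ => W3 u h M E S p.1 p.2.1 p.2.2) ∧
    Measurable (fun t => Q3 (W3 u h M E S) t) ∧ (∀ Mt Et, Measurable (Vt u h Mt Et)) ∧
    ∫⁻ t in Set.Ioi (0 : ℝ), ENNReal.ofReal (Real.exp (-(κ ^ 2 * t))) * Q3 (W3 u h M E S) t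
      = P3 u h M E S κ

/-- ARC: from the bounds in time to the bounds of the transform; pure analysis -/
def ArcStatement : Prop :=
  ∀ (V Q P : ℝ → ℝ≥0∞) (C c m m0 L q : ℝ) (p : ℕ), Measurable V → Measurable Q → 0 < c →
    0 < L → L ^ 2 < m → 0 < m0 →
    (∀ t : ℝ, 0 < t → V t ≤ ENNReal.ofReal (C / t ^ 2) * Q t + Er C p m t) →
    (∀ t : ℝ, 0 < t → ENNReal.ofReal (c / t ^ 2) * Q t ≤ V t + Er C p m t) →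
    (∀ t : ℝ, 0 < t → V t ≤ Er C p m0 t) →
    (∀ κ : ℝ, 0 < κ →
      ∫⁻ t in Set.Ioi (0 : ℝ), ENNReal.ofReal (Real.exp (-(κ ^ 2 * t))) * Q t = P κ) →
    (∃ c1 C1 κ1 : ℝ, 0 < c1 ∧ 0 < C1 ∧ 0 < κ1 ∧ ∀ κ : ℝ, κ1 ≤ κ →
      ENNReal.ofReal (c1 * κ ^ (-q) * Real.exp (-(L * κ))) ≤ P κ ∧
      P κ ≤ ENNReal.ofReal (C1 * κ ^ (-q) * Real.exp (-(L * κ)))) →
    ∃ c2 C2 κ2 : ℝ, 0 < c2 ∧ 0 < C2 ∧ 0 < κ2 ∧ ∀ κ : ℝ, κ2 ≤ κ →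
      ENNReal.ofReal (c2 * κ ^ (3 - q) * Real.exp (-(L * κ)))
        ≤ ∫⁻ t in Set.Ioi (0 : ℝ), ENNReal.ofReal (Real.exp (-(κ ^ 2 * t)) / t) * V t ∧
      ∫⁻ t in Set.Ioi (0 : ℝ), ENNReal.ofReal (Real.exp (-(κ ^ 2 * t)) / t) * V t
        ≤ ENNReal.ofReal (C2 * κ ^ (3 - q) * Real.exp (-(L * κ)))

/-- MN4: three arcs, main theorem (UPB, AVG, LOW, CNV, ARC) -/
def Mn4Statement : Prop :=
  ∀ (u : Fin 4 → ℂ) (h : Fin 4 → ℝ) (Mt Et : Finset (Fin 4)) (M E : Fin 3 → Finset (Fin 4))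
    (S : Fin 3 → Set ℂ) (L l δ R q : ℝ), (∀ s, ‖u s‖ = 1) → (∀ i, MeasurableSet (S i)) →
    (∀ x ∈ S 0, ‖x‖ ≤ R) → Mt ⊆ M 0 ∪ M 1 ∪ M 2 → 0 < δ → 0 < R → 0 < L → L < l →
    UpG u h Mt Et M E S δ l → LoG u h Et M E S δ l → LcG u h Mt Et R →
    (∃ c C κ0 : ℝ, 0 < c ∧ 0 < C ∧ 0 < κ0 ∧ ∀ κ : ℝ, κ0 ≤ κ →
      ENNReal.ofReal (c * κ ^ (-q) * Real.exp (-(L * κ))) ≤ P3 u h M E S κ ∧
      P3 u h M E S κ ≤ ENNReal.ofReal (C * κ ^ (-q) * Real.exp (-(L * κ)))) →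
    ∃ c C κ0 : ℝ, 0 < c ∧ 0 < C ∧ 0 < κ0 ∧ ∀ κ : ℝ, κ0 ≤ κ →
      ENNReal.ofReal (c * κ ^ (3 - q) * Real.exp (-(L * κ)))
        ≤ ∫⁻ t in Set.Ioi (0 : ℝ), ENNReal.ofReal (Real.exp (-(κ ^ 2 * t)) / t) * Vt u h Mt Et t ∧
      ∫⁻ t in Set.Ioi (0 : ℝ), ENNReal.ofReal (Real.exp (-(κ ^ 2 * t)) / t) * Vt u h Mt Et t
        ≤ ENNReal.ofReal (C * κ ^ (3 - q) * Real.exp (-(L * κ)))

/-- EAV: translation to `EAr` (`vex`) -/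
def EavStatement : Prop :=
  ∀ (u : Fin 4 → ℂ) (h : Fin 4 → ℝ) (Mt Et : Finset (Fin 4)) (MM EE : Finset HP),
    (∀ s, ‖u s‖ = 1) → (∀ x : HP, x ∈ MM ↔ ∃ s ∈ Mt, x = (u s, h s)) →
    (∀ x : HP, x ∈ EE ↔ ∃ s ∈ Et, x = (u s, h s)) →
    (∀ t : ℝ, 0 < t → Vt u h Mt Et t ≠ ⊤) → ∀ κ : ℝ, 0 < κ →
    ∫⁻ t in Set.Ioi (0 : ℝ), ENNReal.ofReal (Real.exp (-(κ ^ 2 * t)) / t) * Vt u h Mt Et t ≠ ⊤ →
    Lap (EAr MM EE) κ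
      = (∫⁻ t in Set.Ioi (0 : ℝ), ENNReal.ofReal (Real.exp (-(κ ^ 2 * t)) / t)
          * Vt u h Mt Et t).toReal

/-! ### Kernels of the corners -/

/-- KLB: the Macdonald functions (`Kit` at large arguments) -/
def KlbStatement : Prop :=
  (∀ τ y : ℝ, 0 < y → (1 - τ ^ 2 / (2 * y)) * Kit 0 y ≤ Kit τ y) ∧
  (∃ c C : ℝ, 0 < c ∧ 0 < C ∧ ∀ y : ℝ, 1 ≤ y →
    c * y ^ (-(1 / 2) : ℝ) * Real.exp (-y) ≤ Kit 0 y ∧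
    Kit 0 y ≤ C * y ^ (-(1 / 2) : ℝ) * Real.exp (-y)) ∧
  ∀ c0 C0 β r0 r1 : ℝ, 0 < c0 → 0 < C0 → 0 < β → 0 < r0 → r0 < r1 →
    ∃ c C κ0 : ℝ, 0 < c ∧ 0 < C ∧ 0 < κ0 ∧ ∀ (κ r r' : ℝ) (m : ℝ → ℝ), κ0 ≤ κ → r0 ≤ r → r ≤ r1 →
      r0 ≤ r' → r' ≤ r1 → Measurable m → (∀ τ : ℝ, 0 < τ → τ ≤ 1 → c0 * τ ^ 2 ≤ m τ) →
      (∀ τ : ℝ, 0 < τ → 0 ≤ m τ ∧ m τ ≤ C0 * Real.exp (-(β * τ))) →
      IntegrableOn (fun τ : ℝ => Kit τ (κ * r) * Kit τ (κ * r') * m τ) (Set.Ioi 0) ∧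
      c * κ⁻¹ * Real.exp (-(κ * (r + r')))
        ≤ ∫ τ in Set.Ioi (0 : ℝ), Kit τ (κ * r) * Kit τ (κ * r') * m τ ∧
      ∫ τ in Set.Ioi (0 : ℝ), Kit τ (κ * r) * Kit τ (κ * r') * m τ
        ≤ C * κ⁻¹ * Real.exp (-(κ * (r + r')))

/-- CVV: corner, both sides visited (from `KesStatement`) -/
def CvvStatement : Prop :=
  ∀ η1 η2 r0 r1 : ℝ, 0 < η1 → η1 < Real.pi / 2 → 0 < η2 → η2 < Real.pi / 2 →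
    Real.pi / 2 < η1 + η2 → 0 < r0 → r0 < r1 →
    ∃ ψ0 c C κ0 : ℝ, 0 < ψ0 ∧ 0 < c ∧ 0 < C ∧ 0 < κ0 ∧ ∀ κ r r' ψ ψ' : ℝ, κ0 ≤ κ → r0 ≤ r →
      r ≤ r1 → r0 ≤ r' → r' ≤ r1 → |ψ| ≤ ψ0 → |ψ'| ≤ ψ0 →
      ENNReal.ofReal (c * κ⁻¹ * Real.exp (-(κ * (r + r'))))
        ≤ Lh (H60K.kME (H60K.us η1 η2) (H60K.hh 1) {1, 2} ∅) κ (r * exp (ψ * I))
          (r' * exp (ψ' * I)) ∧
      Lh (H60K.kME (H60K.us η1 η2) (H60K.hh 1) {1, 2} ∅) κ (r * exp (ψ * I)) (r' * exp (ψ' * I))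
        ≤ ENNReal.ofReal (C * κ⁻¹ * Real.exp (-(κ * (r + r'))))

/-- CVA: corner, side `1` visited, side `2` avoided (from `KerStatement`) -/
def CvaStatement : Prop :=
  ∀ η1 η2 r0 r1 : ℝ, Real.pi / 2 < η1 → 0 < η2 → η1 + η2 < Real.pi → 0 < r0 → r0 < r1 →
    ∃ ψ0 c C κ0 : ℝ, 0 < ψ0 ∧ 0 < c ∧ 0 < C ∧ 0 < κ0 ∧ ∀ κ r r' ψ ψ' : ℝ, κ0 ≤ κ → r0 ≤ r →
      r ≤ r1 → r0 ≤ r' → r' ≤ r1 → |ψ| ≤ ψ0 → |ψ'| ≤ ψ0 →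
      ENNReal.ofReal (c * κ⁻¹ * Real.exp (-(κ * (r + r'))))
        ≤ Lh (H60K.kME (H60K.us η1 η2) (H60K.hh 1) {1} {2}) κ (r * exp (ψ * I))
          (r' * exp (ψ' * I)) ∧
      Lh (H60K.kME (H60K.us η1 η2) (H60K.hh 1) {1} {2}) κ (r * exp (ψ * I)) (r' * exp (ψ' * I))
        ≤ ENNReal.ofReal (C * κ⁻¹ * Real.exp (-(κ * (r + r'))))

/-- CEA: corner of interior angle `α`, side `1` visited, side `2` avoided; one end point is close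
to side `2` (at the angle `s` from it), the other one is in the direction which forms the angle
`θ` with side `2` (from `KerStatement`) -/
def CeaStatement : Prop :=
  ∀ α θ r0 r1 : ℝ, Real.pi / 2 < α → α < Real.pi → 0 < θ → θ < 2 * α - Real.pi → 0 < r0 →
    r0 < r1 →
    ∃ ψ0 c C κ0 : ℝ, 0 < ψ0 ∧ 0 < c ∧ 0 < C ∧ 0 < κ0 ∧ ∀ κ r r' s ψ' : ℝ, κ0 ≤ κ → r0 ≤ r →
      r ≤ r1 → r0 ≤ r' → r' ≤ r1 → 0 < s → s ≤ ψ0 → |ψ'| ≤ ψ0 →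
      ENNReal.ofReal (c * s * κ⁻¹ * Real.exp (-(κ * (r + r'))))
        ≤ Lh (H60K.kME (H60K.us (α - θ) θ) (H60K.hh 1) {1} {2}) κ
          (r * exp (((s - θ : ℝ) : ℂ) * I)) (r' * exp (ψ' * I)) ∧
      Lh (H60K.kME (H60K.us (α - θ) θ) (H60K.hh 1) {1} {2}) κ
          (r * exp (((s - θ : ℝ) : ℂ) * I)) (r' * exp (ψ' * I))
        ≤ ENNReal.ofReal (C * s * κ⁻¹ * Real.exp (-(κ * (r + r'))))

/-- TRF: transfer of the corner kernels (`InvStatement`, part 1, theorem `H60K.H53.inv`) -/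
def TrfStatement : Prop :=
  ∀ (u : Fin 4 → ℂ) (h : Fin 4 → ℝ) (g : ℂ ≃ᵢ ℂ) (s1 s2 : Fin 4) (η1 η2 : ℝ), s1 ≠ s2 →
    (∀ x, ip (u s1) (g x) - h s1 = ip (H60K.us η1 η2 1) x) →
    (∀ x, ip (u s2) (g x) - h s2 = ip (H60K.us η1 η2 2) x) → ∀ (t : ℝ) (x y : ℂ), 0 < t →
    kME u h {s1, s2} ∅ t (g x) (g y)
      = H60K.kME (H60K.us η1 η2) (H60K.hh 1) {1, 2} ∅ t x y ∧
    kME u h {s1} {s2} t (g x) (g y)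
      = H60K.kME (H60K.us η1 η2) (H60K.hh 1) {1} {2} t x y

/-- MID: the middle arc (`H60K.H44.uni`, `H60K.H15.hpk`, `KtlStatement`, KLB) -/
def MidStatement : Prop :=
  (∀ (u : Fin 4 → ℂ) (h : Fin 4 → ℝ) (t : ℝ) (x y : ℂ), 0 < t →
    kME u h ∅ ∅ t x y = G t (x - y)) ∧
  (∀ (u : Fin 4 → ℂ) (h : Fin 4 → ℝ) (s : Fin 4) (t : ℝ) (x y : ℂ), ‖u s‖ = 1 → 0 < t →
    ip (u s) x < h s → ip (u s) y < h s → kME u h {s} ∅ t x y = G t (x - rf u h s y)) ∧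
  ∀ r0 r1 : ℝ, 0 < r0 → r0 < r1 → ∃ c C κ0 : ℝ, 0 < c ∧ 0 < C ∧ 0 < κ0 ∧
    ∀ (κ : ℝ) (w : ℂ), κ0 ≤ κ → r0 ≤ ‖w‖ → ‖w‖ ≤ r1 →
      ENNReal.ofReal (c * κ ^ (-(1 / 2) : ℝ) * Real.exp (-(κ * ‖w‖)))
        ≤ ∫⁻ t in Set.Ioi (0 : ℝ), ENNReal.ofReal (Real.exp (-(κ ^ 2 * t)) * G t w) ∧
      ∫⁻ t in Set.Ioi (0 : ℝ), ENNReal.ofReal (Real.exp (-(κ ^ 2 * t)) * G t w)
        ≤ ENNReal.ofReal (C * κ ^ (-(1 / 2) : ℝ) * Real.exp (-(κ * ‖w‖)))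

/-! ### Integrals over the windows -/

/-- a rectangle around a piece of the real axis -/
def Rct (a b ρ : ℝ) : Set ℂ := {x | a < x.re ∧ x.re < b ∧ |x.im| < ρ}

/-- its upper half -/
def RcU (a b ρ : ℝ) : Set ℂ := {x | a < x.re ∧ x.re < b ∧ 0 < x.im ∧ x.im < ρ}

/-- IN1: one window -/
def In1Statement : Prop :=
  ∀ a b d ρ : ℝ, 0 < a → a < b → b < d → 0 < ρ → ∃ c C κ0 : ℝ, 0 < c ∧ 0 < C ∧ 0 < κ0 ∧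
    ∀ κ : ℝ, κ0 ≤ κ →
      (ENNReal.ofReal (c * κ ^ (-(1 / 2) : ℝ) * Real.exp (-(κ * d)))
        ≤ ∫⁻ x in Rct a b ρ, ENNReal.ofReal (Real.exp (-(κ * (‖x‖ + ‖x - d‖)))) ∧
      ∫⁻ x in Rct a b ρ, ENNReal.ofReal (Real.exp (-(κ * (‖x‖ + ‖x - d‖))))
        ≤ ENNReal.ofReal (C * κ ^ (-(1 / 2) : ℝ) * Real.exp (-(κ * d)))) ∧
      ENNReal.ofReal (c * κ ^ (-(3 / 2) : ℝ) * Real.exp (-(κ * d)))
        ≤ ∫⁻ x in RcU a b ρ, ENNReal.ofReal (x.im ^ 2 * Real.exp (-(κ * (‖x‖ + ‖x - d‖)))) ∧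
      ∫⁻ x in RcU a b ρ, ENNReal.ofReal (x.im ^ 2 * Real.exp (-(κ * (‖x‖ + ‖x - d‖))))
        ≤ ENNReal.ofReal (C * κ ^ (-(3 / 2) : ℝ) * Real.exp (-(κ * d)))

/-- IN2: two windows -/
def In2Statement : Prop :=
  ∀ a1 b1 a2 b2 D ρ : ℝ, 0 < a1 → a1 < b1 → b1 < a2 → a2 < b2 → b2 < D → 0 < ρ →
    ∃ c C κ0 : ℝ, 0 < c ∧ 0 < C ∧ 0 < κ0 ∧ ∀ κ : ℝ, κ0 ≤ κ →
      ENNReal.ofReal (c * κ⁻¹ * Real.exp (-(κ * D)))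
        ≤ ∫⁻ z in Rct a1 b1 ρ, ∫⁻ y in Rct a2 b2 ρ,
          ENNReal.ofReal (Real.exp (-(κ * (‖z‖ + ‖z - y‖ + ‖y - D‖)))) ∧
      ∫⁻ z in Rct a1 b1 ρ, ∫⁻ y in Rct a2 b2 ρ,
          ENNReal.ofReal (Real.exp (-(κ * (‖z‖ + ‖z - y‖ + ‖y - D‖))))
        ≤ ENNReal.ofReal (C * κ⁻¹ * Real.exp (-(κ * D)))

/-! ### Polygons -/

/-- length of a closed polygon -/
noncomputable def Pl {n : ℕ} [NeZero n] (x : Fin n → ℂ) : ℝ := ∑ j, ‖x j - x (j + 1)‖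

/-- POL: closed polygons and configurations (third part: `AEU.H69.per`) -/
def PolStatement : Prop :=
  (∀ (n : ℕ) [NeZero n] (x : Fin n → ℂ) (m : ℕ) (f : Fin (m + 1) → ℕ), StrictMono f →
    f (Fin.last m) < n →
    ∑ i : Fin m, ‖x (Fin.ofNat n (f i.castSucc)) - x (Fin.ofNat n (f i.succ))‖
      + ‖x (Fin.ofNat n (f (Fin.last m))) - x (Fin.ofNat n (f 0))‖ ≤ Pl x) ∧
  (∀ (n : ℕ) [NeZero n] (x : Fin n → ℂ) (i j k : Fin n),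
    ‖x i - x j‖ + ‖x j - x k‖ + ‖x k - x i‖ ≤ Pl x) ∧
  (∀ (n : ℕ) [NeZero n] (x : Fin n → ℂ) (i j k l : Fin n),
    lam (hf ![x i, x j, x k, x l]) ≤ Pl x) ∧
  (∀ (n : ℕ) [NeZero n] (x : Fin n → ℂ) (j : Fin n), Pl (rot j x) = Pl x) ∧
  ∀ (u : Fin 4 → ℂ) (h : Fin 4 → ℝ) (n : ℕ) [NeZero n] (x : Fin n → ℂ)
    (A : Fin n → Finset (Fin 4)), (∀ s, ‖u s‖ = 1) →
    Pl x ≤ Ln u h x A ∧
    (∀ j s, s ∈ A j → h s - bl u h (A j) (x j) (x (j + 1)) ≤ ip (u s) (x j)) ∧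
    ∀ δ : ℝ, Sho u h δ x A → (∀ j, ‖x j - x (j + 1)‖ < δ) ∧
      ∀ j s, s ∈ A j → h s - δ < ip (u s) (x j)

/-- LCC: locality from two qualitative conditions (compactness; POL) -/
def LccStatement : Prop :=
  ∀ (u : Fin 4 → ℂ) (h : Fin 4 → ℝ) (Mt Et : Finset (Fin 4)), (∀ s, ‖u s‖ = 1) →
    (∀ x : ℂ, x ≠ 0 → (∃ s ∈ Mt, ip (u s) x < 0) ∨ ∃ s ∈ Et, 0 < ip (u s) x) →
    (¬ ∃ x : ℂ, (∀ s ∈ Mt, h s ≤ ip (u s) x) ∧ ∀ s ∈ Et, ip (u s) x ≤ h s) →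
    ∃ R : ℝ, 0 < R ∧ LcG u h Mt Et R

/-! ### The configuration of G3 -/

/-- normals -/
noncomputable def u3 (η1 η2 ζ1 ζ2 : ℝ) : Fin 4 → ℂ :=
  ![I * exp (η1 * I), -(I * exp (-(η2 * I))), exp ((Real.pi / 2 - ζ1 : ℝ) * I),
    exp ((-(Real.pi / 2 - ζ2) : ℝ) * I)]

/-- support numbers -/
noncomputable def h3 (ζ1 ζ2 d : ℝ) : Fin 4 → ℝ :=
  ![0, 0, ip (exp ((Real.pi / 2 - ζ1 : ℝ) * I)) d, ip (exp ((-(Real.pi / 2 - ζ2) : ℝ) * I)) d]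

open Classical in
/-- labels visited at the corner `0` -/
noncomputable def Mv (η1 η2 : ℝ) : Finset (Fin 4) :=
  (if η2 < Real.pi / 2 then {0} else ∅) ∪ (if η1 < Real.pi / 2 then {1} else ∅)

open Classical in
/-- labels avoided at the corner `0` -/
noncomputable def Ev (η1 η2 : ℝ) : Finset (Fin 4) :=
  (if η2 < Real.pi / 2 then ∅ else {0}) ∪ (if η1 < Real.pi / 2 then ∅ else {1})

open Classical in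
/-- labels visited at the corner `d` -/
noncomputable def Mw (ζ1 ζ2 : ℝ) : Finset (Fin 4) :=
  (if ζ2 < Real.pi / 2 then {2} else ∅) ∪ (if ζ1 < Real.pi / 2 then {3} else ∅)

open Classical in
/-- labels avoided at the corner `d` -/
noncomputable def Ew (ζ1 ζ2 : ℝ) : Finset (Fin 4) :=
  (if ζ2 < Real.pi / 2 then ∅ else {2}) ∪ (if ζ1 < Real.pi / 2 then ∅ else {3})

/-- labels visited on the three arcs -/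
noncomputable def M3 (η1 η2 ζ1 ζ2 : ℝ) : Fin 3 → Finset (Fin 4) := ![Mw ζ1 ζ2, ∅, Mv η1 η2]

/-- labels avoided on the three arcs -/
noncomputable def E3 (η1 η2 ζ1 ζ2 : ℝ) : Fin 3 → Finset (Fin 4) := ![Ew ζ1 ζ2, ∅, Ev η1 η2]

/-- the windows -/
noncomputable def S3 (d ρ : ℝ) : Fin 3 → Set ℂ :=
  ![Rct (9 / 20 * d) (11 / 20 * d) ρ, Rct (12 / 20 * d) (13 / 20 * d) ρ,
    Rct (7 / 20 * d) (8 / 20 * d) ρ]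

/-- the hypotheses of G3 -/
structure Hy3 (η1 η2 ζ1 ζ2 d : ℝ) : Prop where
  a1 : 0 < η1
  a2 : 0 < η2
  b1 : 0 < ζ1
  b2 : 0 < ζ2
  a3 : Real.pi / 2 < η1 + η2
  a4 : η1 + η2 < Real.pi
  b3 : Real.pi / 2 < ζ1 + ζ2
  b4 : ζ1 + ζ2 < Real.pi
  a5 : η1 ≠ Real.pi / 2
  a6 : η2 ≠ Real.pi / 2
  b5 : ζ1 ≠ Real.pi / 2
  b6 : ζ2 ≠ Real.pi / 2
  dpos : 0 < d

/-- EL3: points near the segment from `0` to `d` -/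
def El3Statement : Prop :=
  ∀ η1 η2 ζ1 ζ2 d ρ : ℝ, Hy3 η1 η2 ζ1 ζ2 d → 0 < ρ → ∃ ρ1 : ℝ, 0 < ρ1 ∧ ∀ p : ℂ,
    ‖p‖ + ‖p - d‖ ≤ d + ρ1 → |p.im| < ρ ∧ -ρ < p.re ∧ p.re < d + ρ ∧
      (∀ s : Fin 4, s = 0 ∨ s = 1 → h3 ζ1 ζ2 d s - ρ1 ≤ ip (u3 η1 η2 ζ1 ζ2 s) p → ‖p‖ < ρ) ∧
      ∀ s : Fin 4, s = 2 ∨ s = 3 → h3 ζ1 ζ2 d s - ρ1 ≤ ip (u3 η1 η2 ζ1 ζ2 s) p → ‖p - d‖ < ρ

/-- HC4: certificate for four points. At a corner of the type visited - visited the points `p 0`,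
`p 1` nearly visit the two sides; at a corner of the type visited - avoided `p 0 = p 1` nearly
visits the visited side and stays inside the avoided one. Proof: `lam (hf p)` is the sum of the
integrals over the left and the right half circle; for points `m0`, `m1` of the hull and every `q` in
the left half of the unit disc, the left integral is at least
`ip (-I * (q - I)) m0 + ip (-I * (-I - q)) m1` (clear if `|q| = 1`, affine in `q`). -/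
def Hc4Statement : Prop :=
  ∀ η1 η2 ζ1 ζ2 d ρ : ℝ, Hy3 η1 η2 ζ1 ζ2 d → 0 < ρ → ∃ δ : ℝ, 0 < δ ∧ ∀ p : Fin 4 → ℂ,
    (∀ s ∈ Mv η1 η2 ∪ Mw ζ1 ζ2, h3 ζ1 ζ2 d s - δ ≤ ip (u3 η1 η2 ζ1 ζ2 s) (p s)) →
    (∀ e ∈ Ev η1 η2, p 0 = p 1 ∧ ip (u3 η1 η2 ζ1 ζ2 e) (p e) ≤ h3 ζ1 ζ2 d e) →
    (∀ e ∈ Ew ζ1 ζ2, p 2 = p 3 ∧ ip (u3 η1 η2 ζ1 ζ2 e) (p e) ≤ h3 ζ1 ζ2 d e) →
    lam (hf p) < 2 * d + δ → (∃ s, ‖p s‖ < ρ) ∧ ∃ s, ‖p s - d‖ < ρ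

/-- NR3: nearly minimal closed polygons are near the segment (POL, HC4) -/
def Nr3Statement : Prop :=
  ∀ η1 η2 ζ1 ζ2 d ρ : ℝ, Hy3 η1 η2 ζ1 ζ2 d → 0 < ρ → ∃ δ : ℝ, 0 < δ ∧
    ∀ (n : ℕ) [NeZero n] (x : Fin n → ℂ), Pl x < 2 * d + δ →
    (∀ s ∈ Mv η1 η2, ∃ j, h3 ζ1 ζ2 d s - δ ≤ ip (u3 η1 η2 ζ1 ζ2 s) (x j) ∧
      ∀ e ∈ Ev η1 η2, ip (u3 η1 η2 ζ1 ζ2 e) (x j) ≤ h3 ζ1 ζ2 d e) →
    (∀ s ∈ Mw ζ1 ζ2, ∃ j, h3 ζ1 ζ2 d s - δ ≤ ip (u3 η1 η2 ζ1 ζ2 s) (x j) ∧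
      ∀ e ∈ Ew ζ1 ζ2, ip (u3 η1 η2 ζ1 ζ2 e) (x j) ≤ h3 ζ1 ζ2 d e) →
    ∀ j, ‖x j‖ + ‖x j - d‖ ≤ d + ρ

/-- UP3: geometry of the upper bound (POL, NR3, EL3) -/
def Up3Statement : Prop :=
  ∀ η1 η2 ζ1 ζ2 d ρ : ℝ, Hy3 η1 η2 ζ1 ζ2 d → 0 < ρ → ∃ δ l : ℝ, 0 < δ ∧ 2 * d < l ∧
    UpG (u3 η1 η2 ζ1 ζ2) (h3 ζ1 ζ2 d) (Mv η1 η2 ∪ Mw ζ1 ζ2) (Ev η1 η2 ∪ Ew ζ1 ζ2)
      (M3 η1 η2 ζ1 ζ2) (E3 η1 η2 ζ1 ζ2) (S3 d ρ) δ l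

/-- LO3: geometry of the lower bound (POL, NR3, EL3) -/
def Lo3Statement : Prop :=
  ∀ η1 η2 ζ1 ζ2 d ρ : ℝ, Hy3 η1 η2 ζ1 ζ2 d → 0 < ρ → ∃ δ l : ℝ, 0 < δ ∧ 2 * d < l ∧
    LoG (u3 η1 η2 ζ1 ζ2) (h3 ζ1 ζ2 d) (Ev η1 η2 ∪ Ew ζ1 ζ2)
      (M3 η1 η2 ζ1 ζ2) (E3 η1 η2 ζ1 ζ2) (S3 d ρ) δ l

/-- LC3: locality (LCC) -/
def Lc3Statement : Prop :=
  ∀ η1 η2 ζ1 ζ2 d : ℝ, Hy3 η1 η2 ζ1 ζ2 d → ∃ R : ℝ, 0 < R ∧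
    LcG (u3 η1 η2 ζ1 ζ2) (h3 ζ1 ζ2 d) (Mv η1 η2 ∪ Mw ζ1 ζ2) (Ev η1 η2 ∪ Ew ζ1 ζ2) R

/-- CR3: the corner kernels of G3 (CVV, CVA, TRF) -/
def Cr3Statement : Prop :=
  ∀ η1 η2 ζ1 ζ2 d : ℝ, Hy3 η1 η2 ζ1 ζ2 d → ∃ ρ c C κ0 : ℝ, 0 < ρ ∧ 0 < c ∧ 0 < C ∧ 0 < κ0 ∧
    ∀ (κ : ℝ) (x y z : ℂ), κ0 ≤ κ → x ∈ S3 d ρ 0 → z ∈ S3 d ρ 1 → y ∈ S3 d ρ 2 →
      (ENNReal.ofReal (c * κ⁻¹ * Real.exp (-(κ * (‖x - d‖ + ‖z - d‖))))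
        ≤ Lh (kME (u3 η1 η2 ζ1 ζ2) (h3 ζ1 ζ2 d) (Mw ζ1 ζ2) (Ew ζ1 ζ2)) κ x z ∧
      Lh (kME (u3 η1 η2 ζ1 ζ2) (h3 ζ1 ζ2 d) (Mw ζ1 ζ2) (Ew ζ1 ζ2)) κ x z
        ≤ ENNReal.ofReal (C * κ⁻¹ * Real.exp (-(κ * (‖x - d‖ + ‖z - d‖))))) ∧
      ENNReal.ofReal (c * κ⁻¹ * Real.exp (-(κ * (‖y‖ + ‖x‖))))
        ≤ Lh (kME (u3 η1 η2 ζ1 ζ2) (h3 ζ1 ζ2 d) (Mv η1 η2) (Ev η1 η2)) κ y x ∧
      Lh (kME (u3 η1 η2 ζ1 ζ2) (h3 ζ1 ζ2 d) (Mv η1 η2) (Ev η1 η2)) κ y x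
        ≤ ENNReal.ofReal (C * κ⁻¹ * Real.exp (-(κ * (‖y‖ + ‖x‖))))

/-- PB3: the order of `P3` in G3 is `4` (CR3, MID, IN1, IN2) -/
def Pb3Statement : Prop :=
  ∀ η1 η2 ζ1 ζ2 d : ℝ, Hy3 η1 η2 ζ1 ζ2 d → ∃ ρ c C κ0 : ℝ, 0 < ρ ∧ 0 < c ∧ 0 < C ∧ 0 < κ0 ∧
    ∀ κ : ℝ, κ0 ≤ κ →
      ENNReal.ofReal (c * κ ^ (-4 : ℝ) * Real.exp (-(2 * d * κ)))
        ≤ P3 (u3 η1 η2 ζ1 ζ2) (h3 ζ1 ζ2 d) (M3 η1 η2 ζ1 ζ2) (E3 η1 η2 ζ1 ζ2) (S3 d ρ) κ ∧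
      P3 (u3 η1 η2 ζ1 ζ2) (h3 ζ1 ζ2 d) (M3 η1 η2 ζ1 ζ2) (E3 η1 η2 ζ1 ζ2) (S3 d ρ) κ
        ≤ ENNReal.ofReal (C * κ ^ (-4 : ℝ) * Real.exp (-(2 * d * κ)))

/-! ### The configuration of G4 -/

/-- normals -/
noncomputable def u4 (α α' θ θ' : ℝ) : Fin 4 → ℂ :=
  ![I * exp (α * I), -(I * exp (-((0 : ℝ) * I))), exp ((Real.pi / 2 - α' : ℝ) * I),
    exp ((Real.pi / 2 + (θ - θ') / 2 : ℝ) * I)]

/-- support numbers -/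
noncomputable def h4 (α' θ θ' d : ℝ) (a : ℂ) : Fin 4 → ℝ :=
  ![0, 0, ip (exp ((Real.pi / 2 - α' : ℝ) * I)) d,
    ip (exp ((Real.pi / 2 + (θ - θ') / 2 : ℝ) * I)) a]

/-- labels visited on the three arcs -/
def M4 : Fin 3 → Finset (Fin 4) := ![{2}, {3}, {0}]

/-- labels avoided on the three arcs -/
def E4 : Fin 3 → Finset (Fin 4) := ![{1}, ∅, {1}]

/-- the windows -/
noncomputable def S4 (θ θ' d : ℝ) (a : ℂ) (ρ : ℝ) : Fin 3 → Set ℂ :=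
  ![RcU (9 / 20 * d) (11 / 20 * d) ρ,
    (fun x : ℂ => (d : ℂ) - (starRingEnd ℂ) (exp (θ' * I) * x)) ''
      Rct (9 / 20 * ‖a - d‖) (11 / 20 * ‖a - d‖) ρ,
    (fun x : ℂ => exp (θ * I) * x) '' Rct (9 / 20 * ‖a‖) (11 / 20 * ‖a‖) ρ]

/-- the hypotheses of G4 -/
structure Hy4 (α α' θ θ' d : ℝ) (a : ℂ) : Prop where
  a1 : Real.pi / 2 < α
  a2 : α < Real.pi
  b1 : Real.pi / 2 < α'
  b2 : α' < Real.pi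
  c1 : 0 < θ
  c2 : θ < 2 * α - Real.pi
  c3 : 0 < θ'
  c4 : θ' < 2 * α' - Real.pi
  dpos : 0 < d
  tri : θ + θ' < Real.pi
  ea : ∃ p : ℝ, 0 < p ∧ a = p * exp (θ * I)
  ea' : ∃ p : ℝ, 0 < p ∧ a = d - p * exp (-(θ' * I))

/-- the length -/
noncomputable def L4 (d : ℝ) (a : ℂ) : ℝ := d + ‖a‖ + ‖a - d‖

/-- NR4: nearly minimal triangles (certificate: the gradients `-(e + e')` of the perimeter at the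
vertices are in the dual cones) -/
def Nr4Statement : Prop :=
  ∀ (α α' θ θ' d : ℝ) (a : ℂ) (ρ : ℝ), Hy4 α α' θ θ' d a → 0 < ρ → ∃ δ : ℝ, 0 < δ ∧
    ∀ p0 p2 p3 : ℂ, ‖p0 - p2‖ + ‖p2 - p3‖ + ‖p3 - p0‖ < L4 d a + δ →
      h4 α' θ θ' d a 0 - δ ≤ ip (u4 α α' θ θ' 0) p0 → -δ ≤ p0.im →
      h4 α' θ θ' d a 2 - δ ≤ ip (u4 α α' θ θ' 2) p2 → -δ ≤ p2.im →
      h4 α' θ θ' d a 3 - δ ≤ ip (u4 α α' θ θ' 3) p3 →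
      ‖p0‖ < ρ ∧ ‖p2 - d‖ < ρ ∧ ‖p3 - a‖ < ρ

/-- UP4: geometry of the upper bound (POL, NR4) -/
def Up4Statement : Prop :=
  ∀ (α α' θ θ' d : ℝ) (a : ℂ) (ρ : ℝ), Hy4 α α' θ θ' d a → 0 < ρ →
    ∃ δ l : ℝ, 0 < δ ∧ L4 d a < l ∧
    UpG (u4 α α' θ θ') (h4 α' θ θ' d a) {0, 2, 3} {1} M4 E4 (S4 θ θ' d a ρ) δ l

/-- LO4: geometry of the lower bound (POL, NR4) -/
def Lo4Statement : Prop :=
  ∀ (α α' θ θ' d : ℝ) (a : ℂ), Hy4 α α' θ θ' d a → ∃ ρ0 : ℝ, 0 < ρ0 ∧ ∀ ρ : ℝ, 0 < ρ → ρ < ρ0 →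
    ∃ δ l : ℝ, 0 < δ ∧ L4 d a < l ∧
    LoG (u4 α α' θ θ') (h4 α' θ θ' d a) {1} M4 E4 (S4 θ θ' d a ρ) δ l

/-- LC4: locality (LCC) -/
def Lc4Statement : Prop :=
  ∀ (α α' θ θ' d : ℝ) (a : ℂ), Hy4 α α' θ θ' d a → ∃ R : ℝ, 0 < R ∧
    LcG (u4 α α' θ θ') (h4 α' θ θ' d a) {0, 2, 3} {1} R

/-- CR4: the kernels of the three arcs of G4 (CEA, TRF, MID) -/
def Cr4Statement : Prop :=
  ∀ (α α' θ θ' d : ℝ) (a : ℂ), Hy4 α α' θ θ' d a → ∃ ρ0 : ℝ, 0 < ρ0 ∧ ∀ ρ : ℝ, 0 < ρ → ρ < ρ0 →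
    ∃ c C κ0 : ℝ, 0 < c ∧ 0 < C ∧ 0 < κ0 ∧
    ∀ (κ : ℝ) (x y z : ℂ), κ0 ≤ κ → x ∈ S4 θ θ' d a ρ 0 → z ∈ S4 θ θ' d a ρ 1 →
      y ∈ S4 θ θ' d a ρ 2 →
      (ENNReal.ofReal (c * x.im * κ⁻¹ * Real.exp (-(κ * (‖x - d‖ + ‖z - d‖))))
        ≤ Lh (kME (u4 α α' θ θ') (h4 α' θ θ' d a) {2} {1}) κ x z ∧
      Lh (kME (u4 α α' θ θ') (h4 α' θ θ' d a) {2} {1}) κ x z
        ≤ ENNReal.ofReal (C * x.im * κ⁻¹ * Real.exp (-(κ * (‖x - d‖ + ‖z - d‖))))) ∧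
      (ENNReal.ofReal (c * κ ^ (-(1 / 2) : ℝ) * Real.exp (-(κ
          * ‖z - rf (u4 α α' θ θ') (h4 α' θ θ' d a) 3 y‖)))
        ≤ Lh (kME (u4 α α' θ θ') (h4 α' θ θ' d a) {3} ∅) κ z y ∧
      Lh (kME (u4 α α' θ θ') (h4 α' θ θ' d a) {3} ∅) κ z y
        ≤ ENNReal.ofReal (C * κ ^ (-(1 / 2) : ℝ) * Real.exp (-(κ
          * ‖z - rf (u4 α α' θ θ') (h4 α' θ θ' d a) 3 y‖)))) ∧
      ENNReal.ofReal (c * x.im * κ⁻¹ * Real.exp (-(κ * (‖y‖ + ‖x‖))))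
        ≤ Lh (kME (u4 α α' θ θ') (h4 α' θ θ' d a) {0} {1}) κ y x ∧
      Lh (kME (u4 α α' θ θ') (h4 α' θ θ' d a) {0} {1}) κ y x
        ≤ ENNReal.ofReal (C * x.im * κ⁻¹ * Real.exp (-(κ * (‖y‖ + ‖x‖))))

/-- PB4: the order of `P3` in G4 is `5` (CR4, IN1, IN2; unfold in line `3`) -/
def Pb4Statement : Prop :=
  ∀ (α α' θ θ' d : ℝ) (a : ℂ), Hy4 α α' θ θ' d a → ∃ ρ0 : ℝ, 0 < ρ0 ∧ ∀ ρ : ℝ, 0 < ρ → ρ < ρ0 →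
    ∃ c C κ0 : ℝ, 0 < c ∧ 0 < C ∧ 0 < κ0 ∧ ∀ κ : ℝ, κ0 ≤ κ →
      ENNReal.ofReal (c * κ ^ (-5 : ℝ) * Real.exp (-(L4 d a * κ)))
        ≤ P3 (u4 α α' θ θ') (h4 α' θ θ' d a) M4 E4 (S4 θ θ' d a ρ) κ ∧
      P3 (u4 α α' θ θ') (h4 α' θ θ' d a) M4 E4 (S4 θ θ' d a ρ) κ
        ≤ ENNReal.ofReal (C * κ ^ (-5 : ℝ) * Real.exp (-(L4 d a * κ)))

end Pool.Agent.XQ.K4
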