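import Pool.Agent.Helper36_XQ.Stmt4
import Pool.Agent.Helper16_XQ.StmtE

/-!
Squad XQ (MP_5b0138_an), part A, germs GE1 and GE2: block part (helper36).  Statements of the
modules; the plan is `/team-store/XQ_planGE.md`.

Labels: `0`, `1` the sides at the vertex `0`, `2` the line `q`, `3` the line `r`. The loop runs from
the vertex to `q`, to `r` and back. It is cut on the leg from `q` to `r`; the part up to the first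
visit of `r` is reflected in `r`, the part after the last visit of `q` is reflected in `q`.
-/

set_option autoImplicit false

namespace Pool.Agent.XQ.K4

open MeasureTheory Complex Filter Topology ProbabilityTheory Pool.Agent.H16Iso Pool.Agent.H62T
  Pool.Agent.H16F Pool.Agent.H38KL Pool.Agent.AEU
open scoped ENNReal NNReal

/-! ### Patterns -/

/-- indicator function of a set -/
noncomputable def chi (C : Set ℂ) (x : ℂ) : ℝ := C.indicator (fun _ => (1 : ℝ)) x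

/-- after block `0`, the label `3` is visited, then all labels in `O`, then the label `2` -/
def F4 {n : ℕ} [NeZero n] (O : Finset (Fin 4)) (A : Fin n → Finset (Fin 4)) : Prop :=
  ∃ a b : ℕ, 0 < a ∧ a < b ∧ b < n ∧ 3 ∈ A (Fin.ofNat n a) ∧ 2 ∈ A (Fin.ofNat n b) ∧
    ∀ s ∈ O, ∃ l : ℕ, a < l ∧ l < b ∧ s ∈ A (Fin.ofNat n l)

/-- three clusters of visits, in the cyclic order `s`, `O`, `s'` -/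
def Cl3 {n : ℕ} [NeZero n] (s s' : Fin 4) (O : Finset (Fin 4)) (A : Fin n → Finset (Fin 4)) :
    Prop :=
  ∃ (j : Fin n) (a b : ℕ), a < b ∧ b < n ∧
    ((∃ l : ℕ, l < a ∧ s ∈ rot j A (Fin.ofNat n l)) ∧
      ∀ l : ℕ, l < a → rot j A (Fin.ofNat n l) ⊆ {s}) ∧
    ((∀ i ∈ O, ∃ l : ℕ, a ≤ l ∧ l < b ∧ i ∈ rot j A (Fin.ofNat n l)) ∧
      ∀ l : ℕ, a ≤ l → l < b → rot j A (Fin.ofNat n l) ⊆ {0, 1}) ∧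
    (∃ l : ℕ, b ≤ l ∧ l < n ∧ s' ∈ rot j A (Fin.ofNat n l)) ∧
      ∀ l : ℕ, b ≤ l → l < n → rot j A (Fin.ofNat n l) ⊆ {s'}

/-- the cut is adapted to the visits -/
def Ada {n : ℕ} [NeZero n] (C : Set ℂ) (x : Fin n → ℂ) (A : Fin n → Finset (Fin 4)) : Prop :=
  (∀ j, 2 ∈ A j → x j ∉ C ∧ x (j + 1) ∉ C) ∧ ∀ j, 3 ∈ A j → x j ∈ C ∧ x (j + 1) ∈ C

open Classical in
/-- TEL: telescoping -/
def TelStatement : Prop :=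
  ∀ (n : ℕ) [NeZero n] (O : Finset (Fin 4)) (C : Set ℂ) (x : Fin n → ℂ)
    (A : Fin n → Finset (Fin 4)), O.Nonempty → O ⊆ {0, 1} → Ada C x A →
    (Cl3 3 2 O A → ∑ j, (chi C (x (j + 1)) - chi C (x j)) * (if F4 O (rot j A) then 1 else 0) = 1) ∧
    (Cl3 2 3 O A → ∀ j, ¬ F4 O (rot j A))

/-- reversed durations -/
def rvt {n : ℕ} [NeZero n] {β : Type} (f : Fin n → β) (j : Fin n) : β := f (-(j + 1))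

/-- RVM: reversal of time -/
def RvmStatement : Prop :=
  (∀ (u : Fin 4 → ℂ) (h : Fin 4 → ℝ) (n : ℕ) [NeZero n] (τ : Fin n → ℝ)
    (P : (Fin n → ℂ) → (Fin n → Finset (Fin 4)) → Prop), (∀ s, ‖u s‖ = 1) → (∀ j, 0 < τ j) →
    Ms u h (rvt τ) (fun x A => P (fun j => x (-j)) (rvt A)) = Ms u h τ P) ∧
  ∀ (n : ℕ) [NeZero n] (O E M : Finset (Fin 4)) (C : Set ℂ) (x : Fin n → ℂ)
    (A : Fin n → Finset (Fin 4)),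
    (Ada C (fun j => x (-j)) (rvt A) ↔ Ada C x A) ∧ (Vis M E (rvt A) ↔ Vis M E A) ∧
    (∀ s s' : Fin 4, Cl3 s s' O (rvt A) ↔ Cl3 s' s O A)

/-! ### Fluxes -/

open Classical in
/-- the flux through block `0` -/
noncomputable def TC4 {n : ℕ} [NeZero n] (u : Fin 4 → ℂ) (h : Fin 4 → ℝ) (τ : Fin n → ℝ)
    (O E : Finset (Fin 4)) (C : Set ℂ) : ℝ :=
  ∑ A : Fin n → Finset (Fin 4), ∫ x, (chi C (x 1) - chi C (x 0)) *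
    (if F4 O A ∧ ∀ j, Disjoint (A j) E then wt u h τ x A else 0)

/-- BLC4: the mass of the loops is the sum of the fluxes in both orientations up to a bad event -/
def Blc4Statement : Prop :=
  ∀ (u : Fin 4 → ℂ) (h : Fin 4 → ℝ) (n : ℕ) [NeZero n] (τ : Fin n → ℝ)
    (O E : Finset (Fin 4)) (C : Set ℂ), (∀ s, ‖u s‖ = 1) → 2 ≤ n → (∀ j, 0 < τ j) →
    O.Nonempty → O ⊆ {0, 1} → E ⊆ {0, 1} → MeasurableSet C →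
    Ms u h τ (fun _ A => Vis (O ∪ {2, 3}) E A) ≠ ⊤ →
    |(Vt u h (O ∪ {2, 3}) E (∑ j, τ j)).toReal - ∑ j : Fin n, TC4 u h (rot j τ) O E C
        - ∑ j : Fin n, TC4 u h (rot j (rvt τ)) O E C|
      ≤ (2 * n + 1) * (Ms u h τ (fun x A => Vis (O ∪ {2, 3}) E A ∧
        ¬ (Ada C x A ∧ (Cl3 3 2 O A ∨ Cl3 2 3 O A)))).toReal

/-- the flux through the window, computed by two reflections -/
noncomputable def TTG (u : Fin 4 → ℂ) (h : Fin 4 → ℝ) (O E : Finset (Fin 4)) (C W : Set ℂ)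
    (a t : ℝ) : ℝ :=
  ∫ x in W, ∫ y in W, G a (x - y) * (chi C y - chi C x)
    * kME u h O E (t - a) (rf u h 3 y) (rf u h 2 x)

/-- `k` is the first block after block `0` with label `3` -/
def Fs {n : ℕ} [NeZero n] (A : Fin n → Finset (Fin 4)) (k : ℕ) : Prop :=
  0 < k ∧ k < n ∧ 3 ∈ A (Fin.ofNat n k) ∧ ∀ l : ℕ, 0 < l → l < k → 3 ∉ A (Fin.ofNat n l)

/-- `m` is the last block with label `2` -/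
def Ls {n : ℕ} [NeZero n] (A : Fin n → Finset (Fin 4)) (m : ℕ) : Prop :=
  0 < m ∧ m < n ∧ 2 ∈ A (Fin.ofNat n m) ∧ ∀ l : ℕ, m < l → l < n → 2 ∉ A (Fin.ofNat n l)

/-- between the first visit of `3` and the last visit of `2` all labels in `O` are visited and
none in `E` -/
def P2 {n : ℕ} [NeZero n] (O E : Finset (Fin 4)) (A : Fin n → Finset (Fin 4)) : Prop :=
  ∃ k m : ℕ, Fs A k ∧ Ls A m ∧ k < m ∧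
    (∀ s ∈ O, ∃ l : ℕ, k < l ∧ l < m ∧ s ∈ A (Fin.ofNat n l)) ∧
    ∀ l : ℕ, k < l → l < m → Disjoint (A (Fin.ofNat n l)) E

/-- bad configurations of actual loops -/
def B1 {n : ℕ} [NeZero n] (O E : Finset (Fin 4)) (A : Fin n → Finset (Fin 4)) : Prop :=
  P2 O E A ∧ ∃ j, ¬ Disjoint (A j) E

/-- bad configurations of virtual loops -/
def B2 {n : ℕ} [NeZero n] (O E : Finset (Fin 4)) (A : Fin n → Finset (Fin 4)) : Prop :=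
  (P2 O E A ∧ ∃ l : ℕ, 0 < l ∧ l < n ∧ ¬ Disjoint (A (Fin.ofNat n l)) E) ∨
    (¬ P2 O E A ∧ (∀ s ∈ O, ∃ l : ℕ, 0 < l ∧ l < n ∧ s ∈ A (Fin.ofNat n l)) ∧
      ∀ l : ℕ, 0 < l → l < n → Disjoint (A (Fin.ofNat n l)) E)

/-- the other sides of the lines `2` and `3` -/
noncomputable def uc4 (u : Fin 4 → ℂ) : Fin 4 → ℂ :=
  Function.update (Function.update u 2 (-u 2)) 3 (-u 3)

/-- support numbers -/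
noncomputable def hc4 (h : Fin 4 → ℝ) : Fin 4 → ℝ :=
  Function.update (Function.update h 2 (-h 2)) 3 (-h 3)

/-- initial point of block `j` of a virtual loop -/
noncomputable def inv4 {n : ℕ} [NeZero n] (u : Fin 4 → ℂ) (h : Fin 4 → ℝ) (x : Fin n → ℂ)
    (j : Fin n) : ℂ := if j = 1 then rf u h 3 (x 1) else x j

/-- final point of block `j` of a virtual loop -/
noncomputable def fnv4 {n : ℕ} [NeZero n] (u : Fin 4 → ℂ) (h : Fin 4 → ℝ) (x : Fin n → ℂ)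
    (j : Fin n) : ℂ := if j + 1 = 0 then rf u h 2 (x 0) else x (j + 1)

/-- density of the virtual loops -/
noncomputable def wtv {n : ℕ} [NeZero n] (u : Fin 4 → ℂ) (h : Fin 4 → ℝ) (τ : Fin n → ℝ)
    (x : Fin n → ℂ) (A : Fin n → Finset (Fin 4)) : ℝ :=
  G (τ 0) (x 0 - x 1) * ∏ j ∈ Finset.univ.erase 0,
    kA (uc4 u) (hc4 h) (A j) (τ j) (inv4 u h x j) (fnv4 u h x j)

open Classical in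
/-- mass of a set of virtual loops with trivial label in block `0` -/
noncomputable def Mvr {n : ℕ} [NeZero n] (u : Fin 4 → ℂ) (h : Fin 4 → ℝ) (τ : Fin n → ℝ)
    (S : (Fin n → ℂ) → (Fin n → Finset (Fin 4)) → Prop) : ℝ≥0∞ :=
  ∑ A : Fin n → Finset (Fin 4), ∫⁻ x,
    if A 0 = ∅ ∧ S x A then ENNReal.ofReal (wtv u h τ x A) else 0

/-- virtual configurations of positive density -/
def Cnv {n : ℕ} [NeZero n] (u : Fin 4 → ℂ) (h : Fin 4 → ℝ) (x : Fin n → ℂ)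
    (A : Fin n → Finset (Fin 4)) : Prop :=
  ∀ (j : Fin n) (s : Fin 4), j ≠ 0 → s ∉ A j →
    ip (uc4 u s) (inv4 u h x j) < hc4 h s ∧ ip (uc4 u s) (fnv4 u h x j) < hc4 h s

/-- length of block `j` of a virtual configuration -/
noncomputable def blv4 {n : ℕ} [NeZero n] (u : Fin 4 → ℂ) (h : Fin 4 → ℝ) (x : Fin n → ℂ)
    (A : Fin n → Finset (Fin 4)) (j : Fin n) : ℝ :=
  if j = 0 then ‖x 0 - x 1‖ else bl (uc4 u) (hc4 h) (A j) (inv4 u h x j) (fnv4 u h x j)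

/-- total length of a virtual configuration -/
noncomputable def Lv {n : ℕ} [NeZero n] (u : Fin 4 → ℂ) (h : Fin 4 → ℝ) (x : Fin n → ℂ)
    (A : Fin n → Finset (Fin 4)) : ℝ := ∑ j, blv4 u h x A j

/-- all blocks of a virtual configuration are short -/
def Shv {n : ℕ} [NeZero n] (u : Fin 4 → ℂ) (h : Fin 4 → ℝ) (δ : ℝ) (x : Fin n → ℂ)
    (A : Fin n → Finset (Fin 4)) : Prop := ∀ j, blv4 u h x A j < δ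

/-- REF4: the part up to the first visit of `3` is reflected in line `3`, the part after the last
visit of `2` is reflected in line `2` -/
def Ref4Statement : Prop :=
  ∀ (u : Fin 4 → ℂ) (h : Fin 4 → ℝ) (n : ℕ) [NeZero n] (τ : Fin n → ℝ)
    (O E : Finset (Fin 4)) (C W : Set ℂ) (R : ℝ), (∀ s, ‖u s‖ = 1) → 3 ≤ n → (∀ j, 0 < τ j) →
    O.Nonempty → O ⊆ {0, 1} → E ⊆ {0, 1} → Disjoint O E → MeasurableSet C → MeasurableSet W →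
    (∀ x ∈ W, ‖x‖ ≤ R) → (∀ x ∈ W, ip (u 2) x < h 2 ∧ ip (u 3) x < h 3) →
    Ms u h τ (fun _ A => Vis (O ∪ {2, 3}) E A) ≠ ⊤ →
    ENNReal.ofReal |TC4 u h τ O E C - TTG u h O E C W (τ 0) (∑ j, τ j)|
      ≤ Ms u h τ (fun x A => F4 O A ∧ (∀ j, Disjoint (A j) E) ∧ chi C (x 0) ≠ chi C (x 1) ∧
          ¬ (x 0 ∈ W ∧ x 1 ∈ W))
        + Ms u h τ (fun x A => B1 O E A ∧ x 0 ∈ W ∧ x 1 ∈ W)
        + Mvr u h τ (fun x A => B2 O E A ∧ x 0 ∈ W ∧ x 1 ∈ W)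

/-- LDV: Gaussian bound of the mass of virtual loops (`H7.ldb` as in `ldm`) -/
def LdvStatement : Prop :=
  ∀ (u : Fin 4 → ℂ) (h : Fin 4 → ℝ), (∀ s, ‖u s‖ = 1) → ∀ (n : ℕ) [NeZero n], 3 ≤ n →
    ∀ (S : (Fin n → ℂ) → (Fin n → Finset (Fin 4)) → Prop) (δ l R ε : ℝ),
    (∀ A, MeasurableSet {x | S x A}) → 0 < δ → 0 < l → 0 < R → 0 < ε →
    (∀ x A, S x A → A 0 = ∅ → Cnv u h x A → Shv u h δ x A → l ≤ Lv u h x A) →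
    (∀ x A, S x A → ‖x 0‖ ≤ R) →
    ∃ (C : ℝ) (p : ℕ), ∀ τ : Fin n → ℝ, (∀ j, 0 < τ j) →
      (∀ j, τ j * l ^ 2 ≤ δ ^ 2 * ∑ i, τ i) →
      Mvr u h τ S ≤ ENNReal.ofReal (C * (1 + ∑ i, τ i) ^ p / (∑ i, τ i)
        * Real.exp (-((1 - ε) * l ^ 2 / (4 * ∑ i, τ i))))

/-! ### Assembly -/

/-- the geometric input of the block argument -/
structure Geo4 (u : Fin 4 → ℂ) (h : Fin 4 → ℝ) (O E : Finset (Fin 4)) (C W : Set ℂ)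
    (l δ R : ℝ) : Prop where
  hu : ∀ s, ‖u s‖ = 1
  hOn : O.Nonempty
  hO : O ⊆ {0, 1}
  hE : E ⊆ {0, 1}
  hOE : Disjoint O E
  hδ : 0 < δ
  hl : 0 < l
  hR : 0 < R
  hC : MeasurableSet C
  hW : MeasurableSet W
  hWR : ∀ x ∈ W, ‖x‖ ≤ R
  hWi : ∀ x ∈ W, ip (u 2) x < h 2 ∧ ip (u 3) x < h 3
  hWd : ∀ x ∈ W, ∀ y ∈ W, δ ≤ ‖rf u h 3 y - rf u h 2 x‖
  loc : LcG u h (O ∪ {2, 3}) E R
  g1 : ∀ (n : ℕ) [NeZero n] (x : Fin n → ℂ) (A : Fin n → Finset (Fin 4)), 3 ≤ n →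
    Vis (O ∪ {2, 3}) E A → Cns u h x A → Sho u h δ x A → Ln u h x A < l →
      Ada C x A ∧ (Cl3 3 2 O A ∨ Cl3 2 3 O A) ∧
        (F4 O A → chi C (x 0) ≠ chi C (x 1) → x 0 ∈ W ∧ x 1 ∈ W)
  g2 : ∀ (n : ℕ) [NeZero n] (x : Fin n → ℂ) (A : Fin n → Finset (Fin 4)), 3 ≤ n →
    B1 O E A → Cns u h x A → Sho u h δ x A → x 0 ∈ W → x 1 ∈ W → l ≤ Ln u h x A
  g3 : ∀ (n : ℕ) [NeZero n] (x : Fin n → ℂ) (A : Fin n → Finset (Fin 4)), 3 ≤ n →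
    A 0 = ∅ → B2 O E A → Cnv u h x A → Shv u h δ x A → x 0 ∈ W → x 1 ∈ W → l ≤ Lv u h x A

/-- ASA: the mass is twice the sum of the fluxes (`claimA` of `Helper60_AEU.Asm`) -/
def AsaStatement : Prop :=
  ∀ (u : Fin 4 → ℂ) (h : Fin 4 → ℝ) (O E : Finset (Fin 4)) (C W : Set ℂ) (l δ R ε : ℝ),
    Geo4 u h O E C W l δ R → 0 < ε → ∀ (n : ℕ) [NeZero n], 3 ≤ n →
    ∃ (D : ℝ) (p : ℕ), 0 ≤ D ∧ ∀ τ : Fin n → ℝ, (∀ j, 0 < τ j) →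
      (∀ j, τ j * l ^ 2 ≤ δ ^ 2 * ∑ i, τ i) →
      |(Vt u h (O ∪ {2, 3}) E (∑ j, τ j)).toReal
        - 2 * ∑ j, TTG u h O E C W (τ j) (∑ i, τ i)|
        ≤ D * (1 + ∑ i, τ i) ^ p / (∑ i, τ i)
          * Real.exp (-((1 - ε) * l ^ 2 / (4 * ∑ i, τ i)))

/-- ASM: from blocks to the Laplace transform (`claimB` and `asm` of `Helper60_AEU`) -/
def AsmStatement : Prop :=
  ∀ (u : Fin 4 → ℂ) (h : Fin 4 → ℝ) (O E : Finset (Fin 4)) (C W : Set ℂ) (l δ R ε : ℝ),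
    Geo4 u h O E C W l δ R → 0 < ε →
    ∃ c0 : ℝ, 0 < c0 ∧ ∀ c : ℝ, 0 < c → c < c0 → ∃ D κ0 : ℝ, 0 < κ0 ∧ ∀ κ : ℝ, κ0 ≤ κ →
      |H60K.PhiT (fun t => (Vt u h (O ∪ {2, 3}) E t).toReal) κ
        - 2 * (κ / c * ∫ t in Set.Ioi (c / κ), Real.exp (-(κ ^ 2 * t)) *
          TTG u h O E C W (c / κ) t)|
        ≤ D * Real.exp (-(κ * (l - ε)))

/-! ### The configuration -/

/-- normals -/
noncomputable def uE (η1 η2 δ1 δ2 : ℝ) : Fin 4 → ℂ :=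
  ![I * exp (η1 * I), -(I * exp (-(η2 * I))), exp (δ1 * I), exp (δ2 * I)]

/-- support numbers -/
noncomputable def hE (δ1 δ2 ρ : ℝ) : Fin 4 → ℝ := ![0, 0, ip (exp (δ1 * I)) ρ, ip (exp (δ2 * I)) ρ]

/-- the directions of the legs at the vertex are `exp (∓ i gE)` -/
noncomputable def gE (δ1 δ2 : ℝ) : ℝ := δ2 - δ1 - Real.pi / 2

/-- the length -/
noncomputable def LE (δ1 δ2 ρ : ℝ) : ℝ := 2 * ρ * Real.sin (δ2 - δ1)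

/-- length of the first leg -/
noncomputable def sq (δ1 δ2 ρ : ℝ) : ℝ := ρ * Real.cos δ1 / Real.sin δ2

/-- length of the last leg -/
noncomputable def sr (δ1 δ2 ρ : ℝ) : ℝ := ρ * Real.cos δ2 / -Real.sin δ1

/-- the point on line `2` -/
noncomputable def Qp (δ1 δ2 ρ : ℝ) : ℂ := exp (-(gE δ1 δ2 * I)) * sq δ1 δ2 ρ

/-- the point on line `3` -/
noncomputable def Rp (δ1 δ2 ρ : ℝ) : ℂ := exp (gE δ1 δ2 * I) * sr δ1 δ2 ρ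

/-- the position of the cut -/
noncomputable def xiE (δ1 δ2 ρ : ℝ) : ℝ := (sq δ1 δ2 ρ + (LE δ1 δ2 ρ - sr δ1 δ2 ρ)) / 2

/-- reflection in line `2` -/
noncomputable def rfq (δ1 ρ : ℝ) (x : ℂ) : ℂ :=
  x - ((2 * (ip (exp (δ1 * I)) x - ip (exp (δ1 * I)) ρ) : ℝ) : ℂ) * exp (δ1 * I)

/-- unfolded coordinate on the middle leg -/
noncomputable def mi (δ1 δ2 ρ : ℝ) (x : ℂ) : ℂ := exp (gE δ1 δ2 * I) * rfq δ1 ρ x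

/-- the cut -/
noncomputable def CE (δ1 δ2 ρ : ℝ) : Set ℂ := {x | xiE δ1 δ2 ρ ≤ (mi δ1 δ2 ρ x).re}

/-- the window -/
noncomputable def WE (δ1 δ2 ρ δ ζ : ℝ) : Set ℂ :=
  {x | mi δ1 δ2 ρ x ∈ H60K.Rw (xiE δ1 δ2 ρ) δ ζ ζ}

/-- the hypotheses on the lines `2` and `3` -/
structure HyL (δ1 δ2 ρ : ℝ) : Prop where
  b1 : -(Real.pi / 2) < δ1
  b2 : δ1 < 0
  b3 : 0 < δ2
  b4 : δ2 < Real.pi / 2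
  b5 : Real.pi / 2 < δ2 - δ1
  r : 0 < ρ

/-- the hypotheses of GE2 -/
structure Hy2 (η1 η2 δ1 δ2 ρ : ℝ) : Prop extends HyL δ1 δ2 ρ where
  a1 : 0 < η1
  a2 : η1 < Real.pi / 2
  a3 : 0 < η2
  a4 : η2 < Real.pi / 2
  c : δ2 - δ1 < η1 + η2

/-- the hypotheses of GE1 -/
structure Hy1 (η1 η2 δ1 δ2 ρ : ℝ) : Prop extends HyL δ1 δ2 ρ where
  a1 : Real.pi / 2 < η1
  a2 : 0 < η2
  a3 : η1 + η2 < Real.pi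
  c : δ2 - δ1 - Real.pi / 2 < η2

/-- PTE: elementary facts on the points of the configuration -/
def PteStatement : Prop :=
  ∀ δ1 δ2 ρ : ℝ, HyL δ1 δ2 ρ →
    0 < gE δ1 δ2 ∧ gE δ1 δ2 < Real.pi / 2 ∧ 0 < sq δ1 δ2 ρ ∧ 0 < sr δ1 δ2 ρ ∧
    sq δ1 δ2 ρ < LE δ1 δ2 ρ - sr δ1 δ2 ρ ∧
    ‖Qp δ1 δ2 ρ - Rp δ1 δ2 ρ‖ = LE δ1 δ2 ρ - sr δ1 δ2 ρ - sq δ1 δ2 ρ ∧
    ip (exp (δ1 * I)) (Qp δ1 δ2 ρ) = ip (exp (δ1 * I)) ρ ∧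
    ip (exp (δ2 * I)) (Rp δ1 δ2 ρ) = ip (exp (δ2 * I)) ρ ∧
    ip (exp (δ2 * I)) (Qp δ1 δ2 ρ) < ip (exp (δ2 * I)) ρ ∧
    ip (exp (δ1 * I)) (Rp δ1 δ2 ρ) < ip (exp (δ1 * I)) ρ ∧
    mi δ1 δ2 ρ (Qp δ1 δ2 ρ) = sq δ1 δ2 ρ ∧
    mi δ1 δ2 ρ (Rp δ1 δ2 ρ) = (LE δ1 δ2 ρ - sr δ1 δ2 ρ : ℝ) ∧
    (∀ x y : ℂ, ‖mi δ1 δ2 ρ x - mi δ1 δ2 ρ y‖ = ‖x - y‖) ∧
    ∀ η1 η2 : ℝ, ∀ x : ℂ,
      rf (uE η1 η2 δ1 δ2) (hE δ1 δ2 ρ) 2 x = exp (-(gE δ1 δ2 * I)) * mi δ1 δ2 ρ x ∧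
      rf (uE η1 η2 δ1 δ2) (hE δ1 δ2 ρ) 3 x
        = exp (gE δ1 δ2 * I) * (LE δ1 δ2 ρ - mi δ1 δ2 ρ x) ∧
      2 * Real.cos (gE δ1 δ2) * x.re = 2 * Real.sin δ2 * ip (exp (δ1 * I)) x
        + 2 * (-Real.sin δ1) * ip (exp (δ2 * I)) x

/-- TTX: the flux in the unfolded frame -/
def TtxStatement : Prop :=
  ∀ η1 η2 δ1 δ2 ρ δ ζ a t : ℝ, HyL δ1 δ2 ρ → 0 < a → a < t →
    TTG (uE η1 η2 δ1 δ2) (hE δ1 δ2 ρ) {0, 1} ∅ (CE δ1 δ2 ρ) (WE δ1 δ2 ρ δ ζ) a t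
      = E.TTE η1 η2 (gE δ1 δ2) (LE δ1 δ2 ρ) {1, 2} ∅ (xiE δ1 δ2 ρ) δ ζ ζ a t ∧
    TTG (uE η1 η2 δ1 δ2) (hE δ1 δ2 ρ) {0} {1} (CE δ1 δ2 ρ) (WE δ1 δ2 ρ δ ζ) a t
      = E.TTE η1 η2 (gE δ1 δ2) (LE δ1 δ2 ρ) {1} {2} (xiE δ1 δ2 ρ) δ ζ ζ a t

/-! ### Geometry -/

/-- CYC: three contiguous clusters -/
def CycStatement : Prop :=
  ∀ (n : ℕ) [NeZero n] (O : Finset (Fin 4)) (A : Fin n → Finset (Fin 4)), O.Nonempty →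
    O ⊆ {0, 1} → (∀ s ∈ O ∪ {2, 3}, ∃ j, s ∈ A j) →
    (∀ j, A j ⊆ {0, 1} ∨ A j ⊆ {2} ∨ A j ⊆ {3}) →
    (∀ X : Finset (Fin 4), X = {0, 1} ∨ X = {2} ∨ X = {3} → ∀ (j : Fin n) (a b c : ℕ), 0 < a →
      a < b → b < c → c < n → ¬ Disjoint (A j) X → ¬ A (j + Fin.ofNat n a) ⊆ X →
      ¬ Disjoint (A (j + Fin.ofNat n b)) X → A (j + Fin.ofNat n c) ⊆ X) →
    Cl3 3 2 O A ∨ Cl3 2 3 O A

/-- CE2: certificate at the vertex (as `Hc4Statement`) -/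
def Ce2Statement : Prop :=
  ∀ η1 η2 γ : ℝ, 0 < η1 → η1 < Real.pi / 2 → 0 < η2 → η2 < Real.pi / 2 → 0 < γ →
    γ + Real.pi / 2 < η1 + η2 → ∃ c0 c1 r0 : ℝ, 0 < c0 ∧ 0 < c1 ∧ 0 < r0 ∧
    c0 * Real.sin η1 + c1 * Real.sin η2 = 2 * Real.cos γ ∧
    c0 * Real.cos η1 = c1 * Real.cos η2 ∧
    ∀ (ψ : ℝ) (p : Fin 4 → ℂ), 3 * Real.pi / 2 - γ ≤ ψ → ψ ≤ 5 * Real.pi / 2 + γ →
      c0 * ip (I * exp (η1 * I)) (p 0) + c1 * ip (-(I * exp (-(η2 * I)))) (p 1)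
        + r0 * ‖p 0 - p 1‖
        + ip (-I * (exp (ψ * I) - exp ((3 * Real.pi / 2 - γ : ℝ) * I))) (p 2)
        + ip (-I * (exp ((5 * Real.pi / 2 + γ : ℝ) * I) - exp (ψ * I))) (p 3)
        ≤ lam (hf p)

/-- TRE: nearly minimal triangles -/
def TreStatement : Prop :=
  ∀ δ1 δ2 ρ ε : ℝ, HyL δ1 δ2 ρ → 0 < ε → ∃ δ : ℝ, 0 < δ ∧ ∀ p0 p2 p3 : ℂ, p0.re ≤ δ →
    ip (exp (δ1 * I)) ρ - δ ≤ ip (exp (δ1 * I)) p2 →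
    ip (exp (δ2 * I)) ρ - δ ≤ ip (exp (δ2 * I)) p3 →
    ‖p0 - p2‖ + ‖p2 - p3‖ + ‖p3 - p0‖ < LE δ1 δ2 ρ + δ →
    ‖p0‖ < ε ∧ ‖p2 - Qp δ1 δ2 ρ‖ < ε ∧ ‖p3 - Rp δ1 δ2 ρ‖ < ε

/-- NE2: nearly minimal quadruples, GE2 (CE2, TRE, PTE) -/
def Ne2Statement : Prop :=
  ∀ η1 η2 δ1 δ2 ρ ε : ℝ, Hy2 η1 η2 δ1 δ2 ρ → 0 < ε → ∃ δ : ℝ, 0 < δ ∧ ∀ p : Fin 4 → ℂ,
    (∀ s, hE δ1 δ2 ρ s - δ ≤ ip (uE η1 η2 δ1 δ2 s) (p s)) → lam (hf p) < LE δ1 δ2 ρ + δ →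
    ‖p 0‖ < ε ∧ ‖p 1‖ < ε ∧ ‖p 2 - Qp δ1 δ2 ρ‖ < ε ∧ ‖p 3 - Rp δ1 δ2 ρ‖ < ε

/-- GAC: near-minimal loops, common part of GE1 and GE2 (POL, PTE, CYC) -/
def GacStatement : Prop :=
  ∀ δ1 δ2 ρ ζ : ℝ, HyL δ1 δ2 ρ → 0 < ζ → ∃ e : ℝ, 0 < e ∧ ∀ δ : ℝ, 0 < δ → δ < e →
    ∀ (O : Finset (Fin 4)) (n : ℕ) [NeZero n] (x : Fin n → ℂ) (A : Fin n → Finset (Fin 4)),
    O.Nonempty → O ⊆ {0, 1} → (∀ s ∈ O ∪ {2, 3}, ∃ j, s ∈ A j) →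
    (∀ j, 0 ∈ A j ∨ 1 ∈ A j → ‖x j‖ < e) → (∀ j, 2 ∈ A j → ‖x j - Qp δ1 δ2 ρ‖ < e) →
    (∀ j, 3 ∈ A j → ‖x j - Rp δ1 δ2 ρ‖ < e) → (∀ j, ‖x j - x (j + 1)‖ < δ) →
    Pl x < LE δ1 δ2 ρ + e →
    Ada (CE δ1 δ2 ρ) x A ∧ (Cl3 3 2 O A ∨ Cl3 2 3 O A) ∧
      (F4 O A → chi (CE δ1 δ2 ρ) (x 0) ≠ chi (CE δ1 δ2 ρ) (x 1) →
        x 0 ∈ WE δ1 δ2 ρ δ ζ ∧ x 1 ∈ WE δ1 δ2 ρ δ ζ)

/-- GA2: near-minimal loops, GE2 (POL, NE2, GAC) -/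
def Ga2Statement : Prop :=
  ∀ η1 η2 δ1 δ2 ρ ζ : ℝ, Hy2 η1 η2 δ1 δ2 ρ → 0 < ζ → ∃ e δ0 : ℝ, 0 < e ∧ 0 < δ0 ∧
    ∀ δ : ℝ, 0 < δ → δ < δ0 →
    ∀ (n : ℕ) [NeZero n] (x : Fin n → ℂ) (A : Fin n → Finset (Fin 4)),
    Vis ({0, 1} ∪ {2, 3}) ∅ A → Cns (uE η1 η2 δ1 δ2) (hE δ1 δ2 ρ) x A →
    Sho (uE η1 η2 δ1 δ2) (hE δ1 δ2 ρ) δ x A →
    Ln (uE η1 η2 δ1 δ2) (hE δ1 δ2 ρ) x A < LE δ1 δ2 ρ + e →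
      Ada (CE δ1 δ2 ρ) x A ∧ (Cl3 3 2 {0, 1} A ∨ Cl3 2 3 {0, 1} A) ∧
        (F4 {0, 1} A → chi (CE δ1 δ2 ρ) (x 0) ≠ chi (CE δ1 δ2 ρ) (x 1) →
          x 0 ∈ WE δ1 δ2 ρ δ ζ ∧ x 1 ∈ WE δ1 δ2 ρ δ ζ)

/-- GA1: near-minimal loops, GE1 (POL, TRE, GAC) -/
def Ga1Statement : Prop :=
  ∀ η1 η2 δ1 δ2 ρ ζ : ℝ, Hy1 η1 η2 δ1 δ2 ρ → 0 < ζ → ∃ e δ0 : ℝ, 0 < e ∧ 0 < δ0 ∧
    ∀ δ : ℝ, 0 < δ → δ < δ0 →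
    ∀ (n : ℕ) [NeZero n] (x : Fin n → ℂ) (A : Fin n → Finset (Fin 4)),
    Vis ({0} ∪ {2, 3}) {1} A → Cns (uE η1 η2 δ1 δ2) (hE δ1 δ2 ρ) x A →
    Sho (uE η1 η2 δ1 δ2) (hE δ1 δ2 ρ) δ x A →
    Ln (uE η1 η2 δ1 δ2) (hE δ1 δ2 ρ) x A < LE δ1 δ2 ρ + e →
      Ada (CE δ1 δ2 ρ) x A ∧ (Cl3 3 2 {0} A ∨ Cl3 2 3 {0} A) ∧
        (F4 {0} A → chi (CE δ1 δ2 ρ) (x 0) ≠ chi (CE δ1 δ2 ρ) (x 1) →
          x 0 ∈ WE δ1 δ2 ρ δ ζ ∧ x 1 ∈ WE δ1 δ2 ρ δ ζ)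

/-- VCH: nearly minimal chains through the vertex in the unfolded picture -/
def VchStatement : Prop :=
  ∀ δ1 δ2 ρ ε : ℝ, HyL δ1 δ2 ρ → 0 < ε → ∃ δ : ℝ, 0 < δ ∧ ∀ x y p : ℂ,
    |x.re - xiE δ1 δ2 ρ| < δ → |x.im| < δ → |y.re - xiE δ1 δ2 ρ| < δ → |y.im| < δ → p.re ≤ δ →
    ‖exp (gE δ1 δ2 * I) * (LE δ1 δ2 ρ - y) - p‖ + ‖p - exp (-(gE δ1 δ2 * I)) * x‖
      < LE δ1 δ2 ρ + δ → ‖p‖ < ε

/-- points of a virtual configuration -/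
noncomputable def zV {n : ℕ} [NeZero n] (u : Fin 4 → ℂ) (h : Fin 4 → ℝ) (x : Fin n → ℂ) (l : ℕ) :
    ℂ := if l = 1 then rf u h 3 (x 1) else if l = n then rf u h 2 (x 0) else x (Fin.ofNat n l)

/-- VPL: lengths of virtual configurations (as POL) -/
def VplStatement : Prop :=
  ∀ (u : Fin 4 → ℂ) (h : Fin 4 → ℝ) (n : ℕ) [NeZero n] (x : Fin n → ℂ)
    (A : Fin n → Finset (Fin 4)), (∀ s, ‖u s‖ = 1) → 3 ≤ n →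
    (∀ (m : ℕ) (f : Fin (m + 1) → ℕ), StrictMono f → 1 ≤ f 0 → f (Fin.last m) ≤ n →
      ‖x 0 - x 1‖ + ∑ i : Fin m, ‖zV u h x (f i.castSucc) - zV u h x (f i.succ)‖
        ≤ Lv u h x A) ∧
    (∀ δ : ℝ, Shv u h δ x A → (∀ l : ℕ, 1 ≤ l → l < n → ‖zV u h x l - zV u h x (l + 1)‖ < δ) ∧
      ∀ (l : ℕ) (s : Fin 4), 1 ≤ l → l < n → s ∈ A (Fin.ofNat n l) →
        hc4 h s - δ < ip (uc4 u s) (zV u h x l)) ∧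
    (Cnv u h x A → ∀ (l : ℕ) (s : Fin 4), 1 ≤ l → l < n → s ∉ A (Fin.ofNat n l) →
      ip (uc4 u s) (zV u h x l) < hc4 h s ∧ ip (uc4 u s) (zV u h x (l + 1)) < hc4 h s)

/-- GVC: virtual loops, common part: if a nearly minimal virtual loop has a point near the vertex
then the label `3` is visited before and the label `2` after this point; the points up to the first
visit of `3` are near the segment from `rf 3 (x 1)` to `Rp`, those from the last visit of `2` on are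
near the segment from `Qp` to `rf 2 (x 0)` (VPL, PTE) -/
def GvcStatement : Prop :=
  ∀ δ1 δ2 ρ ε : ℝ, HyL δ1 δ2 ρ → 0 < ε → ∃ e : ℝ, 0 < e ∧ ∀ δ ζ : ℝ, 0 < δ → δ < e → 0 < ζ →
    ζ < e → ∀ (η1 η2 : ℝ) (n : ℕ) [NeZero n] (x : Fin n → ℂ)
    (A : Fin n → Finset (Fin 4)) (l0 : ℕ), 3 ≤ n → 0 < l0 → l0 < n →
    ‖zV (uE η1 η2 δ1 δ2) (hE δ1 δ2 ρ) x l0‖ < e →
    Cnv (uE η1 η2 δ1 δ2) (hE δ1 δ2 ρ) x A → Shv (uE η1 η2 δ1 δ2) (hE δ1 δ2 ρ) δ x A →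
    x 0 ∈ WE δ1 δ2 ρ δ ζ → x 1 ∈ WE δ1 δ2 ρ δ ζ →
    Lv (uE η1 η2 δ1 δ2) (hE δ1 δ2 ρ) x A < LE δ1 δ2 ρ + e →
    ∃ k m : ℕ, Fs A k ∧ Ls A m ∧ k < l0 ∧ l0 < m ∧
      (∀ l : ℕ, 0 < l → l ≤ k → ∃ s : ℝ, sr δ1 δ2 ρ ≤ s ∧ s ≤ LE δ1 δ2 ρ ∧
        ‖zV (uE η1 η2 δ1 δ2) (hE δ1 δ2 ρ) x l - exp (gE δ1 δ2 * I) * s‖ < ε) ∧
      ∀ l : ℕ, m ≤ l → l < n → ∃ s : ℝ, sq δ1 δ2 ρ ≤ s ∧ s ≤ LE δ1 δ2 ρ ∧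
        ‖zV (uE η1 η2 δ1 δ2) (hE δ1 δ2 ρ) x l - exp (-(gE δ1 δ2 * I)) * s‖ < ε

/-- GC2: bad virtual loops are long, GE2 (CE2, VCH, VPL, GVC, PTE) -/
def Gc2Statement : Prop :=
  ∀ η1 η2 δ1 δ2 ρ : ℝ, Hy2 η1 η2 δ1 δ2 ρ → ∃ ζ0 : ℝ, 0 < ζ0 ∧ ∀ ζ : ℝ, 0 < ζ → ζ < ζ0 →
    ∃ e δ0 : ℝ, 0 < e ∧ 0 < δ0 ∧ ∀ δ : ℝ, 0 < δ → δ < δ0 →
    ∀ (n : ℕ) [NeZero n] (x : Fin n → ℂ) (A : Fin n → Finset (Fin 4)), 3 ≤ n →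
    B2 {0, 1} ∅ A → Cnv (uE η1 η2 δ1 δ2) (hE δ1 δ2 ρ) x A →
    Shv (uE η1 η2 δ1 δ2) (hE δ1 δ2 ρ) δ x A →
    x 0 ∈ WE δ1 δ2 ρ δ ζ → x 1 ∈ WE δ1 δ2 ρ δ ζ →
    LE δ1 δ2 ρ + e ≤ Lv (uE η1 η2 δ1 δ2) (hE δ1 δ2 ρ) x A

/-- GC1: bad virtual loops are long, GE1 (VCH, VPL, GVC, PTE) -/
def Gc1Statement : Prop :=
  ∀ η1 η2 δ1 δ2 ρ : ℝ, Hy1 η1 η2 δ1 δ2 ρ → ∃ ζ0 : ℝ, 0 < ζ0 ∧ ∀ ζ : ℝ, 0 < ζ → ζ < ζ0 →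
    ∃ e δ0 : ℝ, 0 < e ∧ 0 < δ0 ∧ ∀ δ : ℝ, 0 < δ → δ < δ0 →
    ∀ (n : ℕ) [NeZero n] (x : Fin n → ℂ) (A : Fin n → Finset (Fin 4)), 3 ≤ n →
    B2 {0} {1} A → Cnv (uE η1 η2 δ1 δ2) (hE δ1 δ2 ρ) x A →
    Shv (uE η1 η2 δ1 δ2) (hE δ1 δ2 ρ) δ x A →
    x 0 ∈ WE δ1 δ2 ρ δ ζ → x 1 ∈ WE δ1 δ2 ρ δ ζ →
    LE δ1 δ2 ρ + e ≤ Lv (uE η1 η2 δ1 δ2) (hE δ1 δ2 ρ) x A

/-- GB1: actual loops with the pattern `P2` which visit the avoided label are long, GE1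
(POL, VCH, PTE) -/
def Gb1Statement : Prop :=
  ∀ η1 η2 δ1 δ2 ρ : ℝ, Hy1 η1 η2 δ1 δ2 ρ → ∃ ζ0 : ℝ, 0 < ζ0 ∧ ∀ ζ : ℝ, 0 < ζ → ζ < ζ0 →
    ∃ e δ0 : ℝ, 0 < e ∧ 0 < δ0 ∧ ∀ δ : ℝ, 0 < δ → δ < δ0 →
    ∀ (n : ℕ) [NeZero n] (x : Fin n → ℂ) (A : Fin n → Finset (Fin 4)), 3 ≤ n →
    B1 {0} {1} A → Cns (uE η1 η2 δ1 δ2) (hE δ1 δ2 ρ) x A →
    Sho (uE η1 η2 δ1 δ2) (hE δ1 δ2 ρ) δ x A →
    x 0 ∈ WE δ1 δ2 ρ δ ζ → x 1 ∈ WE δ1 δ2 ρ δ ζ →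
    LE δ1 δ2 ρ + e ≤ Ln (uE η1 η2 δ1 δ2) (hE δ1 δ2 ρ) x A

/-- LE2: locality, GE2 and GE1 (LCC, PTE) -/
def Le2Statement : Prop :=
  (∀ η1 η2 δ1 δ2 ρ : ℝ, Hy2 η1 η2 δ1 δ2 ρ → ∃ R : ℝ, 0 < R ∧
    LcG (uE η1 η2 δ1 δ2) (hE δ1 δ2 ρ) ({0, 1} ∪ {2, 3}) ∅ R) ∧
  ∀ η1 η2 δ1 δ2 ρ : ℝ, Hy1 η1 η2 δ1 δ2 ρ → ∃ R : ℝ, 0 < R ∧
    LcG (uE η1 η2 δ1 δ2) (hE δ1 δ2 ρ) ({0} ∪ {2, 3}) {1} R

/-- GEO: the geometric input (GA2, GC2, GA1, GB1, GC1, LE2, PTE) -/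
def GeoStatement : Prop :=
  (∀ η1 η2 δ1 δ2 ρ : ℝ, Hy2 η1 η2 δ1 δ2 ρ → ∃ ζ0 : ℝ, 0 < ζ0 ∧ ∀ ζ : ℝ, 0 < ζ → ζ < ζ0 →
    ∃ e δ0 R : ℝ, 0 < e ∧ 0 < δ0 ∧ ∀ δ : ℝ, 0 < δ → δ < δ0 →
      Geo4 (uE η1 η2 δ1 δ2) (hE δ1 δ2 ρ) {0, 1} ∅ (CE δ1 δ2 ρ) (WE δ1 δ2 ρ δ ζ)
        (LE δ1 δ2 ρ + e) δ R) ∧
  ∀ η1 η2 δ1 δ2 ρ : ℝ, Hy1 η1 η2 δ1 δ2 ρ → ∃ ζ0 : ℝ, 0 < ζ0 ∧ ∀ ζ : ℝ, 0 < ζ → ζ < ζ0 →
    ∃ e δ0 R : ℝ, 0 < e ∧ 0 < δ0 ∧ ∀ δ : ℝ, 0 < δ → δ < δ0 →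
      Geo4 (uE η1 η2 δ1 δ2) (hE δ1 δ2 ρ) {0} {1} (CE δ1 δ2 ρ) (WE δ1 δ2 ρ δ ζ)
        (LE δ1 δ2 ρ + e) δ R

end Pool.Agent.XQ.K4
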