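import Pool.Agent.Helper36_XQ.Stmt5

/-!
Squad XQ (MP_5b0138_an), part E4: statements of the modules of REF4 (two reflections), helper36.
Model: `Pool.Agent.Helper20_AEU3` (three labels, one reflection), helper20.
-/

set_option autoImplicit false

namespace Pool.Agent.XQ.K4

open MeasureTheory Complex Filter Topology ProbabilityTheory Pool.Agent.H16Iso Pool.Agent.H62T
  Pool.Agent.H16F Pool.Agent.H38KL Pool.Agent.AEU
open scoped ENNReal NNReal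

open Classical in
/-- sum over the label sequences with property `R` of the weights of the chains -/
noncomputable def Cs (u : Fin 4 → ℂ) (h : Fin 4 → ℝ) {m : ℕ}
    (R : (Fin (m + 1) → Finset (Fin 4)) → Prop) (τ : Fin (m + 1) → ℝ) (x y : ℂ) : ℝ≥0∞ :=
  ∑ A : Fin (m + 1) → Finset (Fin 4), if R A then ∫⁻ z : Fin m → ℂ, cw u h τ A x z y else 0

/-- the other side of the line `s` -/
noncomputable def fu (s : Fin 4) (u : Fin 4 → ℂ) : Fin 4 → ℂ := Function.update u s (-u s)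

/-- support numbers -/
noncomputable def fh (s : Fin 4) (h : Fin 4 → ℝ) : Fin 4 → ℝ := Function.update h s (-h s)

/-- the event does not depend on the label `s` -/
def Fr (s : Fin 4) {m : ℕ} (R : (Fin (m + 1) → Finset (Fin 4)) → Prop) : Prop :=
  ∀ A A' : Fin (m + 1) → Finset (Fin 4), (∀ j, (A j).erase s = (A' j).erase s) → (R A ↔ R A')

/-- the blocks after the first visit of `s` have the property `R` -/
def Qg (s : Fin 4) (R : (m : ℕ) → (Fin (m + 1) → Finset (Fin 4)) → Prop) :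
    (m : ℕ) → (Fin (m + 1) → Finset (Fin 4)) → Prop
  | 0, _ => False
  | m + 1, A => (s ∉ A 0 ∧ Qg s R m (fun j => A j.succ)) ∨ (s ∈ A 0 ∧ R m (fun j => A j.succ))

/-- reversed sequence -/
def rs {m : ℕ} {β : Type} (f : Fin (m + 1) → β) (j : Fin (m + 1)) : β := f (Fin.rev j)

/-- `P2` for the blocks after block `0` -/
def Pt (O E : Finset (Fin 4)) : (m : ℕ) → (Fin (m + 1) → Finset (Fin 4)) → Prop :=
  Qg 3 (fun m B => Qg 2 (fun _ B' => Vis O E B') m (rs B))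

/-- RFK: (1) events which do not depend on the label `s` have the same chain sums for both sides of
the line `s`; (2) reflection of the part up to the first visit of `s` (`Cs_rf` of helper20) -/
def RfkStatement : Prop :=
  (∀ (u : Fin 4 → ℂ) (h : Fin 4 → ℝ) (s : Fin 4) (m : ℕ)
    (R : (Fin (m + 1) → Finset (Fin 4)) → Prop) (τ : Fin (m + 1) → ℝ) (x y : ℂ),
    (∀ s, ‖u s‖ = 1) → Fr s R → (∀ j, 0 < τ j) →
    Cs (fu s u) (fh s h) R τ x y = Cs u h R τ x y) ∧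
  ∀ (u : Fin 4 → ℂ) (h : Fin 4 → ℝ) (s : Fin 4)
    (R : (m : ℕ) → (Fin (m + 1) → Finset (Fin 4)) → Prop) (m : ℕ) (τ : Fin (m + 1) → ℝ) (x y : ℂ),
    (∀ s, ‖u s‖ = 1) → (∀ k, Fr s (R k)) → (∀ j, 0 < τ j) → ip (u s) x < h s →
    Cs u h (Qg s R m) τ x y = Cs (fu s u) (fh s h) (Qg s R m) τ (rf u h s x) y

/-- RRV: reversal of a chain -/
def RrvStatement : Prop :=
  ∀ (u : Fin 4 → ℂ) (h : Fin 4 → ℝ) (m : ℕ) (R : (Fin (m + 1) → Finset (Fin 4)) → Prop)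
    (τ : Fin (m + 1) → ℝ) (x y : ℂ), (∀ s, ‖u s‖ = 1) → (∀ j, 0 < τ j) →
    Cs u h R τ x y = Cs u h (fun A => R (rs A)) (rs τ) y x

/-- RCO: combinatorics of the event `P2` -/
def RcoStatement : Prop :=
  ∀ (O E : Finset (Fin 4)) (m : ℕ), O.Nonempty → O ⊆ {0, 1} → E ⊆ {0, 1} →
    (∀ A : Fin (m + 2) → Finset (Fin 4), P2 O E A ↔ Pt O E m (fun j => A j.succ)) ∧
    (∀ B : Fin (m + 1) → Finset (Fin 4),
      Pt O E m B ↔ Qg 2 (fun k B' => Qg 3 (fun _ B'' => Vis O E B'') k (rs B')) m (rs B)) ∧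
    (∀ A : Fin (m + 2) → Finset (Fin 4), (P2 O E A ↔
      (F4 O A ∧ ∀ j, Disjoint (A j) E) ∨ B1 O E A) ∧
      ¬ ((F4 O A ∧ ∀ j, Disjoint (A j) E) ∧ B1 O E A)) ∧
    ∀ A : Fin (m + 2) → Finset (Fin 4), (P2 O E A → Vis O E (fun j : Fin (m + 1) => A j.succ) ∨
      B2 O E A) ∧ (Vis O E (fun j : Fin (m + 1) => A j.succ) → P2 O E A ∨ B2 O E A)

/-- R2S: reflection of both ends (RFK, RRV, RCO) -/
def R2sStatement : Prop :=
  ∀ (u : Fin 4 → ℂ) (h : Fin 4 → ℝ) (O E : Finset (Fin 4)) (m : ℕ) (τ : Fin (m + 1) → ℝ)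
    (x y : ℂ), (∀ s, ‖u s‖ = 1) → O.Nonempty → O ⊆ {0, 1} → E ⊆ {0, 1} → (∀ j, 0 < τ j) →
    ip (u 3) x < h 3 → ip (u 2) y < h 2 →
    Cs u h (Pt O E m) τ x y = Cs (uc4 u) (hc4 h) (Pt O E m) τ (rf u h 3 x) (rf u h 2 y)

open Classical in
/-- RMA: masses as integrals of chain sums (`RefMass` of helper20) -/
def RmaStatement : Prop :=
  (∀ (u : Fin 4 → ℂ) (h : Fin 4 → ℝ) (m : ℕ) (P : (Fin (m + 1) → Finset (Fin 4)) → Prop)
    (S : ℂ → ℂ → Prop) (τ : Fin (m + 2) → ℝ), (∀ s, ‖u s‖ = 1) → (∀ j, 0 < τ j) →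
    MeasurableSet {p : ℂ × ℂ | S p.1 p.2} →
    (Ms u h τ (fun x A => P (fun j => A j.succ) ∧ S (x 0) (x 1))
      = ∫⁻ x, ∫⁻ y, if S x y then ENNReal.ofReal (G (τ 0) (x - y))
        * Cs u h P (fun j => τ j.succ) y x else 0) ∧
    Mvr u h τ (fun x A => P (fun j => A j.succ) ∧ S (x 0) (x 1))
      = ∫⁻ x, ∫⁻ y, if S x y then ENNReal.ofReal (G (τ 0) (x - y))
        * Cs (uc4 u) (hc4 h) P (fun j => τ j.succ) (rf u h 3 y) (rf u h 2 x) else 0) ∧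
  ∀ (u : Fin 4 → ℂ) (h : Fin 4 → ℝ) (O E : Finset (Fin 4)) (m : ℕ) (τ : Fin (m + 1) → ℝ)
    (x y : ℂ), (∀ s, ‖u s‖ = 1) → O ⊆ {0, 1} → E ⊆ {0, 1} → (∀ j, 0 < τ j) →
    Cs (uc4 u) (hc4 h) (Vis O E) τ x y = ENNReal.ofReal (kME u h O E (∑ j, τ j) x y)

open Classical in
/-- mass of the reflected loops through the window -/
noncomputable def LKr (u : Fin 4 → ℂ) (h : Fin 4 → ℝ) (O E : Finset (Fin 4)) (a t : ℝ)
    (S : ℂ → ℂ → Prop) : ℝ≥0∞ :=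
  ∫⁻ x, ∫⁻ y, if S x y then ENNReal.ofReal (G a (x - y))
    * ENNReal.ofReal (kME u h O E (t - a) (rf u h 3 y) (rf u h 2 x)) else 0

/-- RCR: comparison of the masses (R2S, RMA, RCO) -/
def RcrStatement : Prop :=
  ∀ (u : Fin 4 → ℂ) (h : Fin 4 → ℝ) (n : ℕ) [NeZero n] (τ : Fin n → ℝ)
    (O E : Finset (Fin 4)) (S : ℂ → ℂ → Prop), (∀ s, ‖u s‖ = 1) → 3 ≤ n → (∀ j, 0 < τ j) →
    O.Nonempty → O ⊆ {0, 1} → E ⊆ {0, 1} → MeasurableSet {p : ℂ × ℂ | S p.1 p.2} →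
    (∀ x y, S x y → (ip (u 2) x < h 2 ∧ ip (u 3) x < h 3) ∧ ip (u 2) y < h 2 ∧ ip (u 3) y < h 3) →
    Ms u h τ (fun x A => (F4 O A ∧ ∀ j, Disjoint (A j) E) ∧ S (x 0) (x 1))
      ≤ LKr u h O E (τ 0) (∑ j, τ j) S + Mvr u h τ (fun x A => B2 O E A ∧ S (x 0) (x 1)) ∧
    LKr u h O E (τ 0) (∑ j, τ j) S
      ≤ Ms u h τ (fun x A => (F4 O A ∧ ∀ j, Disjoint (A j) E) ∧ S (x 0) (x 1))
        + Ms u h τ (fun x A => B1 O E A ∧ S (x 0) (x 1))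
        + Mvr u h τ (fun x A => B2 O E A ∧ S (x 0) (x 1))

/-- TCM: the flux as a difference of two masses -/
def TcmStatement : Prop :=
  ∀ (u : Fin 4 → ℂ) (h : Fin 4 → ℝ) (n : ℕ) [NeZero n] (τ : Fin n → ℝ)
    (O E : Finset (Fin 4)) (C : Set ℂ), (∀ s, ‖u s‖ = 1) → 2 ≤ n → (∀ j, 0 < τ j) →
    MeasurableSet C → Ms u h τ (fun _ A => Vis (O ∪ {2, 3}) E A) ≠ ⊤ →
    Ms u h τ (fun x A => (F4 O A ∧ ∀ j, Disjoint (A j) E) ∧ x 0 ∉ C ∧ x 1 ∈ C) ≠ ⊤ ∧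
    Ms u h τ (fun x A => (F4 O A ∧ ∀ j, Disjoint (A j) E) ∧ x 0 ∈ C ∧ x 1 ∉ C) ≠ ⊤ ∧
    TC4 u h τ O E C
      = (Ms u h τ (fun x A => (F4 O A ∧ ∀ j, Disjoint (A j) E) ∧ x 0 ∉ C ∧ x 1 ∈ C)).toReal
        - (Ms u h τ (fun x A => (F4 O A ∧ ∀ j, Disjoint (A j) E) ∧ x 0 ∈ C ∧ x 1 ∉ C)).toReal

/-- TGM: the flux in the unfolded picture as a difference of two masses -/
def TgmStatement : Prop :=
  ∀ (u : Fin 4 → ℂ) (h : Fin 4 → ℝ) (O E : Finset (Fin 4)) (C W : Set ℂ) (R a t : ℝ),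
    (∀ s, ‖u s‖ = 1) → 0 < a → a < t → MeasurableSet C → MeasurableSet W → (∀ x ∈ W, ‖x‖ ≤ R) →
    LKr u h O E a t (fun x y => (x ∈ W ∧ y ∈ W) ∧ x ∉ C ∧ y ∈ C) ≠ ⊤ ∧
    LKr u h O E a t (fun x y => (x ∈ W ∧ y ∈ W) ∧ x ∈ C ∧ y ∉ C) ≠ ⊤ ∧
    TTG u h O E C W a t
      = (LKr u h O E a t (fun x y => (x ∈ W ∧ y ∈ W) ∧ x ∉ C ∧ y ∈ C)).toReal
        - (LKr u h O E a t (fun x y => (x ∈ W ∧ y ∈ W) ∧ x ∈ C ∧ y ∉ C)).toReal

end Pool.Agent.XQ.K4
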